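import Mathlib
import Pool.Agent.H826R2.Wein.Stmt

/-! Definitions: convergence of functions, one-forms and vector fields in the topologies `C¹` and
`C²`. The derivatives of functions are taken along smooth vector fields, so that no metric and no
atlas have to be chosen. -/

open scoped Topology ContDiff Manifold
open Set Filter Pool.Agent.H826R2.WStmt

noncomputable section

namespace Pool.Agent.J4H20.STStmt

variable {E : Type*} [NormedAddCommGroup E] [NormedSpace ℝ E]
  {M : Type*} [TopologicalSpace M] [ChartedSpace E M] [IsManifold 𝓘(ℝ, E) ∞ M]

/-- `V` is a smooth vector field on `M`. -/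
def IsSmoothField (V : M → E) : Prop :=
  ContMDiff 𝓘(ℝ, E) 𝓘(ℝ, E).tangent ∞
    (fun x => (⟨x, (V x : TangentSpace 𝓘(ℝ, E) x)⟩ : TangentBundle 𝓘(ℝ, E) M))

variable (E) in
/-- The functions `u j` converge to the function `v` in the topology `C¹` (on a compact manifold):
the functions and their derivatives along every smooth vector field converge uniformly. -/
structure TendsToC1 (u : ℕ → M → ℝ) (v : M → ℝ) : Prop where
  unif : TendstoUniformly u v atTop
  deriv : ∀ V : M → E, IsSmoothField V →
    TendstoUniformly (fun j x => D (E' := ℝ) (u j) x (V x)) (fun x => D (E' := ℝ) v x (V x)) atTop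

/-- The one-forms `a j` converge to the one-form `b` in the topology `C¹`: so do their values on
every smooth vector field. -/
def FormsTendToC1 (a : ℕ → M → Cov E) (b : M → Cov E) : Prop :=
  ∀ V : M → E, IsSmoothField V → TendsToC1 E (fun j x => ev (a j x) (V x)) (fun x => ev (b x) (V x))

/-- The one-forms `a j` converge to the one-form `b` in the topology `C²`: the values on every
smooth vector field `V`, and the derivatives of these functions along every smooth vector field
`W`, converge in the topology `C¹`. -/
def FormsTendToC2 (a : ℕ → M → Cov E) (b : M → Cov E) : Prop :=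
  FormsTendToC1 a b ∧ ∀ V : M → E, IsSmoothField V → ∀ W : M → E, IsSmoothField W →
    TendsToC1 E (fun j x => D (E' := ℝ) (fun y => ev (a j y) (V y)) x (W x))
      (fun x => D (E' := ℝ) (fun y => ev (b y) (V y)) x (W x))

/-- The vector fields `X j` converge to the vector field `Y` in the topology `C¹`: so do the
derivatives of every smooth function along them. -/
def FieldsTendToC1 (X : ℕ → M → E) (Y : M → E) : Prop :=
  ∀ f : M → ℝ, ContMDiff 𝓘(ℝ, E) 𝓘(ℝ, ℝ) ∞ f →
    TendsToC1 E (fun j x => D (E' := ℝ) f x (X j x)) (fun x => D (E' := ℝ) f x (Y x))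

end Pool.Agent.J4H20.STStmt
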