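import Mathlib
import Pool.Agent.W671.WU11

/-! Frames of gradients of the coordinates of an embedding; comparison of functions with the
distance in the ambient space. -/

open scoped Topology ContDiff Manifold
open Set Metric Bundle Filter Pool.Agent.Helper186 Pool.Agent.H826R2.Wein Pool.Agent.W671.WU

noncomputable section

namespace Pool.Agent.J4H20.ST

set_option linter.unusedSectionVars false

universe u

variable {E : Type u} [NormedAddCommGroup E] [NormedSpace ℝ E] [FiniteDimensional ℝ E]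
  {P : Type*} [TopologicalSpace P] [ChartedSpace E P] [IsManifold 𝓘(ℝ, E) ∞ P]
  {F : Type*} [NormedAddCommGroup F] [NormedSpace ℝ F] {m : ℕ}

/-- the coordinate functions of the immersion -/
def gc (ι : Imm (E := E) P m) (l : Fin m) (y : P) : ℝ := ι.F y l

lemma smooth_gc (ι : Imm (E := E) P m) (l : Fin m) : ContMDiff 𝓘(ℝ, E) 𝓘(ℝ, ℝ) ∞ (gc ι l) :=
  smooth_coord ι l

/-- the dual frame -/
def fr (ι : Imm (E := E) P m) (l : Fin m) (x : P) : TangentSpace 𝓘(ℝ, E) x := ι.grad (gc ι l) x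

lemma smooth_fr (ι : Imm (E := E) P m) (l : Fin m) :
    ContMDiff 𝓘(ℝ, E) 𝓘(ℝ, E).tangent ∞
      (fun x => (⟨x, fr ι l x⟩ : TangentBundle 𝓘(ℝ, E) P)) := ι.smooth_grad (smooth_gc ι l)

/-- the coordinates of a tangent vector -/
def co (ι : Imm (E := E) P m) (x : P) (w : TangentSpace 𝓘(ℝ, E) x) (l : Fin m) : ℝ :=
  dForm 𝓘(ℝ, E) (gc ι l) x w

lemma co_eq (ι : Imm (E := E) P m) (x : P) (w : TangentSpace 𝓘(ℝ, E) x) (l : Fin m) :
    co ι x w l = (ι.D x w) l := (D_coord ι l x w).symm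

lemma frame (ι : Imm (E := E) P m) (x : P) (w : TangentSpace 𝓘(ℝ, E) x) :
    (∑ l, co ι x w l • fr ι l x) = w := by
  rw [← sub_eq_zero]
  apply ι.nondeg
  intro v
  have h1 : ι.B x ((∑ l, co ι x w l • fr ι l x) - w) v =
      (∑ l, co ι x w l * ι.B x (fr ι l x) v) - ι.B x w v := by
    rw [map_sub, map_sum]
    show ((∑ l, ι.B x (co ι x w l • fr ι l x)) v : ℝ) - ι.B x w v = _
    rw [sum_apply]
    congr 1
    refine Finset.sum_congr rfl fun l _ => ?_
    rw [map_smul]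
    rfl
  rw [h1, ι.B_apply, PiLp.inner_apply, sub_eq_zero]
  refine Finset.sum_congr rfl fun l _ => ?_
  rw [co_eq]
  have h2 : ι.B x (fr ι l x) v = (ι.D x v) l := by
    unfold fr
    rw [ι.grad_spec, D_coord]
    rfl
  rw [h2]
  show (ι.D x w) l * (ι.D x v) l = (ι.D x v) l * (ι.D x w) l
  ring

lemma dForm_frame (ι : Imm (E := E) P m) (u : P → ℝ) (x : P) (w : TangentSpace 𝓘(ℝ, E) x) :
    dForm 𝓘(ℝ, E) u x w = ∑ l, co ι x w l * dForm 𝓘(ℝ, E) u x (fr ι l x) := by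
  conv_lhs => rw [← frame ι x w]
  rw [map_sum]
  refine Finset.sum_congr rfl fun l _ => ?_
  rw [map_smul]
  rfl

lemma form_frame (ι : Imm (E := E) P m) (β : (x : P) → TangentSpace 𝓘(ℝ, E) x →L[ℝ] ℝ) (x : P)
    (w : TangentSpace 𝓘(ℝ, E) x) : β x w = ∑ l, β x (fr ι l x) * dForm 𝓘(ℝ, E) (gc ι l) x w := by
  conv_lhs => rw [← frame ι x w]
  rw [map_sum]
  refine Finset.sum_congr rfl fun l _ => ?_
  rw [map_smul, smul_eq_mul, mul_comm]
  rfl

lemma mfderiv_frame (ι : Imm (E := E) P m) (e : P → F) (x : P) (w : E) :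
    dv E e x w = ∑ l, co ι x w l • dv E e x (fr ι l x) := by
  have h := congrArg (fun w : E => dv E e x w) (frame ι x w)
  refine h.symm.trans ?_
  show mfderiv 𝓘(ℝ, E) 𝓘(ℝ, F) e x (∑ l, co ι x w l • fr ι l x) = _
  rw [map_sum]
  refine Finset.sum_congr rfl fun l _ => ?_
  rw [map_smul]
  rfl

/-- comparison with the ambient distance -/
lemma unif_of_cont [T2Space P] [CompactSpace P] {G : Type*} [PseudoMetricSpace G] {u : P → G}
    (hu : Continuous u) {g : P → F} (hg : Continuous g) (hinj : Function.Injective g) {ε : ℝ}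
    (hε : 0 < ε) : ∃ δ > 0, ∀ x y, ‖g x - g y‖ < δ → dist (u x) (u y) < ε := by
  set O : Set (P × P) := {q | dist (u q.1) (u q.2) < ε} with hO
  have hOo : IsOpen O :=
    isOpen_lt ((hu.comp continuous_fst).dist (hu.comp continuous_snd)) continuous_const
  rcases (Oᶜ).eq_empty_or_nonempty with hemp | hne
  · refine ⟨1, one_pos, fun x y _ => ?_⟩
    by_contra hq
    have : (x, y) ∈ Oᶜ := hq
    rw [hemp] at this
    exact this
  · obtain ⟨q₀, hq₀, hmin⟩ := (hOo.isClosed_compl.isCompact).exists_isMinOn hne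
      (f := fun q : P × P => ‖g q.1 - g q.2‖)
      (((hg.comp continuous_fst).sub (hg.comp continuous_snd)).norm).continuousOn
    refine ⟨‖g q₀.1 - g q₀.2‖, ?_, fun x y hxy => ?_⟩
    · rw [gt_iff_lt, norm_pos_iff, sub_ne_zero]
      intro h
      apply hq₀
      have h2 := hinj h
      show dist (u q₀.1) (u q₀.2) < ε
      rw [h2, dist_self]
      exact hε
    · by_contra hqO
      have h3 := hmin (a := (x, y)) hqO
      simp only [mem_ofPred_eq] at h3
      exact absurd hxy (not_lt.2 h3)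

/-- Lipschitz constants with respect to the ambient distance -/
lemma exists_lip [T2Space P] [CompactSpace P] (ι : Imm (E := E) P m)
    (hinj : Function.Injective ι.F) {u : P → ℝ} (hu : ContMDiff 𝓘(ℝ, E) 𝓘(ℝ, ℝ) ∞ u) :
    ∃ K > 0, ∀ x y, |u x - u y| ≤ K * ‖ι.F x - ι.F y‖ := by
  by_contra hcon
  push Not at hcon
  choose x y hxy using fun k : ℕ => hcon ((k : ℝ) + 1) (by positivity)
  obtain ⟨l, hl⟩ : ∃ l : Ultrafilter ℕ, (l : Filter ℕ) ≤ atTop := ⟨_, Ultrafilter.of_le _⟩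
  obtain ⟨x₀, hx₀⟩ := exists_limit_compact l x
  obtain ⟨y₀, hy₀⟩ := exists_limit_compact l y
  have hne : ∀ k, x k ≠ y k := by
    intro k h
    have := hxy k
    rw [h, sub_self, norm_zero, mul_zero, sub_self, abs_zero] at this
    exact lt_irrefl _ this
  -- the limits agree
  have hud : Tendsto (fun k => |u (x k) - u (y k)|) l (𝓝 |u x₀ - u y₀|) :=
    (((hu.continuous.tendsto x₀).comp hx₀).sub ((hu.continuous.tendsto y₀).comp hy₀)).abs
  have hFd : Tendsto (fun k => ‖ι.F (x k) - ι.F (y k)‖) l (𝓝 ‖ι.F x₀ - ι.F y₀‖) :=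
    (((ι.smooth.continuous.tendsto x₀).comp hx₀).sub
      ((ι.smooth.continuous.tendsto y₀).comp hy₀)).norm
  have hinv : Tendsto (fun k : ℕ => ((k : ℝ) + 1)⁻¹) l (𝓝 0) := by
    have h1 : Tendsto (fun k : ℕ => ((k : ℝ) + 1)⁻¹) atTop (𝓝 0) := by
      have := tendsto_one_div_add_atTop_nhds_zero_nat (𝕜 := ℝ)
      simpa [one_div] using this
    exact h1.mono_left hl
  have hF0 : Tendsto (fun k => ‖ι.F (x k) - ι.F (y k)‖) l (𝓝 0) := by
    have h1 : Tendsto (fun k : ℕ => ((k : ℝ) + 1)⁻¹ * |u (x k) - u (y k)|) l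
        (𝓝 (0 * |u x₀ - u y₀|)) := hinv.mul hud
    rw [zero_mul] at h1
    refine squeeze_zero (fun k => norm_nonneg _) (fun k => ?_) h1
    rw [le_inv_mul_iff₀ (by positivity)]
    exact (hxy k).le
  have hxy₀ : x₀ = y₀ := by
    have h1 := tendsto_nhds_unique hFd hF0
    exact hinj (sub_eq_zero.1 (norm_eq_zero.1 h1))
  subst hxy₀
  -- the chart
  have hsrc : (extChartAt 𝓘(ℝ, E) x₀).source ∈ 𝓝 x₀ := extChartAt_source_mem_nhds x₀
  have hx₀t := mem_extChartAt_target (I := 𝓘(ℝ, E)) x₀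
  set ψ := extChartAt 𝓘(ℝ, E) x₀ with hψ
  have hp : Tendsto (fun k => ψ (x k)) l (𝓝 (ψ x₀)) := (continuousAt_extChartAt x₀).tendsto.comp hx₀
  have hq : Tendsto (fun k => ψ (y k)) l (𝓝 (ψ x₀)) := (continuousAt_extChartAt x₀).tendsto.comp hy₀
  have hxs := hx₀.eventually hsrc
  have hys := hy₀.eventually hsrc
  have hneq : ∀ᶠ k in (l : Filter ℕ), ψ (y k) ≠ ψ (x k) := by
    filter_upwards [hxs, hys] with k h1 h2 h3
    exact hne k (ψ.injOn h2 h1 h3).symm
  obtain ⟨z, hz⟩ := exists_limit l (a := fun k => ‖ψ (y k) - ψ (x k)‖⁻¹ • (ψ (y k) - ψ (x k)))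
    (C := 1) (by
    filter_upwards [hneq] with k hk
    have : ‖ψ (y k) - ψ (x k)‖ ≠ 0 := norm_ne_zero_iff.2 (sub_ne_zero.2 hk)
    rw [norm_smul, norm_inv, norm_norm, inv_mul_cancel₀ this])
  have hz1 : ‖z‖ = 1 := by
    have h1 : Tendsto (fun k => ‖‖ψ (y k) - ψ (x k)‖⁻¹ • (ψ (y k) - ψ (x k))‖) l (𝓝 1) := by
      refine tendsto_const_nhds.congr' ?_
      filter_upwards [hneq] with k hk
      have : ‖ψ (y k) - ψ (x k)‖ ≠ 0 := norm_ne_zero_iff.2 (sub_ne_zero.2 hk)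
      rw [norm_smul, norm_inv, norm_norm, inv_mul_cancel₀ this]
    exact tendsto_nhds_unique hz.norm h1
  have hquot : ∀ {r : P → ℝ} (_ : ContMDiff 𝓘(ℝ, E) 𝓘(ℝ, ℝ) ∞ r),
      Tendsto (fun k => (r (y k) - r (x k)) * ‖ψ (y k) - ψ (x k)‖⁻¹) l
        (𝓝 (fderiv ℝ (cf x₀ r) (ψ x₀) z)) := by
    intro r hr
    have h1 := tendsto_quot ((cf_smooth x₀ hr hx₀t).hasStrictFDerivAt (by simp)) hp hq hz
    refine h1.congr' ?_
    filter_upwards [hxs, hys] with k h1 h2
    unfold cf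
    rw [ψ.left_inv h1, ψ.left_inv h2]
  have hzero : ∀ i : Fin m, fderiv ℝ (cf x₀ (gc ι i)) (ψ x₀) z = 0 := by
    intro i
    have h1 := hquot (smooth_gc ι i)
    have h2 := (hquot hu).abs
    have h3 : Tendsto (fun k : ℕ => ((k : ℝ) + 1)⁻¹ * |(u (y k) - u (x k)) * ‖ψ (y k) - ψ (x k)‖⁻¹|) l
        (𝓝 (0 * |fderiv ℝ (cf x₀ u) (ψ x₀) z|)) := hinv.mul h2
    rw [zero_mul] at h3
    have h4 : Tendsto (fun k => (gc ι i (y k) - gc ι i (x k)) * ‖ψ (y k) - ψ (x k)‖⁻¹) l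
        (𝓝 0) := by
      refine squeeze_zero_norm (fun k => ?_) h3
      rw [norm_mul, norm_inv, norm_norm, Real.norm_eq_abs, abs_mul, abs_inv, abs_norm,
        ← mul_assoc]
      refine mul_le_mul_of_nonneg_right ?_ (inv_nonneg.2 (norm_nonneg _))
      rw [le_inv_mul_iff₀ (by positivity)]
      have h5 : |gc ι i (y k) - gc ι i (x k)| ≤ ‖ι.F (x k) - ι.F (y k)‖ := by
        have h6 := PiLp.norm_apply_le (ι.F (x k) - ι.F (y k)) i
        rw [Real.norm_eq_abs] at h6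
        rw [abs_sub_comm]
        exact h6
      rw [abs_sub_comm (u (y k))]
      exact le_trans (mul_le_mul_of_nonneg_left h5 (by positivity)) (hxy k).le
    exact tendsto_nhds_unique h1 h4
  have hz0 : z = 0 := by
    have h3 : ι.D x₀ z = 0 := by
      ext i
      have h1 := hzero i
      rw [fderiv_cf_self x₀ (smooth_gc ι i)] at h1
      have h2 := D_coord ι i x₀ z
      exact h2.trans h1
    exact ι.inj x₀ (h3.trans (map_zero (ι.D x₀)).symm)
  rw [hz0, norm_zero] at hz1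
  exact zero_ne_one hz1

end Pool.Agent.J4H20.ST
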