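import Mathlib
import Pool.Agent.J4H20.ST.St1

/-! The differential of a flow in the coordinates of an embedding; growth estimates. -/

open scoped Topology ContDiff Manifold
open Set Metric Bundle Filter Pool.Agent.Helper186 Pool.Agent.H826R2.Wein Pool.Agent.W671.WU

noncomputable section

namespace Pool.Agent.J4H20.ST

set_option linter.unusedSectionVars false

universe u

section growth

variable {V : Type*} [NormedAddCommGroup V] [NormedSpace ℝ V]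

lemma growth_pos {U U' : ℝ → V} {K : ℝ} (hK : 0 < K) (hU : ∀ t, HasDerivAt U (U' t) t)
    (hb : ∀ t, ‖U' t‖ ≤ K * ‖U t‖) {t : ℝ} (ht : 0 ≤ t) :
    ‖U t - U 0‖ ≤ (Real.exp (K * t) - 1) * ‖U 0‖ := by
  have h1 := norm_le_gronwallBound_of_norm_deriv_right_le (f := fun s => U s - U 0)
    (f' := U') (δ := 0) (K := K) (ε := K * ‖U 0‖) (a := 0) (b := t)
    (fun s _ => ((hU s).sub_const (U 0)).continuousAt.continuousWithinAt)
    (fun s _ => ((hU s).sub_const (U 0)).hasDerivWithinAt) (by simp)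
    (fun s _ => by
      have h2 : ‖U s‖ ≤ ‖U s - U 0‖ + ‖U 0‖ := by
        have := norm_add_le (U s - U 0) (U 0)
        simpa using this
      calc ‖U' s‖ ≤ K * ‖U s‖ := hb s
        _ ≤ K * (‖U s - U 0‖ + ‖U 0‖) := by gcongr
        _ = _ := by ring) t ⟨ht, le_rfl⟩
  rw [gronwallBound_of_K_ne_0 hK.ne'] at h1
  simp only [sub_zero, zero_mul, zero_add] at h1
  refine h1.trans (le_of_eq ?_)
  field_simp

lemma growth {U U' : ℝ → V} {K : ℝ} (hK : 0 < K) (hU : ∀ t, HasDerivAt U (U' t) t)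
    (hb : ∀ t, ‖U' t‖ ≤ K * ‖U t‖) (t : ℝ) :
    ‖U t - U 0‖ ≤ (Real.exp (K * |t|) - 1) * ‖U 0‖ := by
  rcases le_total 0 t with h | h
  · rw [abs_of_nonneg h]
    exact growth_pos hK hU hb h
  · rw [abs_of_nonpos h]
    have h1 := growth_pos (U := fun s => U (-s)) (U' := fun s => -U' (-s)) hK (fun s => by
      have := (hU (-s)).scomp s (hasDerivAt_neg s)
      simp only [neg_smul, one_smul] at this
      exact this) (fun s => by rw [norm_neg]; exact hb (-s)) (t := -t) (by linarith)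
    simpa using h1

lemma growth' {U U' : ℝ → V} {K : ℝ} (hK : 0 < K) (hU : ∀ t, HasDerivAt U (U' t) t)
    (hb : ∀ t, ‖U' t‖ ≤ K * ‖U t‖) (t : ℝ) : ‖U t‖ ≤ Real.exp (K * |t|) * ‖U 0‖ := by
  have h1 := growth hK hU hb t
  have h2 : ‖U t‖ ≤ ‖U t - U 0‖ + ‖U 0‖ := by
    have := norm_add_le (U t - U 0) (U 0)
    simpa using this
  linarith

/-- comparison of two solutions -/
lemma compare {W W' : ℝ → V} {K η T : ℝ} (hK : 0 < K) (hη : 0 ≤ η)
    (hW : ∀ t, HasDerivAt W (W' t) t)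
    (hb : ∀ t ∈ Icc 0 T, ‖W' t‖ ≤ K * ‖W t‖ + η) (h0 : W 0 = 0) {t : ℝ} (ht : t ∈ Icc 0 T) :
    ‖W t‖ ≤ η / K * Real.exp (K * T) := by
  have h1 := norm_le_gronwallBound_of_norm_deriv_right_le (f := W)
    (f' := W') (δ := 0) (K := K) (ε := η) (a := 0) (b := t)
    (fun s _ => (hW s).continuousAt.continuousWithinAt)
    (fun s _ => (hW s).hasDerivWithinAt) (by simp [h0])
    (fun s hs => hb s ⟨hs.1, hs.2.le.trans ht.2⟩) t ⟨ht.1, le_rfl⟩
  rw [gronwallBound_of_K_ne_0 hK.ne'] at h1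
  simp only [sub_zero, zero_mul, zero_add] at h1
  refine h1.trans ?_
  refine mul_le_mul_of_nonneg_left ?_ (by positivity)
  have h2 : Real.exp (K * t) ≤ Real.exp (K * T) := Real.exp_le_exp.2 (by
    exact mul_le_mul_of_nonneg_left ht.2 hK.le)
  linarith

end growth

variable {E : Type u} [NormedAddCommGroup E] [NormedSpace ℝ E] [FiniteDimensional ℝ E]
  {P : Type*} [TopologicalSpace P] [ChartedSpace E P] [IsManifold 𝓘(ℝ, E) ∞ P]
  {F : Type*} [NormedAddCommGroup F] [NormedSpace ℝ F] {m : ℕ}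

/-- a smooth vector field with its flow -/
structure FD (X : (x : P) → TangentSpace 𝓘(ℝ, E) x) (Φ : P → ℝ → P) : Prop where
  sm : ContMDiff 𝓘(ℝ, E) 𝓘(ℝ, E).tangent ∞ (fun x => (⟨x, X x⟩ : TangentBundle 𝓘(ℝ, E) P))
  zero : ∀ x, Φ x 0 = x
  int : ∀ x, IsMIntegralCurve (I := 𝓘(ℝ, E)) (Φ x) X

namespace FD

variable {X : (x : P) → TangentSpace 𝓘(ℝ, E) x} {Φ : P → ℝ → P}

lemma flow [T2Space P] (h : FD X Φ) : ContMDiff (𝓘(ℝ, E).prod 𝓘(ℝ, ℝ)) 𝓘(ℝ, E) ∞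
    (fun p : P × ℝ => Φ p.1 p.2) := by
  have : IsManifold 𝓘(ℝ, E) 1 P := IsManifold.of_le (n := ∞) (by simp)
  exact contMDiff_flow h.sm h.zero h.int

lemma smooth_t [T2Space P] (h : FD X Φ) (t : ℝ) : ContMDiff 𝓘(ℝ, E) 𝓘(ℝ, E) ∞ (fun x => Φ x t) :=
  h.flow.comp (contMDiff_id.prodMk contMDiff_const)

end FD

/-- the components of the field -/
def ac (ι : Imm (E := E) P m) (X : (x : P) → TangentSpace 𝓘(ℝ, E) x) (i : Fin m) (x : P) : ℝ :=
  co ι x (X x) i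

/-- the derivatives of the components of the field along the frame -/
def bc (ι : Imm (E := E) P m) (X : (x : P) → TangentSpace 𝓘(ℝ, E) x) (i l : Fin m) (x : P) : ℝ :=
  dForm 𝓘(ℝ, E) (ac ι X i) x (fr ι l x)

lemma smooth_ac (ι : Imm (E := E) P m) {X : (x : P) → TangentSpace 𝓘(ℝ, E) x}
    (hX : ContMDiff 𝓘(ℝ, E) 𝓘(ℝ, E).tangent ∞ (fun x => (⟨x, X x⟩ : TangentBundle 𝓘(ℝ, E) P)))
    (i : Fin m) : ContMDiff 𝓘(ℝ, E) 𝓘(ℝ, ℝ) ∞ (ac ι X i) :=
  fun x => (smoothForm_dForm (smooth_gc ι i)).comp (hX x) le_rfl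

lemma smooth_bc (ι : Imm (E := E) P m) {X : (x : P) → TangentSpace 𝓘(ℝ, E) x}
    (hX : ContMDiff 𝓘(ℝ, E) 𝓘(ℝ, E).tangent ∞ (fun x => (⟨x, X x⟩ : TangentBundle 𝓘(ℝ, E) P)))
    (i l : Fin m) : ContMDiff 𝓘(ℝ, E) 𝓘(ℝ, ℝ) ∞ (bc ι X i l) :=
  fun x => (smoothForm_dForm (smooth_ac ι hX i)).comp (smooth_fr ι l x) le_rfl

/-- position in the coordinates -/
def gv (ι : Imm (E := E) P m) (x : P) : Fin m → ℝ := fun i => gc ι i x

/-- the differential of the flow in the coordinates -/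
def uc (ι : Imm (E := E) P m) (Φ : P → ℝ → P) (x : P) (v : E) (t : ℝ) : Fin m → ℝ :=
  fun i => co ι (Φ x t) (dm E (fun y => Φ y t) x v) i

variable {X : (x : P) → TangentSpace 𝓘(ℝ, E) x} {Φ : P → ℝ → P}

lemma uc_zero (ι : Imm (E := E) P m) (h : FD X Φ) (x : P) (v : E) :
    uc ι Φ x v 0 = fun i => co ι x (v : TangentSpace 𝓘(ℝ, E) x) i := by
  have e0 : (fun x' : P => Φ x' 0) = id := by ext1 y; exact h.zero y
  have e1 : dm E (fun y => Φ y 0) x v = v := by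
    unfold dm
    rw [e0, mfderiv_id]
    rfl
  have e2 : ∀ (z : P) (w : E), z = x → w = v → (fun i => co ι z w i) =
      (fun i => co ι x (v : TangentSpace 𝓘(ℝ, E) x) i) := by
    rintro _ _ rfl rfl; rfl
  exact e2 _ _ (h.zero x) e1

lemma hasDerivAt_gv (ι : Imm (E := E) P m) (h : FD X Φ) (x : P) (t : ℝ) :
    HasDerivAt (fun s => gv ι (Φ x s)) (fun i => ac ι X i (Φ x t)) t := by
  rw [hasDerivAt_pi]
  intro i
  exact hasDerivAt_along (W := X) (h.int x t) (smooth_gc ι i)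

/-- the linearised equation -/
lemma hasDerivAt_uc [T2Space P] (ι : Imm (E := E) P m) (h : FD X Φ) (x : P) (v : E) (t : ℝ) :
    HasDerivAt (uc ι Φ x v) (fun i => ∑ l, uc ι Φ x v t l * bc ι X i l (Φ x t)) t := by
  rw [hasDerivAt_pi]
  intro i
  have hi : ContMDiff (𝓘(ℝ, ℝ).prod 𝓘(ℝ, E)) 𝓘(ℝ, E) ∞ (fun p : ℝ × P => Φ p.2 p.1) :=
    h.flow.comp (contMDiff_snd.prodMk contMDiff_fst)
  have hdS : ∀ (s : ℝ) (y : P), dS 𝓘(ℝ, E) (fun p : ℝ × P => Φ p.2 p.1) s y = X (Φ y s) := by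
    intro s y
    have h1 := (h.int y s).mfderiv
    unfold dS
    show (mfderiv 𝓘(ℝ, ℝ) 𝓘(ℝ, E) (fun σ => Φ y σ) s) (1:ℝ) = _
    have h2 : (fun σ => Φ y σ) = Φ y := rfl
    rw [h2, h1]
    show (1 : ℝ →L[ℝ] ℝ) 1 • X (Φ y s) = _
    simp
  have h1 := hasDerivAt_variation (I := 𝓘(ℝ, E)) (J := 𝓘(ℝ, E))
    (smoothForm_dForm (smooth_gc ι i)) isOpen_univ hi.contMDiffOn (mem_univ (t, x)) v
  refine h1.congr_deriv ?_
  rw [extDer_dForm (smooth_gc ι i), zero_add]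
  have h2 : (fun x' : P => dForm 𝓘(ℝ, E) (gc ι i) ((fun p : ℝ × P => Φ p.2 p.1) (t, x'))
      (dS 𝓘(ℝ, E) (fun p : ℝ × P => Φ p.2 p.1) t x')) = (ac ι X i) ∘ (fun x' => Φ x' t) := by
    ext1 x'
    rw [hdS]
    rfl
  rw [h2]
  have h3 : mfderiv 𝓘(ℝ, E) 𝓘(ℝ, ℝ) ((ac ι X i) ∘ fun x' => Φ x' t) x =
      (mfderiv 𝓘(ℝ, E) 𝓘(ℝ, ℝ) (ac ι X i) (Φ x t)).comp
      (mfderiv 𝓘(ℝ, E) 𝓘(ℝ, E) (fun x' => Φ x' t) x) :=
    mfderiv_comp _ ((smooth_ac ι h.sm i).mdifferentiableAt (by simp))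
      ((h.smooth_t t).mdifferentiableAt (by simp))
  rw [h3]
  exact dForm_frame ι (ac ι X i) (Φ x t) (dm E (fun y => Φ y t) x v)

lemma norm_lin_le {B : Fin m → Fin m → ℝ} {b : ℝ} (hb : ∀ i l, |B i l| ≤ b) (hb0 : 0 ≤ b)
    (u : Fin m → ℝ) : ‖(fun i => ∑ l, u l * B i l : Fin m → ℝ)‖ ≤ m * b * ‖u‖ := by
  rw [pi_norm_le_iff_of_nonneg (by positivity)]
  intro i
  rw [Real.norm_eq_abs]
  calc |∑ l, u l * B i l| ≤ ∑ l, |u l * B i l| := Finset.abs_sum_le_sum_abs _ _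
    _ ≤ ∑ _l : Fin m, ‖u‖ * b := by
        refine Finset.sum_le_sum fun l _ => ?_
        rw [abs_mul]
        exact mul_le_mul (norm_le_pi_norm u l) (hb i l) (abs_nonneg _) (norm_nonneg _)
    _ = m * b * ‖u‖ := by
        rw [Finset.sum_const, Finset.card_univ, Fintype.card_fin, nsmul_eq_mul]; ring

/-- growth of the differential of the flow -/
lemma uc_growth [T2Space P] (ι : Imm (E := E) P m) (h : FD X Φ) {b : ℝ} (hb0 : 0 ≤ b)
    (hb : ∀ i l x, |bc ι X i l x| ≤ b) (x : P) (v : E) (t : ℝ) :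
    ‖uc ι Φ x v t - uc ι Φ x v 0‖ ≤ (Real.exp ((m * b + 1) * |t|) - 1) * ‖uc ι Φ x v 0‖ := by
  refine growth (by positivity) (hasDerivAt_uc ι h x v) (fun s => ?_) t
  refine (norm_lin_le (fun i l => hb i l (Φ x s)) hb0 _).trans ?_
  gcongr
  linarith

lemma uc_growth' [T2Space P] (ι : Imm (E := E) P m) (h : FD X Φ) {b : ℝ} (hb0 : 0 ≤ b)
    (hb : ∀ i l x, |bc ι X i l x| ≤ b) (x : P) (v : E) (t : ℝ) :
    ‖uc ι Φ x v t‖ ≤ Real.exp ((m * b + 1) * |t|) * ‖uc ι Φ x v 0‖ := by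
  refine growth' (by positivity) (hasDerivAt_uc ι h x v) (fun s => ?_) t
  refine (norm_lin_le (fun i l => hb i l (Φ x s)) hb0 _).trans ?_
  gcongr
  linarith

lemma gv_speed (ι : Imm (E := E) P m) (h : FD X Φ) {a : ℝ} (ha0 : 0 ≤ a)
    (ha : ∀ i x, |ac ι X i x| ≤ a) (x : P) (t : ℝ) : ‖gv ι (Φ x t) - gv ι x‖ ≤ a * |t| := by
  have h1 := Convex.norm_image_sub_le_of_norm_hasDerivWithin_le (f := fun s => gv ι (Φ x s))
    (f' := fun s => (fun i => ac ι X i (Φ x s))) (C := a) (s := univ)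
    (fun s _ => (hasDerivAt_gv ι h x s).hasDerivWithinAt) (fun s _ => by
      rw [pi_norm_le_iff_of_nonneg ha0]
      intro i
      exact ha i _) convex_univ (mem_univ 0) (mem_univ t)
  simpa [h.zero] using h1

/-- Lipschitz constants with respect to the sup norm of the coordinates -/
lemma exists_lip' [T2Space P] [CompactSpace P] (ι : Imm (E := E) P m)
    (hinj : Function.Injective ι.F) {u : P → ℝ} (hu : ContMDiff 𝓘(ℝ, E) 𝓘(ℝ, ℝ) ∞ u) :
    ∃ K > 0, ∀ x y, |u x - u y| ≤ K * ‖gv ι x - gv ι y‖ := by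
  obtain ⟨K, hK, h⟩ := exists_lip ι hinj hu
  let L : EuclideanSpace ℝ (Fin m) ≃L[ℝ] (Fin m → ℝ) := EuclideanSpace.equiv (Fin m) ℝ
  refine ⟨K * (‖(L.symm : (Fin m → ℝ) →L[ℝ] EuclideanSpace ℝ (Fin m))‖ + 1), by positivity,
    fun x y => (h x y).trans ?_⟩
  have h1 : ι.F x - ι.F y = L.symm (gv ι x - gv ι y) := by
    rw [ContinuousLinearEquiv.eq_symm_apply]
    rfl
  rw [mul_assoc]
  refine mul_le_mul_of_nonneg_left ?_ hK.le
  rw [h1]
  refine ((L.symm : (Fin m → ℝ) →L[ℝ] EuclideanSpace ℝ (Fin m)).le_opNorm _).trans ?_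
  refine mul_le_mul_of_nonneg_right (by linarith) (norm_nonneg _)

lemma gv_inj {ι : Imm (E := E) P m} (hinj : Function.Injective ι.F) :
    Function.Injective (gv ι) := by
  intro x y h
  apply hinj
  ext i
  exact congrFun h i

lemma continuous_gv (ι : Imm (E := E) P m) : Continuous (gv ι) :=
  continuous_pi fun i => (smooth_gc ι i).continuous

/-- bounds on a compact manifold -/
lemma exists_bound [CompactSpace P] {n : ℕ} {u : Fin n → P → ℝ} (hu : ∀ i, Continuous (u i)) :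
    ∃ b > 0, ∀ i x, |u i x| ≤ b := by
  have h1 : ∀ i, ∃ b > 0, ∀ x, |u i x| ≤ b := by
    intro i
    obtain ⟨b, hb⟩ := (isCompact_univ (X := P)).exists_bound_of_continuousOn (hu i).continuousOn
    exact ⟨|b| + 1, by positivity, fun x => (hb x (mem_univ x)).trans
      ((le_abs_self b).trans (by linarith))⟩
  choose b hb0 hb using h1
  refine ⟨(∑ i, b i) + 1, by
    have := Finset.sum_nonneg (fun i (_ : i ∈ Finset.univ) => (hb0 i).le)
    linarith, fun i x => ?_⟩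
  have := Finset.single_le_sum (f := b) (fun i _ => (hb0 i).le) (Finset.mem_univ i)
  linarith [hb i x]

end Pool.Agent.J4H20.ST
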