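import Mathlib
import Pool.Agent.J4H20.ST.St2

/-! Convergence of flows. -/

open scoped Topology ContDiff Manifold
open Set Metric Bundle Filter Pool.Agent.Helper186 Pool.Agent.H826R2.Wein Pool.Agent.W671.WU

noncomputable section

namespace Pool.Agent.J4H20.ST

set_option linter.unusedSectionVars false

universe u

variable {E : Type u} [NormedAddCommGroup E] [NormedSpace ℝ E] [FiniteDimensional ℝ E]
  {P : Type*} [TopologicalSpace P] [ChartedSpace E P] [IsManifold 𝓘(ℝ, E) ∞ P]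
  {F : Type*} [NormedAddCommGroup F] [NormedSpace ℝ F] {m : ℕ}

/-- uniform convergence -/
def UC (u : ℕ → P → ℝ) (u₀ : P → ℝ) : Prop := ∀ ε > 0, ∀ᶠ j in atTop, ∀ x, |u j x - u₀ x| < ε

/-- `C¹` convergence of vector fields, in the coordinates of an embedding -/
structure CV (ι : Imm (E := E) P m) (X : (x : P) → TangentSpace 𝓘(ℝ, E) x)
    (Xj : ℕ → (x : P) → TangentSpace 𝓘(ℝ, E) x) : Prop where
  a : ∀ i, UC (fun j => ac ι (Xj j) i) (ac ι X i)
  b : ∀ i l, UC (fun j => bc ι (Xj j) i l) (bc ι X i l)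

variable {X : (x : P) → TangentSpace 𝓘(ℝ, E) x} {Xj : ℕ → (x : P) → TangentSpace 𝓘(ℝ, E) x}
  {Φ : P → ℝ → P} {Φj : ℕ → P → ℝ → P}

lemma CV.a' {ι : Imm (E := E) P m} (h : CV ι X Xj) {ε : ℝ} (hε : 0 < ε) :
    ∀ᶠ j in atTop, ∀ i x, |ac ι (Xj j) i x - ac ι X i x| < ε :=
  eventually_all.2 fun i => h.a i ε hε

lemma CV.b' {ι : Imm (E := E) P m} (h : CV ι X Xj) {ε : ℝ} (hε : 0 < ε) :
    ∀ᶠ j in atTop, ∀ i l x, |bc ι (Xj j) i l x - bc ι X i l x| < ε :=
  eventually_all.2 fun i => eventually_all.2 fun l => h.b i l ε hε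

lemma exists_bound2 [CompactSpace P] {n : ℕ} {u : Fin n → Fin n → P → ℝ}
    (hu : ∀ i l, Continuous (u i l)) : ∃ b > 0, ∀ i l x, |u i l x| ≤ b := by
  have h1 := fun i => exists_bound (fun l => hu i l)
  choose b hb0 hb using h1
  refine ⟨(∑ i, b i) + 1, by
    have := Finset.sum_nonneg (fun i (_ : i ∈ Finset.univ) => (hb0 i).le)
    linarith, fun i l x => ?_⟩
  have := Finset.single_le_sum (f := b) (fun i _ => (hb0 i).le) (Finset.mem_univ i)
  linarith [hb i l x]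

lemma exists_lip_all [T2Space P] [CompactSpace P] (ι : Imm (E := E) P m)
    (hinj : Function.Injective ι.F) {n : ℕ} {u : Fin n → P → ℝ}
    (hu : ∀ i, ContMDiff 𝓘(ℝ, E) 𝓘(ℝ, ℝ) ∞ (u i)) :
    ∃ K > 0, ∀ i x y, |u i x - u i y| ≤ K * ‖gv ι x - gv ι y‖ := by
  choose K hK0 hK using fun i => exists_lip' ι hinj (hu i)
  refine ⟨(∑ i, K i) + 1, by
    have := Finset.sum_nonneg (fun i (_ : i ∈ Finset.univ) => (hK0 i).le)
    linarith, fun i x y => (hK i x y).trans ?_⟩
  have := Finset.single_le_sum (f := K) (fun i _ => (hK0 i).le) (Finset.mem_univ i)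
  refine mul_le_mul_of_nonneg_right (by linarith) (norm_nonneg _)

/-- uniform bounds for the linearised fields -/
lemma CV.bound [CompactSpace P] {ι : Imm (E := E) P m} (h : CV ι X Xj)
    (hX : ContMDiff 𝓘(ℝ, E) 𝓘(ℝ, E).tangent ∞ (fun x => (⟨x, X x⟩ : TangentBundle 𝓘(ℝ, E) P))) :
    ∃ b > 0, (∀ i x, |ac ι X i x| ≤ b) ∧ (∀ i l x, |bc ι X i l x| ≤ b) ∧
      (∀ᶠ j in atTop, ∀ i x, |ac ι (Xj j) i x| ≤ b) ∧
      (∀ᶠ j in atTop, ∀ i l x, |bc ι (Xj j) i l x| ≤ b) := by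
  obtain ⟨a, ha0, ha⟩ := exists_bound (fun i => (smooth_ac ι hX i).continuous)
  obtain ⟨b, hb0, hb⟩ := exists_bound2 (fun i l => (smooth_bc ι hX i l).continuous)
  refine ⟨a + b + 1, by positivity, fun i x => ?_, fun i l x => ?_, ?_, ?_⟩
  · linarith [ha i x]
  · linarith [hb i l x]
  · filter_upwards [h.a' one_pos] with j hj i x
    have h1 := hj i x
    have h2 := abs_sub_abs_le_abs_sub (ac ι (Xj j) i x) (ac ι X i x)
    linarith [ha i x]
  · filter_upwards [h.b' one_pos] with j hj i l x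
    have h1 := hj i l x
    have h2 := abs_sub_abs_le_abs_sub (bc ι (Xj j) i l x) (bc ι X i l x)
    linarith [hb i l x]

/-- The flows converge uniformly. -/
lemma pos_close [T2Space P] [CompactSpace P] {ι : Imm (E := E) P m}
    (hinj : Function.Injective ι.F) (hc : CV ι X Xj) (h : FD X Φ) (hj : ∀ j, FD (Xj j) (Φj j))
    (T : ℝ) {ε : ℝ} (hε : 0 < ε) :
    ∀ᶠ j in atTop, ∀ x, ∀ t ∈ Icc 0 T, ‖gv ι (Φj j x t) - gv ι (Φ x t)‖ ≤ ε := by
  obtain ⟨K, hK, hlip⟩ := exists_lip_all ι hinj (fun i => smooth_ac ι h.sm i)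
  have hη : 0 < ε * K / Real.exp (K * T) := by positivity
  filter_upwards [hc.a' hη] with j hjη x t ht
  have h1 := compare (W := fun s => gv ι (Φj j x s) - gv ι (Φ x s)) (T := T) hK hη.le
    (fun s => (hasDerivAt_gv ι (hj j) x s).sub (hasDerivAt_gv ι h x s)) (fun s _ => ?_) ?_ ht
  · refine h1.trans (le_of_eq ?_)
    field_simp
  · rw [pi_norm_le_iff_of_nonneg (by positivity)]
    intro i
    rw [Pi.sub_apply, Real.norm_eq_abs]
    have h2 := hjη i (Φj j x s)
    have h3 := hlip i (Φj j x s) (Φ x s)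
    have h4 : ac ι (Xj j) i (Φj j x s) - ac ι X i (Φ x s) =
      (ac ι (Xj j) i (Φj j x s) - ac ι X i (Φj j x s)) +
        (ac ι X i (Φj j x s) - ac ι X i (Φ x s)) := by ring
    rw [h4]
    have h5 := abs_add_le (ac ι (Xj j) i (Φj j x s) - ac ι X i (Φj j x s))
      (ac ι X i (Φj j x s) - ac ι X i (Φ x s))
    linarith
  · rw [(hj j).zero, h.zero, sub_self]

/-- The differentials of the flows converge uniformly. -/
lemma co_close [T2Space P] [CompactSpace P] {ι : Imm (E := E) P m}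
    (hinj : Function.Injective ι.F) (hc : CV ι X Xj) (h : FD X Φ) (hj : ∀ j, FD (Xj j) (Φj j))
    (T : ℝ) {ε : ℝ} (hε : 0 < ε) :
    ∀ᶠ j in atTop, ∀ x (v : E), ∀ t ∈ Icc 0 T,
      ‖uc ι (Φj j) x v t - uc ι Φ x v t‖ ≤ ε * ‖uc ι Φ x v 0‖ := by
  obtain ⟨b, hb0, -, hb, -, hbj⟩ := hc.bound h.sm
  have hlip0 : ∃ K > 0, ∀ i l x y, |bc ι X i l x - bc ι X i l y| ≤ K * ‖gv ι x - gv ι y‖ := by
    choose K hK0 hK using fun i => exists_lip_all ι hinj (fun l => smooth_bc ι h.sm i l)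
    refine ⟨(∑ i, K i) + 1, by
      have := Finset.sum_nonneg (fun i (_ : i ∈ Finset.univ) => (hK0 i).le)
      linarith, fun i l x y => (hK i l x y).trans ?_⟩
    have := Finset.single_le_sum (f := K) (fun i _ => (hK0 i).le) (Finset.mem_univ i)
    refine mul_le_mul_of_nonneg_right (by linarith) (norm_nonneg _)
  obtain ⟨L, hL, hlip⟩ := hlip0
  set K : ℝ := m * b + 1 with hKdef
  have hK : 0 < K := by positivity
  set η : ℝ := ε * K / ((m + 1) * (Real.exp (K * T) * Real.exp (K * T))) with hη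
  have hη0 : 0 < η := by positivity
  filter_upwards [hbj, hc.b' (ε := η / 2) (by positivity),
    pos_close hinj hc h hj T (ε := η / (2 * L)) (by positivity)] with j h1 h2 h3 x v t ht
  set W : ℝ → Fin m → ℝ := fun s => uc ι (Φj j) x v s - uc ι Φ x v s with hW
  have hz : uc ι (Φj j) x v 0 = uc ι Φ x v 0 := by rw [uc_zero ι (hj j), uc_zero ι h]
  have hd : ∀ s, HasDerivAt W ((fun i => ∑ l, uc ι (Φj j) x v s l * bc ι (Xj j) i l (Φj j x s)) -
      (fun i => ∑ l, uc ι Φ x v s l * bc ι X i l (Φ x s))) s := fun s =>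
    (hasDerivAt_uc ι (hj j) x v s).sub (hasDerivAt_uc ι h x v s)
  have hb2 : ∀ s ∈ Icc 0 T, ‖(fun i => ∑ l, uc ι (Φj j) x v s l * bc ι (Xj j) i l (Φj j x s)) -
      (fun i => ∑ l, uc ι Φ x v s l * bc ι X i l (Φ x s))‖ ≤
      K * ‖W s‖ + m * η * (Real.exp (K * T) * ‖uc ι Φ x v 0‖) := by
    intro s hs
    have e1 : (fun i => ∑ l, uc ι (Φj j) x v s l * bc ι (Xj j) i l (Φj j x s)) -
      (fun i => ∑ l, uc ι Φ x v s l * bc ι X i l (Φ x s)) =
      (fun i => ∑ l, W s l * bc ι (Xj j) i l (Φj j x s)) +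
      (fun i => ∑ l, uc ι Φ x v s l * (bc ι (Xj j) i l (Φj j x s) - bc ι X i l (Φ x s))) := by
      ext i
      simp only [Pi.sub_apply, Pi.add_apply, hW]
      rw [← Finset.sum_sub_distrib, ← Finset.sum_add_distrib]
      refine Finset.sum_congr rfl fun l _ => ?_
      ring
    rw [e1]
    have e2 := norm_lin_le (fun i l => h1 i l (Φj j x s)) hb0.le (W s)
    have e3 : ∀ i l, |bc ι (Xj j) i l (Φj j x s) - bc ι X i l (Φ x s)| ≤ η := by
      intro i l
      have h4 := h2 i l (Φj j x s)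
      have h5 := hlip i l (Φj j x s) (Φ x s)
      have h6 : L * ‖gv ι (Φj j x s) - gv ι (Φ x s)‖ ≤ η / 2 := by
        have := mul_le_mul_of_nonneg_left (h3 x s hs) hL.le
        refine this.trans (le_of_eq ?_)
        field_simp
      have h7 : bc ι (Xj j) i l (Φj j x s) - bc ι X i l (Φ x s) =
        (bc ι (Xj j) i l (Φj j x s) - bc ι X i l (Φj j x s)) +
          (bc ι X i l (Φj j x s) - bc ι X i l (Φ x s)) := by ring
      rw [h7]
      have h8 := abs_add_le (bc ι (Xj j) i l (Φj j x s) - bc ι X i l (Φj j x s))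
        (bc ι X i l (Φj j x s) - bc ι X i l (Φ x s))
      linarith
    have e4 := norm_lin_le e3 hη0.le (uc ι Φ x v s)
    have e5 := uc_growth' ι h hb0.le hb x v s
    have e6 : Real.exp (K * |s|) ≤ Real.exp (K * T) := by
      rw [Real.exp_le_exp, abs_of_nonneg hs.1]
      exact mul_le_mul_of_nonneg_left hs.2 hK.le
    refine (norm_add_le _ _).trans (add_le_add (e2.trans ?_) (e4.trans ?_))
    · refine mul_le_mul_of_nonneg_right ?_ (norm_nonneg _)
      rw [hKdef]; linarith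
    · refine mul_le_mul_of_nonneg_left ?_ (by positivity)
      exact e5.trans (mul_le_mul_of_nonneg_right e6 (norm_nonneg _))
  have hfin := compare hK (by positivity) hd hb2 (by simp only [hW, hz, sub_self]) ht
  refine hfin.trans ?_
  have h9 : m * η * (Real.exp (K * T) * ‖uc ι Φ x v 0‖) / K * Real.exp (K * T) =
      (m / (m + 1)) * (ε * ‖uc ι Φ x v 0‖) := by
    rw [hη]
    field_simp
  rw [h9]
  have h10 : (m : ℝ) / (m + 1) ≤ 1 := by
    rw [div_le_one (by positivity)]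
    linarith
  calc (m : ℝ) / (m + 1) * (ε * ‖uc ι Φ x v 0‖) ≤ 1 * (ε * ‖uc ι Φ x v 0‖) :=
        mul_le_mul_of_nonneg_right h10 (by positivity)
    _ = _ := one_mul _

end Pool.Agent.J4H20.ST
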