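import Mathlib
import Pool.Agent.J4H20.ST.St3

/-! The limiting argument for sequences of forms, in a vector space. -/

open scoped Topology ContDiff Manifold
open Set Metric Bundle Filter Pool.Agent.W671.WU

noncomputable section

namespace Pool.Agent.J4H20.ST

set_option linter.unusedSectionVars false

universe u

section general

variable {E : Type u} [NormedAddCommGroup E] [NormedSpace ℝ E]

lemma limit_eqs' {l : Filter ℕ} [NeBot l] {n : ℕ}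
    {f₀ : Fin n → ℝ} {f₀' g₀' : Fin n → E →L[ℝ] ℝ}
    {fp fq gp gq : ℕ → Fin n → ℝ} {fp' fq' gp' gq' : ℕ → Fin n → E →L[ℝ] ℝ} {r : ℕ → ℝ} {z : E}
    (hfp : ∀ i, Tendsto (fun k => fp k i) l (𝓝 (f₀ i)))
    (hfq : ∀ i, Tendsto (fun k => fq k i) l (𝓝 (f₀ i)))
    (hfp' : ∀ i, Tendsto (fun k => fp' k i) l (𝓝 (f₀' i)))
    (hfq' : ∀ i, Tendsto (fun k => fq' k i) l (𝓝 (f₀' i)))
    (hgp' : ∀ i, Tendsto (fun k => gp' k i) l (𝓝 (g₀' i)))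
    (hgq' : ∀ i, Tendsto (fun k => gq' k i) l (𝓝 (g₀' i)))
    (hqf : ∀ i, Tendsto (fun k => (fq k i - fp k i) * r k) l (𝓝 (f₀' i z)))
    (hqg : ∀ i, Tendsto (fun k => (gq k i - gp k i) * r k) l (𝓝 (g₀' i z)))
    {L : ℕ → E →L[ℝ] E} {L₀ : E →L[ℝ] E} (hL : Tendsto L l (𝓝 L₀))
    (hS : ∀ᶠ k in l, (∑ i, (fp k i + fq k i) * (gq k i - gp k i)) = 0)
    (hE : ∀ᶠ k in l, ∀ v : E,
      (∑ i, ((fp' k i v + fq' k i (L k v)) * (gq k i - gp k i) -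
        (fq k i - fp k i) * (gp' k i v + gq' k i (L k v)))) = 0) :
    (∑ i, f₀ i * g₀' i z) = 0 ∧
    ∀ v : E, (∑ i, (f₀' i (v + L₀ v) * g₀' i z - f₀' i z * g₀' i (v + L₀ v))) = 0 := by
  constructor
  · have h1 : Tendsto (fun k => ∑ i, (fp k i + fq k i) * ((gq k i - gp k i) * r k)) l
        (𝓝 (∑ i, (f₀ i + f₀ i) * g₀' i z)) :=
      tendsto_finsetSum _ fun i _ => ((hfp i).add (hfq i)).mul (hqg i)
    have h2 : Tendsto (fun k => ∑ i, (fp k i + fq k i) * ((gq k i - gp k i) * r k)) l (𝓝 0) := by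
      refine tendsto_const_nhds.congr' ?_
      filter_upwards [hS] with k hk
      have h3 : (∑ i, (fp k i + fq k i) * ((gq k i - gp k i) * r k)) =
          (∑ i, (fp k i + fq k i) * (gq k i - gp k i)) * r k := by
        rw [Finset.sum_mul]
        exact Finset.sum_congr rfl fun i _ => by ring
      rw [h3, hk, zero_mul]
    have h4 := tendsto_nhds_unique h1 h2
    have h5 : (∑ i, (f₀ i + f₀ i) * g₀' i z) = 2 * ∑ i, f₀ i * g₀' i z := by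
      rw [Finset.mul_sum]
      exact Finset.sum_congr rfl fun i _ => by ring
    rw [h5] at h4
    linarith
  · intro v
    have hLv : Tendsto (fun k => L k v) l (𝓝 (L₀ v)) :=
      ((ContinuousLinearMap.apply ℝ E v).continuous.tendsto L₀).comp hL
    have hd : ∀ {A B : ℕ → (E →L[ℝ] ℝ)} {A₀ : E →L[ℝ] ℝ}, Tendsto A l (𝓝 A₀) →
        Tendsto B l (𝓝 A₀) → Tendsto (fun k => A k v + B k (L k v)) l (𝓝 (A₀ (v + L₀ v))) := by
      intro A B A₀ hA hB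
      rw [map_add]
      exact (tendsto_app hA tendsto_const_nhds).add (tendsto_app hB hLv)
    have h1 : Tendsto (fun k => ∑ i, ((fp' k i v + fq' k i (L k v)) *
        ((gq k i - gp k i) * r k) -
        ((fq k i - fp k i) * r k) * (gp' k i v + gq' k i (L k v)))) l
        (𝓝 (∑ i, (f₀' i (v + L₀ v) * g₀' i z - f₀' i z * g₀' i (v + L₀ v)))) := by
      refine tendsto_finsetSum _ fun i _ => ?_
      exact ((hd (hfp' i) (hfq' i)).mul (hqg i)).sub ((hqf i).mul (hd (hgp' i) (hgq' i)))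
    have h2 : Tendsto (fun k => ∑ i, ((fp' k i v + fq' k i (L k v)) *
        ((gq k i - gp k i) * r k) -
        ((fq k i - fp k i) * r k) * (gp' k i v + gq' k i (L k v)))) l (𝓝 0) := by
      refine tendsto_const_nhds.congr' ?_
      filter_upwards [hE] with k hk
      have h3 := hk v
      have h4 : (∑ i, ((fp' k i v + fq' k i (L k v)) * ((gq k i - gp k i) * r k) -
        ((fq k i - fp k i) * r k) * (gp' k i v + gq' k i (L k v)))) =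
        (∑ i, ((fp' k i v + fq' k i (L k v)) * (gq k i - gp k i) -
          (fq k i - fp k i) * (gp' k i v + gq' k i (L k v)))) * r k := by
        rw [Finset.sum_mul]
        exact Finset.sum_congr rfl fun i _ => by ring
      rw [h4, h3, zero_mul]
    exact tendsto_nhds_unique h1 h2

end general

variable {E : Type u} [NormedAddCommGroup E] [NormedSpace ℝ E] [FiniteDimensional ℝ E]
  {F : Type*} [NormedAddCommGroup F] [NormedSpace ℝ F]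

theorem no_limit' (l : Ultrafilter ℕ) {n : ℕ}
    {f₀ : Fin n → ℝ} {f₀' g₀' : Fin n → E →L[ℝ] ℝ}
    {fp fq gp gq : ℕ → Fin n → ℝ} {fp' fq' gp' gq' : ℕ → Fin n → E →L[ℝ] ℝ} {r : ℕ → ℝ} {z : E}
    (hfp : ∀ i, Tendsto (fun k => fp k i) l (𝓝 (f₀ i)))
    (hfq : ∀ i, Tendsto (fun k => fq k i) l (𝓝 (f₀ i)))
    (hfp' : ∀ i, Tendsto (fun k => fp' k i) l (𝓝 (f₀' i)))
    (hfq' : ∀ i, Tendsto (fun k => fq' k i) l (𝓝 (f₀' i)))
    (hgp' : ∀ i, Tendsto (fun k => gp' k i) l (𝓝 (g₀' i)))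
    (hgq' : ∀ i, Tendsto (fun k => gq' k i) l (𝓝 (g₀' i)))
    (hqf : ∀ i, Tendsto (fun k => (fq k i - fp k i) * r k) l (𝓝 (f₀' i z)))
    (hqg : ∀ i, Tendsto (fun k => (gq k i - gp k i) * r k) l (𝓝 (g₀' i z)))
    (hz1 : ‖z‖ = 1)
    {b : E →L[ℝ] ℝ} {b₁ b₂ : ℕ → E →L[ℝ] ℝ} (hb₁ : Tendsto b₁ l (𝓝 b)) (hb₂ : Tendsto b₂ l (𝓝 b))
    (hb : ∀ v, b v = ∑ i, f₀ i * g₀' i v)
    (hnd : ∀ z : E, b z = 0 →
      (∀ w : E, (∑ i, (f₀' i w * g₀' i z - f₀' i z * g₀' i w)) = 0) → z = 0)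
    {J : E →L[ℝ] F} (hJi : Function.Injective J) {J₁ J₂ : ℕ → E →L[ℝ] F}
    (hJ₁ : Tendsto J₁ l (𝓝 J)) (hJ₂ : Tendsto J₂ l (𝓝 J))
    {ρ : E} {ρ₁ ρ₂ : ℕ → E} (hρ₁ : Tendsto ρ₁ l (𝓝 ρ)) (hρ₂ : Tendsto ρ₂ l (𝓝 ρ)) (hρ0 : ρ ≠ 0)
    (hbρ : ∀ᶠ k in (l : Filter ℕ), b₂ k (ρ₂ k) = 1)
    {L N : ℕ → E →L[ℝ] E} (hN : Tendsto N l (𝓝 (ContinuousLinearMap.id ℝ E)))
    (hL : ∀ᶠ k in (l : Filter ℕ), ∀ v, b₂ k (L k v) = b₁ k v)
    (hLR : ∀ᶠ k in (l : Filter ℕ), L k (ρ₁ k) = ρ₂ k)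
    {C : ℝ}
    (h : ∀ᶠ k in (l : Filter ℕ), ∃ lam : E →L[ℝ] ℝ, ∀ v,
      ‖J₂ k (L k v + lam v • ρ₂ k)‖ ≤ C * ‖J₁ k v‖ ∧
      ‖J₁ k v‖ ≤ C * ‖J₂ k (L k v + lam v • ρ₂ k) + J₁ k v‖)
    (hS : ∀ᶠ k in (l : Filter ℕ), (∑ i, (fp k i + fq k i) * (gq k i - gp k i)) = 0)
    (hE : ∀ᶠ k in (l : Filter ℕ), ∀ v : E,
      (∑ i, ((fp' k i v + fq' k i (N k (L k v))) * (gq k i - gp k i) -
        (fq k i - fp k i) * (gp' k i v + gq' k i (N k (L k v))))) = 0) : False := by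
  obtain ⟨L₀, lam, hL₀, hLρ, hmod⟩ := return_limit l (J := J) hJi hJ₁ hJ₂ hb₁ hb₂ hρ₁ hρ₂ hbρ
    hL hLR h
  have hNL : Tendsto (fun k => (N k).comp (L k)) l (𝓝 L₀) := by
    have h1 : Tendsto (fun k => (N k).comp (L k)) l
        (𝓝 ((ContinuousLinearMap.id ℝ E).comp L₀)) :=
      ((isBoundedBilinearMap_comp (𝕜 := ℝ) (E := E) (F := E) (G := E)).continuous.tendsto
        ((ContinuousLinearMap.id ℝ E), L₀)).comp (hN.prodMk_nhds hL₀)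
    rwa [ContinuousLinearMap.id_comp] at h1
  obtain ⟨e1, e2⟩ := limit_eqs' hfp hfq hfp' hfq' hgp' hgq' hqf hqg hNL hS hE
  have hsurj := lin_alg hJi hLρ hρ0 hmod
  have hz0 : z = 0 := by
    apply hnd z
    · rw [hb]
      exact e1
    · intro w
      obtain ⟨v, rfl⟩ := hsurj w
      exact e2 v
  rw [hz0, norm_zero] at hz1
  exact zero_ne_one hz1

/-- eventual lower bounds -/
lemma lower_of_inj {l : Filter ℕ} {J : E →L[ℝ] F} (hJ : Function.Injective J)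
    {Jk : ℕ → E →L[ℝ] F} (hJk : Tendsto Jk l (𝓝 J)) :
    ∃ c > 0, ∀ᶠ k in l, ∀ w, c * ‖w‖ ≤ ‖Jk k w‖ := by
  obtain ⟨c, hc, hcJ⟩ : ∃ c > 0, ∀ v, c * ‖v‖ ≤ ‖J v‖ := by
    obtain ⟨K, hK, hK2⟩ := LinearMap.exists_antilipschitzWith (J : E →ₗ[ℝ] F)
      (LinearMap.ker_eq_bot.2 hJ)
    refine ⟨(K : ℝ)⁻¹, by positivity, fun v => ?_⟩
    have h1 := hK2.le_mul_dist v 0
    simp only [dist_zero_right, map_zero] at h1
    rw [inv_mul_le_iff₀ (by positivity)]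
    exact h1
  refine ⟨c / 2, by positivity, ?_⟩
  have h1 : Tendsto (fun k => ‖Jk k - J‖) l (𝓝 0) := tendsto_iff_norm_sub_tendsto_zero.1 hJk
  filter_upwards [h1.eventually (gt_mem_nhds (show (0:ℝ) < c / 2 by positivity))] with k hk w
  have h2 : ‖J w‖ ≤ ‖Jk k w‖ + ‖(Jk k - J) w‖ := by
    have h3 : J w = Jk k w - (Jk k - J) w := by simp
    rw [h3]
    exact norm_sub_le _ _
  have h4 : ‖(Jk k - J) w‖ ≤ c / 2 * ‖w‖ :=
    ((Jk k - J).le_opNorm w).trans (by gcongr)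
  have h5 := hcJ w
  linarith

lemma inj_limit {l : Filter ℕ} {J : E →L[ℝ] F} (hJ : Function.Injective J)
    {Jk : ℕ → E →L[ℝ] F} (hJk : Tendsto Jk l (𝓝 J)) {r : ℕ → E} {ρ : E}
    (h : Tendsto (fun k => Jk k (r k)) l (𝓝 (J ρ))) : Tendsto r l (𝓝 ρ) := by
  obtain ⟨c, hc, hcJ⟩ := lower_of_inj hJ hJk
  have h1 : Tendsto (fun k => Jk k ρ) l (𝓝 (J ρ)) := tendsto_app hJk tendsto_const_nhds
  have h2 : Tendsto (fun k => c⁻¹ * ‖Jk k (r k) - Jk k ρ‖) l (𝓝 0) := by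
    have := (h.sub h1).norm.const_mul c⁻¹
    simpa using this
  rw [tendsto_iff_norm_sub_tendsto_zero]
  refine squeeze_zero' (Eventually.of_forall fun k => norm_nonneg _) ?_ h2
  filter_upwards [hcJ] with k hk
  rw [le_inv_mul_iff₀ hc, ← map_sub]
  exact hk _

lemma inj_limit_op {l : Filter ℕ} {J : E →L[ℝ] F} (hJ : Function.Injective J)
    {J₁ J₂ : ℕ → E →L[ℝ] F} (hJ₁ : Tendsto J₁ l (𝓝 J)) (hJ₂ : Tendsto J₂ l (𝓝 J))
    {N : ℕ → E →L[ℝ] E} {ε : ℕ → ℝ} (hε : Tendsto ε l (𝓝 0)) (hε0 : ∀ k, 0 ≤ ε k)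
    (h : ∀ᶠ k in l, ∀ v, ‖J₂ k (N k v) - J₁ k v‖ ≤ ε k * ‖J₁ k v‖) :
    Tendsto N l (𝓝 (ContinuousLinearMap.id ℝ E)) := by
  obtain ⟨c, hc, hcJ⟩ := lower_of_inj hJ hJ₂
  have h2 : Tendsto (fun k => c⁻¹ * (ε k * ‖J₁ k‖ + ‖J₁ k - J₂ k‖)) l (𝓝 0) := by
    have := ((hε.mul hJ₁.norm).add (hJ₁.sub hJ₂).norm).const_mul c⁻¹
    simpa using this
  rw [tendsto_iff_norm_sub_tendsto_zero]
  refine squeeze_zero' (Eventually.of_forall fun k => norm_nonneg _) ?_ h2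
  filter_upwards [hcJ, h] with k hk h3
  refine ContinuousLinearMap.opNorm_le_bound _ (by have := hε0 k; positivity) fun v => ?_
  have h4 := hk (N k v - v)
  have h5 : J₂ k (N k v - v) = (J₂ k (N k v) - J₁ k v) + (J₁ k - J₂ k) v := by
    rw [map_sub, sub_apply]
    abel
  have h6 : ‖J₂ k (N k v - v)‖ ≤ ε k * (‖J₁ k‖ * ‖v‖) + ‖J₁ k - J₂ k‖ * ‖v‖ := by
    rw [h5]
    refine (norm_add_le _ _).trans (add_le_add ((h3 v).trans ?_) ((J₁ k - J₂ k).le_opNorm v))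
    exact mul_le_mul_of_nonneg_left ((J₁ k).le_opNorm v) (hε0 k)
  have h7 : (N k - ContinuousLinearMap.id ℝ E) v = N k v - v := by simp
  rw [h7, mul_assoc, le_inv_mul_iff₀ hc]
  calc c * ‖N k v - v‖ ≤ ‖J₂ k (N k v - v)‖ := h4
    _ ≤ _ := h6
    _ = _ := by ring

end Pool.Agent.J4H20.ST
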