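import Mathlib
import Pool.Agent.J4H20.ST.St4

/-! Limits in a chart for sequences of functions, forms and flows. -/

open scoped Topology ContDiff Manifold
open Set Metric Bundle Filter Pool.Agent.Helper186 Pool.Agent.H826R2.Wein Pool.Agent.W671.WU

noncomputable section

namespace Pool.Agent.J4H20.ST

set_option linter.unusedSectionVars false

universe u

variable {E : Type u} [NormedAddCommGroup E] [NormedSpace ℝ E] [FiniteDimensional ℝ E]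
  {P : Type*} [TopologicalSpace P] [ChartedSpace E P] [IsManifold 𝓘(ℝ, E) ∞ P]
  {F : Type*} [NormedAddCommGroup F] [NormedSpace ℝ F] {m : ℕ}

/-- derivative of a function along the frame -/
def dl (ι : Imm (E := E) P m) (l : Fin m) (u : P → ℝ) (x : P) : ℝ :=
  dForm 𝓘(ℝ, E) u x (fr ι l x)

/-- the coefficients of a form -/
def fF (ι : Imm (E := E) P m) (β : (x : P) → TangentSpace 𝓘(ℝ, E) x →L[ℝ] ℝ) (i : Fin m)
    (x : P) : ℝ := β x (fr ι i x)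

lemma smooth_fF (ι : Imm (E := E) P m) {β : (x : P) → TangentSpace 𝓘(ℝ, E) x →L[ℝ] ℝ}
    (hβ : SmoothForm β) (i : Fin m) : ContMDiff 𝓘(ℝ, E) 𝓘(ℝ, ℝ) ∞ (fF ι β i) :=
  fun x => hβ.comp (smooth_fr ι i x) le_rfl

lemma rep_fF (ι : Imm (E := E) P m) (β : (x : P) → TangentSpace 𝓘(ℝ, E) x →L[ℝ] ℝ) (x : P)
    (v : TangentSpace 𝓘(ℝ, E) x) :
    β x v = ∑ i, fF ι β i x * dForm 𝓘(ℝ, E) (gc ι i) x v := form_frame ι β x v

lemma gv_eq (ι : Imm (E := E) P m) :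
    gv ι = (EuclideanSpace.equiv (Fin m) ℝ : EuclideanSpace ℝ (Fin m) →L[ℝ] (Fin m → ℝ)) ∘ ι.F := by
  ext x i
  rfl

lemma smooth_gv (ι : Imm (E := E) P m) : ContMDiff 𝓘(ℝ, E) 𝓘(ℝ, Fin m → ℝ) ∞ (gv ι) := by
  rw [gv_eq]
  exact (EuclideanSpace.equiv (Fin m) ℝ :
    EuclideanSpace ℝ (Fin m) →L[ℝ] (Fin m → ℝ)).contMDiff.comp ι.smooth

lemma dv_gv (ι : Imm (E := E) P m) (x : P) (w : E) :
    dv E (gv ι) x w = fun i => co ι x (w : TangentSpace 𝓘(ℝ, E) x) i := by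
  have h1 := HasMFDerivAt.comp x
    (g := (EuclideanSpace.equiv (Fin m) ℝ : EuclideanSpace ℝ (Fin m) →L[ℝ] (Fin m → ℝ)))
    (f := ι.F) (EuclideanSpace.equiv (Fin m) ℝ :
      EuclideanSpace ℝ (Fin m) →L[ℝ] (Fin m → ℝ)).hasMFDerivAt
    (ι.smooth.mdifferentiableAt (x := x) (by simp)).hasMFDerivAt
  rw [← gv_eq] at h1
  have h2 := h1.mfderiv
  have h3 : dv E (gv ι) x w = (EuclideanSpace.equiv (Fin m) ℝ) (ι.D x w) := by
    have := DFunLike.congr_fun h2 w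
    exact this
  rw [h3]
  ext i
  rw [co_eq]
  rfl

lemma dv_gv_inj (ι : Imm (E := E) P m) (x : P) :
    Function.Injective (mfderiv 𝓘(ℝ, E) 𝓘(ℝ, Fin m → ℝ) (gv ι) x) := by
  intro u w h
  have h1 := dv_gv ι x u
  have h2 := dv_gv ι x w
  have h3 : ι.D x u = ι.D x w := by
    ext i
    rw [← co_eq, ← co_eq]
    have h4 : (fun i => co ι x u i) = (fun i => co ι x w i) := h1.symm.trans (h.trans h2)
    exact congrFun h4 i
  exact ι.inj x h3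

/-- the derivative in a chart in terms of the frame -/
lemma fderiv_cf_frame (ι : Imm (E := E) P m) (x₀ : P) {u : P → ℝ}
    (hu : ContMDiff 𝓘(ℝ, E) 𝓘(ℝ, ℝ) ∞ u) {p : E} (hp : p ∈ (extChartAt 𝓘(ℝ, E) x₀).target) :
    fderiv ℝ (cf x₀ u) p = ∑ l, cf x₀ (dl ι l u) p • fderiv ℝ (cf x₀ (gc ι l)) p := by
  refine ContinuousLinearMap.ext fun v => ?_
  rw [fderiv_cf x₀ hu hp, sum_apply]
  refine (dForm_frame ι u ((extChartAt 𝓘(ℝ, E) x₀).symm p) (ds x₀ p v)).trans ?_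
  refine Finset.sum_congr rfl fun l _ => ?_
  rw [smul_apply, smul_eq_mul, fderiv_cf x₀ (smooth_gc ι l) hp, mul_comm]
  rfl

/-- `C¹` convergence of functions -/
structure CF (ι : Imm (E := E) P m) (u : ℕ → P → ℝ) (u₀ : P → ℝ) : Prop where
  sm : ∀ k, ContMDiff 𝓘(ℝ, E) 𝓘(ℝ, ℝ) ∞ (u k)
  sm₀ : ContMDiff 𝓘(ℝ, E) 𝓘(ℝ, ℝ) ∞ u₀
  a : UC u u₀
  b : ∀ l, UC (fun k => dl ι l (u k)) (dl ι l u₀)

lemma smooth_dl (ι : Imm (E := E) P m) (l : Fin m) {u : P → ℝ}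
    (hu : ContMDiff 𝓘(ℝ, E) 𝓘(ℝ, ℝ) ∞ u) : ContMDiff 𝓘(ℝ, E) 𝓘(ℝ, ℝ) ∞ (dl ι l u) :=
  fun x => (smoothForm_dForm hu).comp (smooth_fr ι l x) le_rfl

lemma UC.tendsto {u : ℕ → P → ℝ} {u₀ : P → ℝ} (h : UC u u₀) (hc : Continuous u₀)
    {l : Filter ℕ} (hl : l ≤ atTop) {x : ℕ → P} {x₀ : P} (hx : Tendsto x l (𝓝 x₀)) :
    Tendsto (fun k => u k (x k)) l (𝓝 (u₀ x₀)) := by
  have h1 : Tendsto (fun k => u₀ (x k)) l (𝓝 (u₀ x₀)) := (hc.tendsto x₀).comp hx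
  have h2 : Tendsto (fun k => u k (x k) - u₀ (x k)) l (𝓝 0) := by
    refine Metric.tendsto_nhds.2 fun ε hε => ?_
    filter_upwards [(h ε hε).filter_mono hl] with k hk
    rw [dist_zero_right, Real.norm_eq_abs]
    exact hk _
  have h3 := h2.add h1
  simpa using h3

variable {ι : Imm (E := E) P m} {u : ℕ → P → ℝ} {u₀ : P → ℝ}

lemma CF.deriv (h : CF ι u u₀) {l : Filter ℕ} (hl : l ≤ atTop) {x : ℕ → P} {x₀ : P}
    (hx : Tendsto x l (𝓝 x₀)) :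
    Tendsto (fun k => fderiv ℝ (cf x₀ (u k)) (extChartAt 𝓘(ℝ, E) x₀ (x k))) l
      (𝓝 (fderiv ℝ (cf x₀ u₀) (extChartAt 𝓘(ℝ, E) x₀ x₀))) := by
  have hx₀t := mem_extChartAt_target (I := 𝓘(ℝ, E)) x₀
  have hxs := hx.eventually (extChartAt_source_mem_nhds (I := 𝓘(ℝ, E)) x₀)
  have hp : Tendsto (fun k => extChartAt 𝓘(ℝ, E) x₀ (x k)) l (𝓝 (extChartAt 𝓘(ℝ, E) x₀ x₀)) :=
    (continuousAt_extChartAt x₀).tendsto.comp hx
  rw [fderiv_cf_frame ι x₀ h.sm₀ hx₀t]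
  have h1 : Tendsto (fun k => ∑ i, dl ι i (u k) (x k) •
      fderiv ℝ (cf x₀ (gc ι i)) (extChartAt 𝓘(ℝ, E) x₀ (x k))) l
      (𝓝 (∑ i, dl ι i u₀ x₀ • fderiv ℝ (cf x₀ (gc ι i)) (extChartAt 𝓘(ℝ, E) x₀ x₀))) := by
    refine tendsto_finsetSum _ fun i _ => ?_
    have h2 := (h.b i).tendsto (smooth_dl ι i h.sm₀).continuous hl hx
    have h3 : ContinuousAt (fderiv ℝ (cf x₀ (gc ι i))) (extChartAt 𝓘(ℝ, E) x₀ x₀) :=
      ((cf_smooth x₀ (smooth_gc ι i) hx₀t).fderiv_right (m := 0) (by simp)).continuousAt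
    exact h2.smul (h3.tendsto.comp hp)
  have h4 : ∀ i, cf x₀ (dl ι i u₀) (extChartAt 𝓘(ℝ, E) x₀ x₀) = dl ι i u₀ x₀ := by
    intro i
    unfold cf
    rw [extChartAt_to_inv]
  simp only [h4]
  refine h1.congr' ?_
  filter_upwards [hxs] with k hk
  rw [fderiv_cf_frame ι x₀ (h.sm k) ((extChartAt 𝓘(ℝ, E) x₀).map_source hk)]
  refine Finset.sum_congr rfl fun i _ => ?_
  have : cf x₀ (dl ι i (u k)) (extChartAt 𝓘(ℝ, E) x₀ (x k)) = dl ι i (u k) (x k) := by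
    unfold cf
    rw [(extChartAt 𝓘(ℝ, E) x₀).left_inv hk]
  rw [this]

/-- difference quotients -/
lemma CF.quot (h : CF ι u u₀) {l : Filter ℕ} (hl : l ≤ atTop) {x y : ℕ → P} {x₀ : P}
    (hx : Tendsto x l (𝓝 x₀)) (hy : Tendsto y l (𝓝 x₀)) {z : E}
    (hz : Tendsto (fun k => ‖extChartAt 𝓘(ℝ, E) x₀ (y k) - extChartAt 𝓘(ℝ, E) x₀ (x k)‖⁻¹ •
      (extChartAt 𝓘(ℝ, E) x₀ (y k) - extChartAt 𝓘(ℝ, E) x₀ (x k))) l (𝓝 z)) :
    Tendsto (fun k => (u k (y k) - u k (x k)) *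
      ‖extChartAt 𝓘(ℝ, E) x₀ (y k) - extChartAt 𝓘(ℝ, E) x₀ (x k)‖⁻¹) l
      (𝓝 (fderiv ℝ (cf x₀ u₀) (extChartAt 𝓘(ℝ, E) x₀ x₀) z)) := by
  have hx₀t := mem_extChartAt_target (I := 𝓘(ℝ, E)) x₀
  have hxs := hx.eventually (extChartAt_source_mem_nhds (I := 𝓘(ℝ, E)) x₀)
  have hys := hy.eventually (extChartAt_source_mem_nhds (I := 𝓘(ℝ, E)) x₀)
  have hp : Tendsto (fun k => extChartAt 𝓘(ℝ, E) x₀ (x k)) l (𝓝 (extChartAt 𝓘(ℝ, E) x₀ x₀)) :=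
    (continuousAt_extChartAt x₀).tendsto.comp hx
  have hq : Tendsto (fun k => extChartAt 𝓘(ℝ, E) x₀ (y k)) l (𝓝 (extChartAt 𝓘(ℝ, E) x₀ x₀)) :=
    (continuousAt_extChartAt x₀).tendsto.comp hy
  set ψ := extChartAt 𝓘(ℝ, E) x₀ with hψ
  have h1 : Tendsto (fun k => (u₀ (y k) - u₀ (x k)) * ‖ψ (y k) - ψ (x k)‖⁻¹) l
      (𝓝 (fderiv ℝ (cf x₀ u₀) (ψ x₀) z)) := by
    refine (tendsto_quot ((cf_smooth x₀ h.sm₀ hx₀t).hasStrictFDerivAt (by simp)) hp hq hz).congr' ?_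
    filter_upwards [hxs, hys] with k h1 h2
    unfold cf
    rw [ψ.left_inv h1, ψ.left_inv h2]
  -- a ball on which the derivatives of the coordinates are bounded
  have hbd : ∀ i, ∃ C > 0, ∀ᶠ p in 𝓝 (ψ x₀), ‖fderiv ℝ (cf x₀ (gc ι i)) p‖ ≤ C := by
    intro i
    have h3 : ContinuousAt (fderiv ℝ (cf x₀ (gc ι i))) (ψ x₀) :=
      ((cf_smooth x₀ (smooth_gc ι i) hx₀t).fderiv_right (m := 0) (by simp)).continuousAt
    refine ⟨‖fderiv ℝ (cf x₀ (gc ι i)) (ψ x₀)‖ + 1, by positivity, ?_⟩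
    exact (h3.norm.eventually (gt_mem_nhds (lt_add_one _))).mono fun p hp => le_of_lt hp
  choose C hC0 hC using hbd
  obtain ⟨r, hr, hball⟩ := Metric.mem_nhds_iff.1
    ((eventually_all.2 hC).and ((isOpen_extChartAt_target x₀).mem_nhds hx₀t))
  set C₁ : ℝ := (∑ i, C i) + 1 with hC₁
  have hCs : 0 ≤ ∑ i, C i := Finset.sum_nonneg fun i _ => (hC0 i).le
  have hC₁0 : 0 < C₁ := by linarith
  have h2 : Tendsto (fun k => ((u k (y k) - u₀ (y k)) - (u k (x k) - u₀ (x k))) *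
      ‖ψ (y k) - ψ (x k)‖⁻¹) l (𝓝 0) := by
    refine Metric.tendsto_nhds.2 fun ε hε => ?_
    have hη : 0 < ε / (2 * C₁) := by positivity
    have hb' : ∀ᶠ k in atTop, ∀ i z, |dl ι i (u k) z - dl ι i u₀ z| < ε / (2 * C₁) :=
      eventually_all.2 fun i => h.b i _ hη
    filter_upwards [hb'.filter_mono hl, hxs, hys, hp.eventually (ball_mem_nhds _ hr),
      hq.eventually (ball_mem_nhds _ hr)] with k hk h1 h2 hpk hqk
    rw [dist_zero_right, norm_mul, norm_inv, norm_norm]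
    have hmv : ‖(cf x₀ (u k) (ψ (y k)) - cf x₀ u₀ (ψ (y k))) -
        (cf x₀ (u k) (ψ (x k)) - cf x₀ u₀ (ψ (x k)))‖ ≤ ε / 2 * ‖ψ (y k) - ψ (x k)‖ := by
      refine Convex.norm_image_sub_le_of_norm_hasFDerivWithin_le
        (f := fun p => cf x₀ (u k) p - cf x₀ u₀ p)
        (f' := fun p => fderiv ℝ (cf x₀ (u k)) p - fderiv ℝ (cf x₀ u₀) p) (s := ball (ψ x₀) r)
        (fun p hp => ?_) (fun p hp => ?_) (convex_ball _ _) hpk hqk
      · have ht : p ∈ ψ.target := (hball hp).2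
        exact (((cf_smooth x₀ (h.sm k) ht).differentiableAt (by simp)).hasFDerivAt.sub
          ((cf_smooth x₀ h.sm₀ ht).differentiableAt (by simp)).hasFDerivAt).hasFDerivWithinAt
      · have ht : p ∈ ψ.target := (hball hp).2
        have hCp := (hball hp).1
        rw [fderiv_cf_frame ι x₀ (h.sm k) ht, fderiv_cf_frame ι x₀ h.sm₀ ht,
          ← Finset.sum_sub_distrib]
        calc ‖∑ i, (cf x₀ (dl ι i (u k)) p • fderiv ℝ (cf x₀ (gc ι i)) p -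
              cf x₀ (dl ι i u₀) p • fderiv ℝ (cf x₀ (gc ι i)) p)‖
            ≤ ∑ i, ‖cf x₀ (dl ι i (u k)) p • fderiv ℝ (cf x₀ (gc ι i)) p -
              cf x₀ (dl ι i u₀) p • fderiv ℝ (cf x₀ (gc ι i)) p‖ := norm_sum_le _ _
          _ ≤ ∑ i, ε / (2 * C₁) * C i := by
              refine Finset.sum_le_sum fun i _ => ?_
              rw [← sub_smul, norm_smul]
              exact mul_le_mul (hk i _).le (hCp i) (norm_nonneg _) hη.le
          _ = ε / (2 * C₁) * ∑ i, C i := by rw [Finset.mul_sum]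
          _ ≤ ε / (2 * C₁) * C₁ := mul_le_mul_of_nonneg_left (by linarith) hη.le
          _ = ε / 2 := by field_simp
    have e1 : ∀ v : P → ℝ, cf x₀ v (ψ (y k)) = v (y k) := fun v => by
      unfold cf; rw [ψ.left_inv h2]
    have e2 : ∀ v : P → ℝ, cf x₀ v (ψ (x k)) = v (x k) := fun v => by
      unfold cf; rw [ψ.left_inv h1]
    simp only [e1, e2] at hmv
    rcases eq_or_ne (ψ (y k) - ψ (x k)) 0 with h0 | h0
    · rw [h0, norm_zero, inv_zero, mul_zero]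
      exact hε
    · have h00 : 0 < ‖ψ (y k) - ψ (x k)‖ := norm_pos_iff.2 h0
      rw [← div_eq_mul_inv, div_lt_iff₀ h00]
      refine lt_of_le_of_lt hmv ?_
      exact mul_lt_mul_of_pos_right (by linarith) h00
  have h3 := h2.add h1
  rw [zero_add] at h3
  refine h3.congr fun k => ?_
  ring

end Pool.Agent.J4H20.ST
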