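import Mathlib
import Pool.Agent.J4H20.ST.St5

/-! The limiting contradiction for a sequence of Reeb flows. -/

open scoped Topology ContDiff Manifold
open Set Metric Bundle Filter Pool.Agent.Helper186 Pool.Agent.H826R2.Wein Pool.Agent.W671.WU

noncomputable section

namespace Pool.Agent.J4H20.ST

set_option linter.unusedSectionVars false

universe u

variable {E : Type u} [NormedAddCommGroup E] [NormedSpace ℝ E] [FiniteDimensional ℝ E]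
  {P : Type*} [TopologicalSpace P] [ChartedSpace E P] [IsManifold 𝓘(ℝ, E) ∞ P]
  {F : Type*} [NormedAddCommGroup F] [NormedSpace ℝ F] {m : ℕ}

/-- a convergent sequence of contact forms and Reeb fields, with the Reeb flows -/
structure SQ (ι : Imm (E := E) P m) (β : (x : P) → TangentSpace 𝓘(ℝ, E) x →L[ℝ] ℝ)
    (R : (x : P) → TangentSpace 𝓘(ℝ, E) x)
    (βk : ℕ → (x : P) → TangentSpace 𝓘(ℝ, E) x →L[ℝ] ℝ)
    (Rk : ℕ → (x : P) → TangentSpace 𝓘(ℝ, E) x) (Flk : ℕ → P → ℝ → P) : Prop where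
  c : CD β R
  ck : ∀ k, CD (βk k) (Rk k)
  fl : ∀ k, RF (βk k) (Rk k) (Flk k)
  f : ∀ i, CF ι (fun k => fF ι (βk k) i) (fF ι β i)
  r : CV ι R Rk

variable {ι : Imm (E := E) P m} {β : (x : P) → TangentSpace 𝓘(ℝ, E) x →L[ℝ] ℝ}
    {R : (x : P) → TangentSpace 𝓘(ℝ, E) x}
    {βk : ℕ → (x : P) → TangentSpace 𝓘(ℝ, E) x →L[ℝ] ℝ}
    {Rk : ℕ → (x : P) → TangentSpace 𝓘(ℝ, E) x} {Flk : ℕ → P → ℝ → P}

lemma SQ.fd (h : SQ ι β R βk Rk Flk) (k : ℕ) : FD (Rk k) (Flk k) :=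
  ⟨smooth_reeb (h.ck k), (h.fl k).zero, (h.fl k).int⟩

lemma ds_self (x₀ : P) (v : E) :
    (ds x₀ (extChartAt 𝓘(ℝ, E) x₀ x₀) v : E) = v := mfderiv_extChartAt_symm_self x₀ v

/-- the Reeb fields converge in the chart -/
lemma SQ.rho (h : SQ ι β R βk Rk Flk) {l : Filter ℕ} (hl : l ≤ atTop) {x : ℕ → P} {x₀ : P}
    (hx : Tendsto x l (𝓝 x₀)) :
    Tendsto (fun k => RF.Rc (Flk k) x₀ (extChartAt 𝓘(ℝ, E) x₀ (x k))) l (𝓝 (R x₀ : E)) := by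
  have hx₀t := mem_extChartAt_target (I := 𝓘(ℝ, E)) x₀
  have hxs := hx.eventually (extChartAt_source_mem_nhds (I := 𝓘(ℝ, E)) x₀)
  have hp : Tendsto (fun k => extChartAt 𝓘(ℝ, E) x₀ (x k)) l (𝓝 (extChartAt 𝓘(ℝ, E) x₀ x₀)) :=
    (continuousAt_extChartAt x₀).tendsto.comp hx
  have hJc : ContinuousAt (fun p => fderiv ℝ (cf x₀ (gv ι)) p) (extChartAt 𝓘(ℝ, E) x₀ x₀) :=
    ((cf_smooth x₀ (smooth_gv ι) hx₀t).fderiv_right (m := 0) (by simp)).continuousAt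
  have hJi : Function.Injective (fderiv ℝ (cf x₀ (gv ι)) (extChartAt 𝓘(ℝ, E) x₀ x₀)) := by
    intro u w huw
    apply dv_gv_inj ι x₀
    exact (fderiv_cf_self x₀ (smooth_gv ι) u).symm.trans
      (huw.trans (fderiv_cf_self x₀ (smooth_gv ι) w))
  refine inj_limit hJi (hJc.tendsto.comp hp) ?_
  have e1 : fderiv ℝ (cf x₀ (gv ι)) (extChartAt 𝓘(ℝ, E) x₀ x₀) (R x₀) =
      fun i => ac ι R i x₀ := by
    rw [fderiv_cf_self x₀ (smooth_gv ι)]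
    exact dv_gv ι x₀ (R x₀)
  rw [e1]
  have h1 : Tendsto (fun k => (fun i => ac ι (Rk k) i (x k) : Fin m → ℝ)) l
      (𝓝 (fun i => ac ι R i x₀)) := by
    rw [tendsto_pi_nhds]
    intro i
    exact (h.r.a i).tendsto (smooth_ac ι (smooth_reeb h.c) i).continuous hl hx
  refine h1.congr' ?_
  filter_upwards [hxs] with k hk
  have hkt := (extChartAt 𝓘(ℝ, E) x₀).map_source hk
  symm
  show fderiv ℝ (cf x₀ (gv ι)) (extChartAt 𝓘(ℝ, E) x₀ (x k)) _ = _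
  rw [fderiv_cf x₀ (smooth_gv ι) hkt]
  have e2 := (h.fl k).tangent_Rc x₀ hkt
  have e3 : (mfderiv 𝓘(ℝ, E) 𝓘(ℝ, Fin m → ℝ) (gv ι)
      ((extChartAt 𝓘(ℝ, E) x₀).symm (extChartAt 𝓘(ℝ, E) x₀ (x k)))
      (ds x₀ (extChartAt 𝓘(ℝ, E) x₀ (x k))
        (RF.Rc (Flk k) x₀ (extChartAt 𝓘(ℝ, E) x₀ (x k)))) : Fin m → ℝ) =
      dv E (gv ι) ((extChartAt 𝓘(ℝ, E) x₀).symm (extChartAt 𝓘(ℝ, E) x₀ (x k)))
        (ds x₀ (extChartAt 𝓘(ℝ, E) x₀ (x k))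
        (RF.Rc (Flk k) x₀ (extChartAt 𝓘(ℝ, E) x₀ (x k)))) := rfl
  refine e3.trans ?_
  rw [e2, (extChartAt 𝓘(ℝ, E) x₀).left_inv hk, dv_gv]
  rfl

/-- short time maps have differentials close to the identity -/
lemma SQ.short [T2Space P] [CompactSpace P] (h : SQ ι β R βk Rk Flk) {l : Filter ℕ}
    (hl : l ≤ atTop) {y y' : ℕ → P} {s : ℕ → ℝ} {x₀ : P}
    (hy : Tendsto y l (𝓝 x₀)) (hy' : Tendsto y' l (𝓝 x₀)) (hs : Tendsto s l (𝓝 0))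
    (hyk : ∀ k, y k = Flk k (y' k) (s k)) :
    Tendsto (fun k => fderiv ℝ (ch x₀ (fun z => Flk k z (s k)))
      (extChartAt 𝓘(ℝ, E) x₀ (y' k))) l (𝓝 (ContinuousLinearMap.id ℝ E)) := by
  have hx₀t := mem_extChartAt_target (I := 𝓘(ℝ, E)) x₀
  have hys := hy.eventually (extChartAt_source_mem_nhds (I := 𝓘(ℝ, E)) x₀)
  have hys' := hy'.eventually (extChartAt_source_mem_nhds (I := 𝓘(ℝ, E)) x₀)
  have hp : Tendsto (fun k => extChartAt 𝓘(ℝ, E) x₀ (y k)) l (𝓝 (extChartAt 𝓘(ℝ, E) x₀ x₀)) :=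
    (continuousAt_extChartAt x₀).tendsto.comp hy
  have hp' : Tendsto (fun k => extChartAt 𝓘(ℝ, E) x₀ (y' k)) l
      (𝓝 (extChartAt 𝓘(ℝ, E) x₀ x₀)) := (continuousAt_extChartAt x₀).tendsto.comp hy'
  have hJc : ContinuousAt (fun p => fderiv ℝ (cf x₀ (gv ι)) p) (extChartAt 𝓘(ℝ, E) x₀ x₀) :=
    ((cf_smooth x₀ (smooth_gv ι) hx₀t).fderiv_right (m := 0) (by simp)).continuousAt
  have hJi : Function.Injective (fderiv ℝ (cf x₀ (gv ι)) (extChartAt 𝓘(ℝ, E) x₀ x₀)) := by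
    intro u w huw
    apply dv_gv_inj ι x₀
    exact (fderiv_cf_self x₀ (smooth_gv ι) u).symm.trans
      (huw.trans (fderiv_cf_self x₀ (smooth_gv ι) w))
  obtain ⟨b, hb0, -, -, -, hbk⟩ := h.r.bound (smooth_reeb h.c)
  have hε : Tendsto (fun k => Real.exp ((m * b + 1) * |s k|) - 1) l (𝓝 0) := by
    have h1 : Tendsto (fun k => (m * b + 1) * |s k|) l (𝓝 ((m * b + 1) * |(0:ℝ)|)) :=
      hs.abs.const_mul _
    rw [abs_zero, mul_zero] at h1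
    have h2 := ((Real.continuous_exp.tendsto 0).comp h1).sub_const 1
    simpa using h2
  refine inj_limit_op hJi (hJc.tendsto.comp hp') (hJc.tendsto.comp hp) hε (fun k => ?_) ?_
  · have : 1 ≤ Real.exp ((m * b + 1) * |s k|) := Real.one_le_exp (by positivity)
    linarith
  filter_upwards [hys, hys', hbk.filter_mono hl] with k h1 h2 h3 v
  have h2t := (extChartAt 𝓘(ℝ, E) x₀).map_source h2
  have hsrc : (fun z => Flk k z (s k)) ((extChartAt 𝓘(ℝ, E) x₀).symm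
      (extChartAt 𝓘(ℝ, E) x₀ (y' k))) ∈ (extChartAt 𝓘(ℝ, E) x₀).source := by
    show Flk k ((extChartAt 𝓘(ℝ, E) x₀).symm (extChartAt 𝓘(ℝ, E) x₀ (y' k))) (s k) ∈ _
    rw [(extChartAt 𝓘(ℝ, E) x₀).left_inv h2, ← hyk]
    exact h1
  have hch : ch x₀ (fun z => Flk k z (s k)) (extChartAt 𝓘(ℝ, E) x₀ (y' k)) =
      extChartAt 𝓘(ℝ, E) x₀ (y k) := by
    show extChartAt 𝓘(ℝ, E) x₀ (Flk k ((extChartAt 𝓘(ℝ, E) x₀).symm
      (extChartAt 𝓘(ℝ, E) x₀ (y' k))) (s k)) = _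
    rw [(extChartAt 𝓘(ℝ, E) x₀).left_inv h2, ← hyk]
  have e1 := fderiv_cf_ch x₀ (smooth_gv ι) ((h.fl k).smooth_t (s k)) h2t hsrc v
  have e2 := fderiv_cf x₀ (smooth_gv ι) h2t v
  rw [hch] at e1
  have key : ∀ (z : P) (w : E), z = y' k →
      ‖(dv E (gv ι) (Flk k z (s k)) (dm E (fun y => Flk k y (s k)) z w) : Fin m → ℝ) -
        dv E (gv ι) z w‖ ≤ (Real.exp ((m * b + 1) * |s k|) - 1) * ‖dv E (gv ι) z w‖ := by
    rintro z w rfl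
    rw [dv_gv, dv_gv]
    have h4 := uc_growth ι (h.fd k) hb0.le h3 (y' k) w (s k)
    rw [uc_zero ι (h.fd k)] at h4
    exact h4
  have h5 := key _ (ds x₀ (extChartAt 𝓘(ℝ, E) x₀ (y' k)) v)
    ((extChartAt 𝓘(ℝ, E) x₀).left_inv h2)
  show ‖fderiv ℝ (cf x₀ (gv ι)) (extChartAt 𝓘(ℝ, E) x₀ (y k)) _ -
    fderiv ℝ (cf x₀ (gv ι)) (extChartAt 𝓘(ℝ, E) x₀ (y' k)) v‖ ≤ _ *
    ‖fderiv ℝ (cf x₀ (gv ι)) (extChartAt 𝓘(ℝ, E) x₀ (y' k)) v‖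
  rw [e1, e2]
  exact h5

/-- the forms converge in the chart -/
lemma SQ.form (h : SQ ι β R βk Rk Flk) {l : Filter ℕ} (hl : l ≤ atTop) {x : ℕ → P} {x₀ : P}
    (hx : Tendsto x l (𝓝 x₀)) :
    Tendsto (fun k => chartForm 𝓘(ℝ, E) (βk k) x₀ (extChartAt 𝓘(ℝ, E) x₀ (x k))) l
      (𝓝 (chartForm 𝓘(ℝ, E) β x₀ (extChartAt 𝓘(ℝ, E) x₀ x₀))) := by
  have hx₀t := mem_extChartAt_target (I := 𝓘(ℝ, E)) x₀
  have hxs := hx.eventually (extChartAt_source_mem_nhds (I := 𝓘(ℝ, E)) x₀)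
  have hp : Tendsto (fun k => extChartAt 𝓘(ℝ, E) x₀ (x k)) l (𝓝 (extChartAt 𝓘(ℝ, E) x₀ x₀)) :=
    (continuousAt_extChartAt x₀).tendsto.comp hx
  have e0 : ∀ (b : (x : P) → TangentSpace 𝓘(ℝ, E) x →L[ℝ] ℝ) (p : E),
      p ∈ (extChartAt 𝓘(ℝ, E) x₀).target →
      chartForm 𝓘(ℝ, E) b x₀ p = ∑ i, cf x₀ (fF ι b i) p • fderiv ℝ (cf x₀ (gc ι i)) p := by
    intro b p hp
    refine ContinuousLinearMap.ext fun v => ?_
    rw [chartForm_rep (fun i => smooth_gc ι i) (rep_fF ι b) x₀ hp v, sum_apply]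
    rfl
  rw [e0 β _ hx₀t]
  have h1 : Tendsto (fun k => ∑ i, fF ι (βk k) i (x k) •
      fderiv ℝ (cf x₀ (gc ι i)) (extChartAt 𝓘(ℝ, E) x₀ (x k))) l
      (𝓝 (∑ i, fF ι β i x₀ • fderiv ℝ (cf x₀ (gc ι i)) (extChartAt 𝓘(ℝ, E) x₀ x₀))) := by
    refine tendsto_finsetSum _ fun i _ => ?_
    have h2 := (h.f i).a.tendsto (h.f i).sm₀.continuous hl hx
    have h3 : ContinuousAt (fderiv ℝ (cf x₀ (gc ι i))) (extChartAt 𝓘(ℝ, E) x₀ x₀) :=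
      ((cf_smooth x₀ (smooth_gc ι i) hx₀t).fderiv_right (m := 0) (by simp)).continuousAt
    exact h2.smul (h3.tendsto.comp hp)
  have h4 : ∀ i, cf x₀ (fF ι β i) (extChartAt 𝓘(ℝ, E) x₀ x₀) = fF ι β i x₀ := by
    intro i
    unfold cf
    rw [extChartAt_to_inv]
  simp only [h4]
  refine h1.congr' ?_
  filter_upwards [hxs] with k hk
  rw [e0 (βk k) _ ((extChartAt 𝓘(ℝ, E) x₀).map_source hk)]
  refine Finset.sum_congr rfl fun i _ => ?_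
  have : cf x₀ (fF ι (βk k) i) (extChartAt 𝓘(ℝ, E) x₀ (x k)) = fF ι (βk k) i (x k) := by
    unfold cf
    rw [(extChartAt 𝓘(ℝ, E) x₀).left_inv hk]
  rw [this]

end Pool.Agent.J4H20.ST
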