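import Mathlib
import Pool.Agent.J4H20.ST.St6

/-! The limiting contradiction for a sequence of Reeb flows. -/

open scoped Topology ContDiff Manifold
open Set Metric Bundle Filter Pool.Agent.Helper186 Pool.Agent.H826R2.Wein Pool.Agent.W671.WU

noncomputable section

namespace Pool.Agent.J4H20.ST

set_option linter.unusedSectionVars false

universe u

variable {E : Type u} [NormedAddCommGroup E] [NormedSpace ℝ E] [FiniteDimensional ℝ E]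
  {P : Type*} [TopologicalSpace P] [ChartedSpace E P] [IsManifold 𝓘(ℝ, E) ∞ P]
  {F : Type*} [NormedAddCommGroup F] [NormedSpace ℝ F] {m : ℕ}
  {ι : Imm (E := E) P m} {β : (x : P) → TangentSpace 𝓘(ℝ, E) x →L[ℝ] ℝ}
    {R : (x : P) → TangentSpace 𝓘(ℝ, E) x}
    {βk : ℕ → (x : P) → TangentSpace 𝓘(ℝ, E) x →L[ℝ] ℝ}
    {Rk : ℕ → (x : P) → TangentSpace 𝓘(ℝ, E) x} {Flk : ℕ → P → ℝ → P}

lemma CF.const (u : P → ℝ) (hu : ContMDiff 𝓘(ℝ, E) 𝓘(ℝ, ℝ) ∞ u) : CF ι (fun _ => u) u where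
  sm := fun _ => hu
  sm₀ := hu
  a := fun ε hε => Eventually.of_forall fun _ x => by simpa using hε
  b := fun l ε hε => Eventually.of_forall fun _ x => by simpa using hε

/-- the limiting contradiction -/
theorem no_limit_flow' [T2Space P] [CompactSpace P] (h : SQ ι β R βk Rk Flk)
    {e : P → F} (he : ContMDiff 𝓘(ℝ, E) 𝓘(ℝ, F) ∞ e)
    (himm : ∀ x, Function.Injective (mfderiv 𝓘(ℝ, E) 𝓘(ℝ, F) e x))
    (l : Ultrafilter ℕ) (hl : (l : Filter ℕ) ≤ atTop) {x y y' : ℕ → P} {t τ s : ℕ → ℝ} {x₀ : P}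
    (hx₀ : Tendsto x l (𝓝 x₀)) (hy₀ : Tendsto y' l (𝓝 x₀)) (hy0 : Tendsto y l (𝓝 x₀))
    (hs0 : Tendsto s l (𝓝 0)) (ht : ∀ k, τ k + s k = t k)
    (hy' : ∀ k, y' k = Flk k (x k) (τ k)) (hy : ∀ k, y k = Flk k (x k) (t k))
    (hyk : ∀ k, y k = Flk k (y' k) (s k))
    (hne : ∀ᶠ k in (l : Filter ℕ), y k ≠ x k)
    (hS : ∀ᶠ k in (l : Filter ℕ), S (fF ι (βk k)) (gc ι) (x k) (y k) = 0)
    (hcr : ∀ᶠ k in (l : Filter ℕ), ∀ γ : ℝ → P, ContinuousAt γ 0 → γ 0 = x k → ∀ d : ℝ,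
        HasDerivAt (fun r => S (fF ι (βk k)) (gc ι) (γ r) (Flk k (γ r) (t k))) d 0 → d = 0)
    {C : ℝ}
    (hmod : ∀ᶠ k in (l : Filter ℕ), ∃ lam : E →L[ℝ] ℝ, ∀ (v : E),
      ‖dv E e (y' k) (dm E (fun y => Flk k y (τ k)) (x k) v) +
        lam v • dv E e (y' k) (Rk k (y' k))‖ ≤ C * ‖dv E e (x k) v‖ ∧
      ‖dv E e (x k) v‖ ≤ C * ‖dv E e (y' k) (dm E (fun y => Flk k y (τ k)) (x k) v) +
        lam v • dv E e (y' k) (Rk k (y' k)) + dv E e (x k) v‖) : False := by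
  -- the chart
  have hsrc : (extChartAt 𝓘(ℝ, E) x₀).source ∈ 𝓝 x₀ := extChartAt_source_mem_nhds x₀
  have hx₀t : extChartAt 𝓘(ℝ, E) x₀ x₀ ∈ (extChartAt 𝓘(ℝ, E) x₀).target := mem_extChartAt_target x₀
  have hxs : ∀ᶠ k in (l : Filter ℕ), x k ∈ (extChartAt 𝓘(ℝ, E) x₀).source := hx₀.eventually hsrc
  have hys : ∀ᶠ k in (l : Filter ℕ), y k ∈ (extChartAt 𝓘(ℝ, E) x₀).source := hy0.eventually hsrc
  have hys' : ∀ᶠ k in (l : Filter ℕ), y' k ∈ (extChartAt 𝓘(ℝ, E) x₀).source :=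
    hy₀.eventually hsrc
  have hp : Tendsto (fun k => extChartAt 𝓘(ℝ, E) x₀ (x k)) l (𝓝 (extChartAt 𝓘(ℝ, E) x₀ x₀)) :=
    (continuousAt_extChartAt x₀).tendsto.comp hx₀
  have hq' : Tendsto (fun k => extChartAt 𝓘(ℝ, E) x₀ (y' k)) l (𝓝 (extChartAt 𝓘(ℝ, E) x₀ x₀)) :=
    (continuousAt_extChartAt x₀).tendsto.comp hy₀
  have hcht : ∀ k, x k ∈ (extChartAt 𝓘(ℝ, E) x₀).source → ∀ t,
      ch x₀ (fun z => Flk k z t) (extChartAt 𝓘(ℝ, E) x₀ (x k)) =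
        extChartAt 𝓘(ℝ, E) x₀ (Flk k (x k) t) := by
    intro k hk t
    show extChartAt 𝓘(ℝ, E) x₀ (Flk k ((extChartAt 𝓘(ℝ, E) x₀).symm
      (extChartAt 𝓘(ℝ, E) x₀ (x k))) t) = _
    rw [(extChartAt 𝓘(ℝ, E) x₀).left_inv hk]
  have hnd : ∀ z : E, chartForm 𝓘(ℝ, E) β x₀ (extChartAt 𝓘(ℝ, E) x₀ x₀) z = 0 →
      (∀ w : E, (∑ i, (fderiv ℝ (cf x₀ (fF ι β i)) (extChartAt 𝓘(ℝ, E) x₀ x₀) w *
        fderiv ℝ (cf x₀ (gc ι i)) (extChartAt 𝓘(ℝ, E) x₀ x₀) z -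
        fderiv ℝ (cf x₀ (fF ι β i)) (extChartAt 𝓘(ℝ, E) x₀ x₀) z *
        fderiv ℝ (cf x₀ (gc ι i)) (extChartAt 𝓘(ℝ, E) x₀ x₀) w)) = 0) → z = 0 := by
    intro z hz1 hz2
    rw [chartForm_self] at hz1
    refine h.c.contact.nondeg x₀ z hz1 fun w _ => ?_
    rw [extDer_rep (smooth_fF ι h.c.contact.smooth) (fun i => smooth_gc ι i) (rep_fF ι β) x₀ z w]
    have h1 := hz2 w
    rw [← neg_eq_zero, ← Finset.sum_neg_distrib] at h1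
    refine Eq.trans (Finset.sum_congr rfl fun i _ => ?_) h1
    ring
  have hJ : ContinuousAt (fun p => fderiv ℝ (cf x₀ e) p) (extChartAt 𝓘(ℝ, E) x₀ x₀) :=
    ((cf_smooth x₀ he hx₀t).fderiv_right (m := 0) (by simp)).continuousAt
  have hJi : Function.Injective (fderiv ℝ (cf x₀ e) (extChartAt 𝓘(ℝ, E) x₀ x₀)) := by
    intro u w huw
    apply himm x₀
    have h1 := fderiv_cf_self x₀ he u
    have h2 := fderiv_cf_self x₀ he w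
    exact h1.symm.trans (huw.trans h2)
  have hmem' : ∀ k, x k ∈ (extChartAt 𝓘(ℝ, E) x₀).source →
      y' k ∈ (extChartAt 𝓘(ℝ, E) x₀).source →
      Flk k ((extChartAt 𝓘(ℝ, E) x₀).symm (extChartAt 𝓘(ℝ, E) x₀ (x k))) (τ k) ∈
        (extChartAt 𝓘(ℝ, E) x₀).source := by
    intro k h1 h2
    rw [(extChartAt 𝓘(ℝ, E) x₀).left_inv h1, ← hy']
    exact h2
  have hbR : ∀ᶠ k in (l : Filter ℕ), chartForm 𝓘(ℝ, E) (βk k) x₀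
      (extChartAt 𝓘(ℝ, E) x₀ (y' k)) (RF.Rc (Flk k) x₀ (extChartAt 𝓘(ℝ, E) x₀ (y' k))) = 1 := by
    filter_upwards [hys'] with k hk
    have hp := (extChartAt 𝓘(ℝ, E) x₀).map_source hk
    have h1 : chartForm 𝓘(ℝ, E) (βk k) x₀
        (extChartAt 𝓘(ℝ, E) x₀ (y' k)) (RF.Rc (Flk k) x₀ (extChartAt 𝓘(ℝ, E) x₀ (y' k))) =
      βk k ((extChartAt 𝓘(ℝ, E) x₀).symm (extChartAt 𝓘(ℝ, E) x₀ (y' k)))
        (ds x₀ (extChartAt 𝓘(ℝ, E) x₀ (y' k))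
          (RF.Rc (Flk k) x₀ (extChartAt 𝓘(ℝ, E) x₀ (y' k)))) := rfl
    have h2 := congrArg (fun w : E => βk k ((extChartAt 𝓘(ℝ, E) x₀).symm
      (extChartAt 𝓘(ℝ, E) x₀ (y' k))) w) ((h.fl k).tangent_Rc x₀ hp)
    refine (h1.trans h2).trans ?_
    exact (h.ck k).reeb.unit _
  have hneq : ∀ᶠ k in (l : Filter ℕ), extChartAt 𝓘(ℝ, E) x₀ (y k) ≠
      extChartAt 𝓘(ℝ, E) x₀ (x k) := by
    filter_upwards [hne, hxs, hys] with k hk h1 h2 h3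
    exact hk ((extChartAt 𝓘(ℝ, E) x₀).injOn h2 h1 h3)
  -- the direction
  obtain ⟨z, hz⟩ := exists_limit l (a := fun k => ‖extChartAt 𝓘(ℝ, E) x₀ (y k) -
    extChartAt 𝓘(ℝ, E) x₀ (x k)‖⁻¹ • (extChartAt 𝓘(ℝ, E) x₀ (y k) -
      extChartAt 𝓘(ℝ, E) x₀ (x k))) (C := 1) (by
    filter_upwards [hneq] with k hk
    have : ‖extChartAt 𝓘(ℝ, E) x₀ (y k) - extChartAt 𝓘(ℝ, E) x₀ (x k)‖ ≠ 0 :=
      norm_ne_zero_iff.2 (sub_ne_zero.2 hk)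
    rw [norm_smul, norm_inv, norm_norm, inv_mul_cancel₀ this])
  have hz1 : ‖z‖ = 1 := by
    have h1 : Tendsto (fun k => ‖‖extChartAt 𝓘(ℝ, E) x₀ (y k) -
        extChartAt 𝓘(ℝ, E) x₀ (x k)‖⁻¹ • (extChartAt 𝓘(ℝ, E) x₀ (y k) -
          extChartAt 𝓘(ℝ, E) x₀ (x k))‖) l (𝓝 1) := by
      refine tendsto_const_nhds.congr' ?_
      filter_upwards [hneq] with k hk
      have : ‖extChartAt 𝓘(ℝ, E) x₀ (y k) - extChartAt 𝓘(ℝ, E) x₀ (x k)‖ ≠ 0 :=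
        norm_ne_zero_iff.2 (sub_ne_zero.2 hk)
      rw [norm_smul, norm_inv, norm_norm, inv_mul_cancel₀ this]
    exact tendsto_nhds_unique hz.norm h1
  have hL : ∀ᶠ k in (l : Filter ℕ), ∀ v, chartForm 𝓘(ℝ, E) (βk k) x₀
      (extChartAt 𝓘(ℝ, E) x₀ (y' k)) (fderiv ℝ (ch x₀ (fun z => Flk k z (τ k)))
        (extChartAt 𝓘(ℝ, E) x₀ (x k)) v) =
      chartForm 𝓘(ℝ, E) (βk k) x₀ (extChartAt 𝓘(ℝ, E) x₀ (x k)) v := by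
    filter_upwards [hxs, hys'] with k h1 h2 v
    have h3 := chartForm_ch (β := βk k) x₀ ((h.fl k).smooth_t (τ k)) ((h.fl k).strict (τ k))
      ((extChartAt 𝓘(ℝ, E) x₀).map_source h1) (hmem' k h1 h2) v
    rw [hcht k h1, ← hy'] at h3
    exact h3
  have hLR : ∀ᶠ k in (l : Filter ℕ), fderiv ℝ (ch x₀ (fun z => Flk k z (τ k)))
        (extChartAt 𝓘(ℝ, E) x₀ (x k)) (RF.Rc (Flk k) x₀ (extChartAt 𝓘(ℝ, E) x₀ (x k))) =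
      RF.Rc (Flk k) x₀ (extChartAt 𝓘(ℝ, E) x₀ (y' k)) := by
    filter_upwards [hxs, hys'] with k h1 h2
    have h3 := (h.fl k).fderiv_ch_Rc x₀ (p := extChartAt 𝓘(ℝ, E) x₀ (x k)) (t := τ k)
      ((extChartAt 𝓘(ℝ, E) x₀).map_source h1) (hmem' k h1 h2)
    rw [hcht k h1, ← hy'] at h3
    exact h3
  have hm : ∀ᶠ k in (l : Filter ℕ), ∃ lam : E →L[ℝ] ℝ, ∀ v,
      ‖fderiv ℝ (cf x₀ e) (extChartAt 𝓘(ℝ, E) x₀ (y' k))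
        (fderiv ℝ (ch x₀ (fun z => Flk k z (τ k))) (extChartAt 𝓘(ℝ, E) x₀ (x k)) v +
        lam v • RF.Rc (Flk k) x₀ (extChartAt 𝓘(ℝ, E) x₀ (y' k)))‖ ≤
      C * ‖fderiv ℝ (cf x₀ e) (extChartAt 𝓘(ℝ, E) x₀ (x k)) v‖ ∧
      ‖fderiv ℝ (cf x₀ e) (extChartAt 𝓘(ℝ, E) x₀ (x k)) v‖ ≤
      C * ‖fderiv ℝ (cf x₀ e) (extChartAt 𝓘(ℝ, E) x₀ (y' k))
        (fderiv ℝ (ch x₀ (fun z => Flk k z (τ k))) (extChartAt 𝓘(ℝ, E) x₀ (x k)) v +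
        lam v • RF.Rc (Flk k) x₀ (extChartAt 𝓘(ℝ, E) x₀ (y' k))) +
        fderiv ℝ (cf x₀ e) (extChartAt 𝓘(ℝ, E) x₀ (x k)) v‖ := by
    filter_upwards [hmod, hxs, hys'] with k h0 h1 h2
    obtain ⟨lam, h0⟩ := h0
    obtain ⟨mu, hmu⟩ : ∃ mu : E →L[ℝ] ℝ, ∀ v, mu v =
        lam (ds x₀ (extChartAt 𝓘(ℝ, E) x₀ (x k)) v) :=
      ⟨lam.comp (show E →L[ℝ] E from mfderiv 𝓘(ℝ, E) 𝓘(ℝ, E) (extChartAt 𝓘(ℝ, E) x₀).symm
        (extChartAt 𝓘(ℝ, E) x₀ (x k))), fun v => rfl⟩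
    refine ⟨mu, fun v => ?_⟩
    have hxt : extChartAt 𝓘(ℝ, E) x₀ (x k) ∈ (extChartAt 𝓘(ℝ, E) x₀).target :=
      (extChartAt 𝓘(ℝ, E) x₀).map_source h1
    have hyt : extChartAt 𝓘(ℝ, E) x₀ (y' k) ∈ (extChartAt 𝓘(ℝ, E) x₀).target :=
      (extChartAt 𝓘(ℝ, E) x₀).map_source h2
    have e1 : fderiv ℝ (cf x₀ e) (ch x₀ (fun z => Flk k z (τ k)) (extChartAt 𝓘(ℝ, E) x₀ (x k)))
        (fderiv ℝ (ch x₀ (fun z => Flk k z (τ k))) (extChartAt 𝓘(ℝ, E) x₀ (x k)) v) =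
        dv E e (Flk k ((extChartAt 𝓘(ℝ, E) x₀).symm (extChartAt 𝓘(ℝ, E) x₀ (x k))) (τ k))
        (dm E (fun y => Flk k y (τ k)) ((extChartAt 𝓘(ℝ, E) x₀).symm
          (extChartAt 𝓘(ℝ, E) x₀ (x k))) (ds x₀ (extChartAt 𝓘(ℝ, E) x₀ (x k)) v)) :=
      fderiv_cf_ch x₀ he ((h.fl k).smooth_t (τ k)) hxt (hmem' k h1 h2) v
    have e2 : fderiv ℝ (cf x₀ e) (extChartAt 𝓘(ℝ, E) x₀ (x k)) v =
        dv E e ((extChartAt 𝓘(ℝ, E) x₀).symm (extChartAt 𝓘(ℝ, E) x₀ (x k)))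
          (ds x₀ (extChartAt 𝓘(ℝ, E) x₀ (x k)) v) := fderiv_cf x₀ he hxt v
    have e3 : fderiv ℝ (cf x₀ e) (extChartAt 𝓘(ℝ, E) x₀ (y' k))
        (RF.Rc (Flk k) x₀ (extChartAt 𝓘(ℝ, E) x₀ (y' k))) =
        dv E e ((extChartAt 𝓘(ℝ, E) x₀).symm (extChartAt 𝓘(ℝ, E) x₀ (y' k)))
          (ds x₀ (extChartAt 𝓘(ℝ, E) x₀ (y' k))
            (RF.Rc (Flk k) x₀ (extChartAt 𝓘(ℝ, E) x₀ (y' k)))) :=
      fderiv_cf x₀ he hyt (RF.Rc (Flk k) x₀ (extChartAt 𝓘(ℝ, E) x₀ (y' k)))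
    have e4 : (ds x₀ (extChartAt 𝓘(ℝ, E) x₀ (y' k))
        (RF.Rc (Flk k) x₀ (extChartAt 𝓘(ℝ, E) x₀ (y' k))) : E) = Rk k (y' k) := by
      refine ((h.fl k).tangent_Rc x₀ hyt).trans ?_
      rw [(extChartAt 𝓘(ℝ, E) x₀).left_inv h2]
    have ha := h0 (ds x₀ (extChartAt 𝓘(ℝ, E) x₀ (x k)) v)
    rw [hcht k h1, (extChartAt 𝓘(ℝ, E) x₀).left_inv h1, ← hy'] at e1
    rw [(extChartAt 𝓘(ℝ, E) x₀).left_inv h1] at e2
    rw [(extChartAt 𝓘(ℝ, E) x₀).left_inv h2, e4] at e3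
    rw [map_add, map_smul, e1, e2, e3, hmu]
    exact ha
  have hSe : ∀ᶠ k in (l : Filter ℕ), (∑ i, (fF ι (βk k) i (x k) + fF ι (βk k) i (y k)) *
      (gc ι i (y k) - gc ι i (x k))) = 0 := by
    filter_upwards [hS] with k h3
    unfold S at h3
    exact (div_eq_zero_iff.1 h3).resolve_right two_ne_zero
  have hEe : ∀ᶠ k in (l : Filter ℕ), ∀ v : E,
      (∑ i, ((fderiv ℝ (cf x₀ (fF ι (βk k) i)) (extChartAt 𝓘(ℝ, E) x₀ (x k)) v +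
      fderiv ℝ (cf x₀ (fF ι (βk k) i)) (extChartAt 𝓘(ℝ, E) x₀ (y k))
        (fderiv ℝ (ch x₀ (fun z => Flk k z (s k))) (extChartAt 𝓘(ℝ, E) x₀ (y' k))
        (fderiv ℝ (ch x₀ (fun z => Flk k z (τ k))) (extChartAt 𝓘(ℝ, E) x₀ (x k)) v))) *
      (gc ι i (y k) - gc ι i (x k)) -
      (fF ι (βk k) i (y k) - fF ι (βk k) i (x k)) *
      (fderiv ℝ (cf x₀ (gc ι i)) (extChartAt 𝓘(ℝ, E) x₀ (x k)) v +
      fderiv ℝ (cf x₀ (gc ι i)) (extChartAt 𝓘(ℝ, E) x₀ (y k))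
        (fderiv ℝ (ch x₀ (fun z => Flk k z (s k))) (extChartAt 𝓘(ℝ, E) x₀ (y' k))
        (fderiv ℝ (ch x₀ (fun z => Flk k z (τ k))) (extChartAt 𝓘(ℝ, E) x₀ (x k)) v))))) = 0 := by
    filter_upwards [hcr, hxs, hys, hys'] with k hk h1 h2 h2' v
    have h2'' : Flk k (x k) (t k) ∈ (extChartAt 𝓘(ℝ, E) x₀).source := by rw [← hy]; exact h2
    have h3 := crit_eq (h.fl k) (fun i => (h.f i).sm k) (fun i => smooth_gc ι i)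
      (rep_fF ι (βk k)) x₀ h1 h2'' hk v
    have h4 := (h.fl k).fderiv_ch_add x₀ (p := extChartAt 𝓘(ℝ, E) x₀ (x k)) (t := τ k) (s := s k)
      ((extChartAt 𝓘(ℝ, E) x₀).map_source h1) (hmem' k h1 h2')
      (by
        rw [(extChartAt 𝓘(ℝ, E) x₀).left_inv h1, ht]
        exact h2'')
    rw [ht, hcht k h1, ← hy'] at h4
    have h5 : fderiv ℝ (ch x₀ (fun z => Flk k z (t k))) (extChartAt 𝓘(ℝ, E) x₀ (x k)) v =
        fderiv ℝ (ch x₀ (fun z => Flk k z (s k))) (extChartAt 𝓘(ℝ, E) x₀ (y' k))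
          (fderiv ℝ (ch x₀ (fun z => Flk k z (τ k))) (extChartAt 𝓘(ℝ, E) x₀ (x k)) v) := by
      rw [h4]; rfl
    rw [← hy] at h3
    have h6 : ∀ r : P → ℝ, cf x₀ r (extChartAt 𝓘(ℝ, E) x₀ (x k)) = r (x k) := fun r => by
      unfold cf; rw [(extChartAt 𝓘(ℝ, E) x₀).left_inv h1]
    have h7 : ∀ r : P → ℝ, cf x₀ r (extChartAt 𝓘(ℝ, E) x₀ (y k)) = r (y k) := fun r => by
      unfold cf; rw [(extChartAt 𝓘(ℝ, E) x₀).left_inv h2]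
    simp only [h6, h7] at h3
    rw [← h5]
    exact h3
  have hf0 : ∀ i, cf x₀ (fF ι β i) (extChartAt 𝓘(ℝ, E) x₀ x₀) = fF ι β i x₀ := by
    intro i
    unfold cf
    rw [extChartAt_to_inv]
  have hρ0 : (R x₀ : E) ≠ 0 := by
    intro h0
    have h1 := h.c.reeb.unit x₀
    have h2 : β x₀ (R x₀) = β x₀ (0 : E) := congrArg (fun w : E => β x₀ w) h0
    rw [h2] at h1
    have h3 : β x₀ (0 : E) = 0 := map_zero (β x₀)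
    rw [h3] at h1
    exact zero_ne_one h1
  have hcg := fun i => CF.const (ι := ι) (gc ι i) (smooth_gc ι i)
  exact no_limit' l (f₀ := fun i => fF ι β i x₀)
    (f₀' := fun i => fderiv ℝ (cf x₀ (fF ι β i)) (extChartAt 𝓘(ℝ, E) x₀ x₀))
    (g₀' := fun i => fderiv ℝ (cf x₀ (gc ι i)) (extChartAt 𝓘(ℝ, E) x₀ x₀))
    (fun i => (h.f i).a.tendsto (h.f i).sm₀.continuous hl hx₀)
    (fun i => (h.f i).a.tendsto (h.f i).sm₀.continuous hl hy0)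
    (fun i => (h.f i).deriv hl hx₀) (fun i => (h.f i).deriv hl hy0)
    (fun i => (hcg i).deriv hl hx₀) (fun i => (hcg i).deriv hl hy0)
    (fun i => (h.f i).quot hl hx₀ hy0 hz) (fun i => (hcg i).quot hl hx₀ hy0 hz) hz1
    (h.form hl hx₀) (h.form hl hy₀)
    (fun v => by
      rw [chartForm_rep (fun i => smooth_gc ι i) (rep_fF ι β) x₀ hx₀t v]
      simp only [hf0])
    hnd hJi (hJ.tendsto.comp hp) (hJ.tendsto.comp hq') (h.rho hl hx₀) (h.rho hl hy₀) hρ0 hbR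
    (h.short hl hy0 hy₀ hs0 hyk) hL hLR hm hSe hEe

end Pool.Agent.J4H20.ST
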