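import Mathlib
import Pool.Agent.J4H20.ST.St7

/-! Closed orbits for convergent sequences of Reeb flows. -/

open scoped Topology ContDiff Manifold
open Set Metric Bundle Filter Pool.Agent.Helper186 Pool.Agent.H826R2.Wein Pool.Agent.W671.WU

noncomputable section

namespace Pool.Agent.J4H20.ST

set_option linter.unusedSectionVars false

universe u

/-- uniform convergence from convergence along convergent sequences -/
lemma unif_of_seq {Q : Type*} [TopologicalSpace Q] [CompactSpace Q] {A : ℕ → Q → ℝ} {A₀ : Q → ℝ}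
    (hA₀ : Continuous A₀)
    (h : ∀ (l : Ultrafilter ℕ), (l : Filter ℕ) ≤ atTop → ∀ (q : ℕ → Q) (q₀ : Q),
      Tendsto q l (𝓝 q₀) → Tendsto (fun k => A k (q k)) l (𝓝 (A₀ q₀))) {ε : ℝ} (hε : 0 < ε) :
    ∀ᶠ k in atTop, ∀ q, |A k q - A₀ q| < ε := by
  by_contra hcon
  rw [Filter.not_eventually] at hcon
  rcases isEmpty_or_nonempty Q with hQ | hQ
  · obtain ⟨k, hk⟩ := hcon.exists
    exact hk fun q => (hQ.false q).elim
  have hne : NeBot (atTop ⊓ 𝓟 {k | ¬ ∀ q, |A k q - A₀ q| < ε}) :=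
    Filter.frequently_iff_neBot.1 hcon
  obtain ⟨l, hl⟩ : ∃ l : Ultrafilter ℕ,
      (l : Filter ℕ) ≤ atTop ⊓ 𝓟 {k | ¬ ∀ q, |A k q - A₀ q| < ε} := ⟨_, Ultrafilter.of_le _⟩
  have hlt : (l : Filter ℕ) ≤ atTop := hl.trans inf_le_left
  have hlb : ∀ᶠ k in (l : Filter ℕ), ¬ ∀ q, |A k q - A₀ q| < ε :=
    le_principal_iff.1 (hl.trans inf_le_right)
  have hq : ∀ k, ∃ q, (¬ ∀ q, |A k q - A₀ q| < ε) → ¬ |A k q - A₀ q| < ε := by
    intro k
    by_cases hk : ∀ q, |A k q - A₀ q| < ε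
    · exact ⟨hQ.some, fun h' => absurd hk h'⟩
    · obtain ⟨q, hq⟩ := not_forall.1 hk
      exact ⟨q, fun _ => hq⟩
  choose q hq using hq
  obtain ⟨q₀, hq₀⟩ := exists_limit_compact l q
  have h1 := (h l hlt q q₀ hq₀).sub ((hA₀.tendsto q₀).comp hq₀)
  rw [sub_self] at h1
  have h2 := h1.abs.eventually (gt_mem_nhds (show |(0:ℝ)| < ε by simpa using hε))
  obtain ⟨k, hk1, hk2⟩ := (hlb.and h2).exists
  exact hq k hk1 hk2

variable {E : Type u} [NormedAddCommGroup E] [NormedSpace ℝ E] [FiniteDimensional ℝ E]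
  {P : Type*} [TopologicalSpace P] [ChartedSpace E P] [IsManifold 𝓘(ℝ, E) ∞ P]
  {F : Type*} [NormedAddCommGroup F] [NormedSpace ℝ F] {m : ℕ}
  {ι : Imm (E := E) P m} {β : (x : P) → TangentSpace 𝓘(ℝ, E) x →L[ℝ] ℝ}
    {R : (x : P) → TangentSpace 𝓘(ℝ, E) x}
    {βk : ℕ → (x : P) → TangentSpace 𝓘(ℝ, E) x →L[ℝ] ℝ}
    {Rk : ℕ → (x : P) → TangentSpace 𝓘(ℝ, E) x} {Flk : ℕ → P → ℝ → P}

/-- limits of the generating functions -/
lemma SQ.limS (h : SQ ι β R βk Rk Flk) {l : Filter ℕ} (hl : l ≤ atTop) {x y : ℕ → P} {x₀ y₀ : P}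
    (hx : Tendsto x l (𝓝 x₀)) (hy : Tendsto y l (𝓝 y₀)) :
    Tendsto (fun k => S (fF ι (βk k)) (gc ι) (x k) (y k)) l (𝓝 (S (fF ι β) (gc ι) x₀ y₀)) := by
  unfold S
  refine Tendsto.div_const (tendsto_finsetSum _ fun i _ => ?_) _
  have f1 := (h.f i).a.tendsto (h.f i).sm₀.continuous hl hx
  have f2 := (h.f i).a.tendsto (h.f i).sm₀.continuous hl hy
  have g1 := ((smooth_gc ι i).continuous.tendsto x₀).comp hx
  have g2 := ((smooth_gc ι i).continuous.tendsto y₀).comp hy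
  exact (f1.add f2).mul (g2.sub g1)

/-- limits of the derivatives of the generating functions -/
lemma SQ.limA (h : SQ ι β R βk Rk Flk) {l : Filter ℕ} (hl : l ≤ atTop) {x y : ℕ → P} {x₀ y₀ : P}
    (hx : Tendsto x l (𝓝 x₀)) (hy : Tendsto y l (𝓝 y₀)) :
    Tendsto (fun k => A (fF ι (βk k)) (gc ι) (Rk k) (x k) (y k)) l
      (𝓝 (A (fF ι β) (gc ι) R x₀ y₀)) := by
  have e : ∀ (f : Fin m → P → ℝ) (R : (x : P) → TangentSpace 𝓘(ℝ, E) x) (x y : P),
      A f (gc ι) R x y = (∑ i, ((∑ j, ac ι R j y * dl ι j (f i) y) * (gc ι i y - gc ι i x) +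
        (f i x + f i y) * ac ι R i y)) / 2 := by
    intro f R x y
    unfold A
    congr 1
    refine Finset.sum_congr rfl fun i _ => ?_
    rw [dForm_frame ι (f i) y (R y)]
    rfl
  simp only [e]
  refine Tendsto.div_const (tendsto_finsetSum _ fun i _ => ?_) _
  have f1 := (h.f i).a.tendsto (h.f i).sm₀.continuous hl hx
  have f2 := (h.f i).a.tendsto (h.f i).sm₀.continuous hl hy
  have g1 := ((smooth_gc ι i).continuous.tendsto x₀).comp hx
  have g2 := ((smooth_gc ι i).continuous.tendsto y₀).comp hy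
  have a1 := fun j => (h.r.a j).tendsto (smooth_ac ι (smooth_reeb h.c) j).continuous hl hy
  have d1 := fun j => ((h.f i).b j).tendsto (smooth_dl ι j (h.f i).sm₀).continuous hl hy
  exact ((tendsto_finsetSum _ fun j _ => (a1 j).mul (d1 j)).mul (g2.sub g1)).add
    ((f1.add f2).mul (a1 i))

/-- the window -/
lemma exists_window' [T2Space P] [CompactSpace P] (h : SQ ι β R βk Rk Flk)
    (hinj : Function.Injective ι.F)
    {e : P → F} (he : Continuous e) (hinje : Function.Injective e) {c : ℝ} (hc : 0 < c) :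
    ∃ δ > 0, δ < c ∧ ∃ ε > 0, ∀ᶠ k in atTop, ∀ x y, ‖e y - e x‖ < ε →
      (∀ s ∈ Icc (-δ) δ, 1 / 2 < A (fF ι (βk k)) (gc ι) (Rk k) x (Flk k y s)) ∧
        |S (fF ι (βk k)) (gc ι) x y| < δ / 4 := by
  have hfs := fun i => (h.f i).sm₀
  have hgs := fun i => smooth_gc ι i
  have hAc := continuous_A (smooth_reeb h.c) hfs hgs
  have hSc := continuous_S (fun i => (hfs i).continuous) (fun i => (hgs i).continuous)
  have hgc := continuous_gv ι
  obtain ⟨a, ha0, -, -, hak, -⟩ := h.r.bound (smooth_reeb h.c)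
  -- neighbourhoods of the diagonal
  have hdiag : ∀ {U : P × P → ℝ} {r : ℝ} (_ : Continuous U) (_ : ∀ x, U (x, x) < r),
      ∃ η > 0, ∀ x y, ‖gv ι y - gv ι x‖ < η → U (x, y) < r := by
    intro U r hU hUx
    set O : Set (P × P) := {q | U q < r} with hO
    have hOo : IsOpen O := isOpen_lt hU continuous_const
    rcases (Oᶜ).eq_empty_or_nonempty with hemp | hne
    · refine ⟨1, one_pos, fun x y _ => ?_⟩
      by_contra hq
      have : (x, y) ∈ Oᶜ := hq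
      rw [hemp] at this
      exact this
    · obtain ⟨q₀, hq₀, hmin⟩ := (hOo.isClosed_compl.isCompact).exists_isMinOn hne
        (f := fun q : P × P => ‖gv ι q.2 - gv ι q.1‖)
        (((hgc.comp continuous_snd).sub (hgc.comp continuous_fst)).norm).continuousOn
      refine ⟨‖gv ι q₀.2 - gv ι q₀.1‖, ?_, fun x y hxy => ?_⟩
      · rw [gt_iff_lt, norm_pos_iff, sub_ne_zero]
        intro h'
        apply hq₀
        have h2 := gv_inj hinj h'
        have h3 : q₀ = (q₀.1, q₀.1) := by rw [← Prod.mk.eta (p := q₀), h2]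
        show U q₀ < r
        rw [h3]
        exact hUx _
      · by_contra hqO
        have h3 := hmin (a := (x, y)) hqO
        simp only [mem_ofPred_eq] at h3
        exact absurd hxy (not_lt.2 h3)
  obtain ⟨η, hη, hηA⟩ := hdiag (U := fun q => - A (fF ι β) (gc ι) R q.1 q.2) (r := -(3 / 4))
    hAc.neg (fun x => by
      show - A (fF ι β) (gc ι) R x x < -(3 / 4)
      rw [A_self (rep_fF ι β) h.c.reeb.unit]
      norm_num)
  set δ : ℝ := min (η / (2 * (a + 1))) (c / 2) with hδ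
  have hδ0 : 0 < δ := by positivity
  have hδc : δ < c := lt_of_le_of_lt (min_le_right _ _) (by linarith)
  obtain ⟨ε', hε', hεS⟩ := hdiag (U := fun q => |S (fF ι β) (gc ι) q.1 q.2|) (r := δ / 8)
    hSc.abs (fun x => by
      show |S (fF ι β) (gc ι) x x| < δ / 8
      rw [S_self, abs_zero]
      positivity)
  obtain ⟨ε, hε, hεe⟩ := unif_of_cont (u := gv ι) hgc he hinje
    (ε := min (η / 2) ε') (by positivity)
  have hAk := unif_of_seq (Q := P × P)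
    (A := fun k q => A (fF ι (βk k)) (gc ι) (Rk k) q.1 q.2) hAc
    (fun l hl q q₀ hq => h.limA hl ((continuous_fst.tendsto q₀).comp hq)
      ((continuous_snd.tendsto q₀).comp hq)) (ε := 1 / 4) (by norm_num)
  have hSk := unif_of_seq (Q := P × P)
    (A := fun k q => S (fF ι (βk k)) (gc ι) q.1 q.2) hSc
    (fun l hl q q₀ hq => h.limS hl ((continuous_fst.tendsto q₀).comp hq)
      ((continuous_snd.tendsto q₀).comp hq)) (ε := δ / 8) (by positivity)
  refine ⟨δ, hδ0, hδc, ε, hε, ?_⟩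
  filter_upwards [hak, hAk, hSk] with k h1 h2 h3 x y hxy
  have h4 : ‖gv ι y - gv ι x‖ < min (η / 2) ε' := by
    have := hεe y x hxy
    rwa [dist_eq_norm] at this
  have h4a : ‖gv ι y - gv ι x‖ < η / 2 := lt_of_lt_of_le h4 (min_le_left _ _)
  have h4b : ‖gv ι y - gv ι x‖ < ε' := lt_of_lt_of_le h4 (min_le_right _ _)
  refine ⟨fun s hs => ?_, ?_⟩
  · have h5 := gv_speed ι (h.fd k) ha0.le h1 y s
    have h6 : a * |s| ≤ η / 2 := by
      have h7 : |s| ≤ δ := abs_le.2 hs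
      have h8 : δ ≤ η / (2 * (a + 1)) := min_le_left _ _
      calc a * |s| ≤ (a + 1) * (η / (2 * (a + 1))) :=
            mul_le_mul (by linarith) (h7.trans h8) (abs_nonneg _) (by positivity)
        _ = η / 2 := by field_simp
    have h7 : ‖gv ι (Flk k y s) - gv ι x‖ < η := by
      have h8 : gv ι (Flk k y s) - gv ι x =
        (gv ι (Flk k y s) - gv ι y) + (gv ι y - gv ι x) := by abel
      rw [h8]
      refine lt_of_le_of_lt (norm_add_le _ _) ?_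
      linarith
    have h8 := hηA x (Flk k y s) h7
    simp only at h8
    have h9 := abs_lt.1 (h2 (x, Flk k y s))
    simp only at h9
    linarith [h9.1]
  · have h5 := hεS x y h4b
    simp only at h5
    have h6 := h3 (x, y)
    simp only at h6
    have h7 := abs_sub_abs_le_abs_sub (S (fF ι (βk k)) (gc ι) x y) (S (fF ι β) (gc ι) x y)
    linarith

attribute [local irreducible] S A

/-- For large `k` every critical pair is a closed orbit. -/
theorem closed_of_crit' [T2Space P] [CompactSpace P] [Nonempty P] (h : SQ ι β R βk Rk Flk)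
    (hinj : Function.Injective ι.F)
    {e : P → F} (he : ContMDiff 𝓘(ℝ, E) 𝓘(ℝ, F) ∞ e) (hinje : Function.Injective e)
    (himm : ∀ x, Function.Injective (mfderiv 𝓘(ℝ, E) 𝓘(ℝ, F) e x))
    {τ : ℕ → P → ℝ} {δ : ℝ}
    (hw : ∀ᶠ k in atTop, Win (fF ι (βk k)) (gc ι) (Rk k) (Flk k) (τ k) δ)
    (hconv : ∀ ε > 0, ∀ᶠ k in atTop, ∀ x, ‖e (Flk k x (τ k x)) - e x‖ < ε)
    {C : ℝ}
    (hmod : ∀ᶠ k in atTop, ∀ (x : P), ∃ lam : E →L[ℝ] ℝ, ∀ (v : E),
      ‖dv E e (Flk k x (τ k x)) (dm E (fun y => Flk k y (τ k x)) x v) +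
        lam v • dv E e (Flk k x (τ k x)) (Rk k (Flk k x (τ k x)))‖ ≤ C * ‖dv E e x v‖ ∧
      ‖dv E e x v‖ ≤ C * ‖dv E e (Flk k x (τ k x)) (dm E (fun y => Flk k y (τ k x)) x v) +
        lam v • dv E e (Flk k x (τ k x)) (Rk k (Flk k x (τ k x))) + dv E e x v‖) :
    ∀ᶠ k in atTop, ∀ (x : P) (t : ℝ), t - τ k x ∈ Icc (-δ) δ →
      Crit (fF ι (βk k)) (gc ι) (Flk k) x t → Flk k x t = x := by
  by_contra hcon
  have hfreq : ∃ᶠ k in atTop, ∃ (q : P × ℝ), q.2 - τ k q.1 ∈ Icc (-δ) δ ∧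
      Crit (fF ι (βk k)) (gc ι) (Flk k) q.1 q.2 ∧ Flk k q.1 q.2 ≠ q.1 := by
    rw [Filter.not_eventually] at hcon
    refine hcon.mono fun k hk => ?_
    push Not at hk
    obtain ⟨x, t, h1, h2, h3⟩ := hk
    exact ⟨(x, t), h1, h2, h3⟩
  have hne : NeBot (atTop ⊓ 𝓟 {k | ∃ (q : P × ℝ), q.2 - τ k q.1 ∈ Icc (-δ) δ ∧
      Crit (fF ι (βk k)) (gc ι) (Flk k) q.1 q.2 ∧ Flk k q.1 q.2 ≠ q.1}) :=
    Filter.frequently_iff_neBot.1 hfreq
  obtain ⟨l, hl⟩ : ∃ l : Ultrafilter ℕ, (l : Filter ℕ) ≤ atTop ⊓ 𝓟 {k | ∃ (q : P × ℝ),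
      q.2 - τ k q.1 ∈ Icc (-δ) δ ∧ Crit (fF ι (βk k)) (gc ι) (Flk k) q.1 q.2 ∧
        Flk k q.1 q.2 ≠ q.1} :=
    ⟨_, Ultrafilter.of_le _⟩
  have hlt : (l : Filter ℕ) ≤ atTop := hl.trans inf_le_left
  have hlb : ∀ᶠ k in (l : Filter ℕ), ∃ (q : P × ℝ), q.2 - τ k q.1 ∈ Icc (-δ) δ ∧
      Crit (fF ι (βk k)) (gc ι) (Flk k) q.1 q.2 ∧ Flk k q.1 q.2 ≠ q.1 :=
    le_principal_iff.1 (hl.trans inf_le_right)
  have hmax : ∀ k, ∃ (q : P × ℝ), (∃ (q : P × ℝ), q.2 - τ k q.1 ∈ Icc (-δ) δ ∧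
      Crit (fF ι (βk k)) (gc ι) (Flk k) q.1 q.2 ∧ Flk k q.1 q.2 ≠ q.1) →
      (q.2 - τ k q.1 ∈ Icc (-δ) δ ∧ Crit (fF ι (βk k)) (gc ι) (Flk k) q.1 q.2 ∧
        Flk k q.1 q.2 ≠ q.1) := by
    intro k
    by_cases hk : ∃ (q : P × ℝ), q.2 - τ k q.1 ∈ Icc (-δ) δ ∧
      Crit (fF ι (βk k)) (gc ι) (Flk k) q.1 q.2 ∧ Flk k q.1 q.2 ≠ q.1
    · obtain ⟨q, hq⟩ := hk
      exact ⟨q, fun _ => hq⟩
    · obtain ⟨z₀⟩ := (inferInstance : Nonempty P)
      exact ⟨(z₀, 0), fun h' => absurd h' hk⟩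
  choose q hq using hmax
  obtain ⟨x, t, hqx, hqt⟩ : ∃ (x : ℕ → P) (t : ℕ → ℝ), (∀ k, (q k).1 = x k) ∧
      (∀ k, (q k).2 = t k) := ⟨_, _, fun _ => rfl, fun _ => rfl⟩
  simp only [hqx, hqt] at hq
  have hqe := hlb.mono fun k hk => hq k hk
  obtain ⟨y', hy'⟩ : ∃ y' : ℕ → P, ∀ k, y' k = Flk k (x k) (τ k (x k)) := ⟨_, fun _ => rfl⟩
  obtain ⟨s, hs⟩ : ∃ s : ℕ → ℝ, ∀ k, s k = t k - τ k (x k) := ⟨_, fun _ => rfl⟩
  obtain ⟨y, hy⟩ : ∃ y : ℕ → P, ∀ k, y k = Flk k (x k) (t k) := ⟨_, fun _ => rfl⟩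
  obtain ⟨x₀, hx₀⟩ := exists_limit_compact l x
  obtain ⟨y₀, hy₀⟩ := exists_limit_compact l y'
  have hxy₀ : y₀ = x₀ := by
    apply hinje
    have h1 : Tendsto (fun k => e (y' k) - e (x k)) l (𝓝 0) := by
      rw [tendsto_zero_iff_norm_tendsto_zero]
      refine Metric.tendsto_nhds.2 fun η hη => ?_
      filter_upwards [(hconv η hη).filter_mono hlt] with k hk
      rw [dist_zero_right, norm_norm, hy']
      exact hk _
    have h2 : Tendsto (fun k => e (y' k) - e (x k)) l (𝓝 (e y₀ - e x₀)) :=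
      ((he.continuous.tendsto y₀).comp hy₀).sub ((he.continuous.tendsto x₀).comp hx₀)
    exact sub_eq_zero.1 (tendsto_nhds_unique h2 h1)
  rw [hxy₀] at hy₀
  have hs0 : Tendsto s l (𝓝 0) := by
    have h1 := h.limS hlt hx₀ hy₀
    rw [S_self] at h1
    have h2 : Tendsto (fun k => 2 * |S (fF ι (βk k)) (gc ι) (x k) (y' k)|) l (𝓝 0) := by
      have := h1.abs.const_mul 2
      simpa using this
    refine squeeze_zero_norm' ?_ h2
    filter_upwards [hqe, hw.filter_mono hlt] with k hk hwk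
    rw [hs, hy', Real.norm_eq_abs]
    refine hwk.bound hk.1 ?_
    rw [show τ k (x k) + (t k - τ k (x k)) = t k by ring]
    exact hk.2.1.1
  have hyk : ∀ k, y k = Flk k (y' k) (s k) := by
    intro k
    rw [hy, hy', hs, ← (h.fl k).add]
    congr 1
    ring
  have hy0 : Tendsto y l (𝓝 x₀) := by
    obtain ⟨y₁, hy₁⟩ := exists_limit_compact l y
    obtain ⟨a, ha0, -, -, hak, -⟩ := h.r.bound (smooth_reeb h.c)
    have h1 : Tendsto (fun k => gv ι (y k) - gv ι (y' k)) l (𝓝 0) := by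
      have h2 : Tendsto (fun k => a * |s k|) l (𝓝 0) := by
        have := hs0.abs.const_mul a
        simpa using this
      refine squeeze_zero_norm' ?_ h2
      filter_upwards [hak.filter_mono hlt] with k hk
      rw [hyk]
      exact gv_speed ι (h.fd k) ha0.le hk (y' k) (s k)
    have h2 : Tendsto (fun k => gv ι (y k) - gv ι (y' k)) l (𝓝 (gv ι y₁ - gv ι x₀)) :=
      (((continuous_gv ι).tendsto y₁).comp hy₁).sub (((continuous_gv ι).tendsto x₀).comp hy₀)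
    have h3 := gv_inj hinj (sub_eq_zero.1 (tendsto_nhds_unique h2 h1))
    rw [← h3]
    exact hy₁
  refine no_limit_flow' h he himm l hlt (τ := fun k => τ k (x k)) (t := t) hx₀ hy₀ hy0 hs0
    (fun k => by simp only [hs]; ring) hy' hy hyk ?_ ?_ ?_ (C := C) ?_
  · filter_upwards [hqe] with k hk
    rw [hy]
    exact hk.2.2
  · filter_upwards [hqe] with k hk
    rw [hy]
    exact hk.2.1.1
  · filter_upwards [hqe] with k hk
    exact hk.2.1.2
  · filter_upwards [hmod.filter_mono hlt] with k hk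
    have := hk (x k)
    rw [← hy'] at this
    exact this

/-- **Core theorem** for convergent sequences of Reeb flows. -/
theorem reeb_core' [T2Space P] [CompactSpace P] [Nonempty P] (hdim : 1 < Module.finrank ℝ E)
    (h : SQ ι β R βk Rk Flk) (hinj : Function.Injective ι.F)
    {e : P → F} (he : ContMDiff 𝓘(ℝ, E) 𝓘(ℝ, F) ∞ e) (hinje : Function.Injective e)
    (himm : ∀ x, Function.Injective (mfderiv 𝓘(ℝ, E) 𝓘(ℝ, F) e x))
    {τ : ℕ → P → ℝ} (hτ : ∀ k, Continuous (τ k)) {c₀ : ℝ} (hc₀ : 0 < c₀)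
    (hτc : ∀ k x, c₀ ≤ τ k x)
    (hconv : ∀ ε > 0, ∀ᶠ k in atTop, ∀ x, ‖e (Flk k x (τ k x)) - e x‖ < ε) {C : ℝ}
    (hmod : ∀ᶠ k in atTop, ∀ (x : P), ∃ lam : E →L[ℝ] ℝ, ∀ (v : E),
      ‖dv E e (Flk k x (τ k x)) (dm E (fun y => Flk k y (τ k x)) x v) +
        lam v • dv E e (Flk k x (τ k x)) (Rk k (Flk k x (τ k x)))‖ ≤ C * ‖dv E e x v‖ ∧
      ‖dv E e x v‖ ≤ C * ‖dv E e (Flk k x (τ k x)) (dm E (fun y => Flk k y (τ k x)) x v) +
        lam v • dv E e (Flk k x (τ k x)) (Rk k (Flk k x (τ k x))) + dv E e x v‖) :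
    ∀ᶠ k in atTop, ∃ (x₁ : P) (T₁ : ℝ) (x₂ : P) (T₂ : ℝ), 0 < T₁ ∧ 0 < T₂ ∧
      Flk k x₁ T₁ = x₁ ∧ Flk k x₂ T₂ = x₂ ∧ ∀ u v, Flk k x₁ u ≠ Flk k x₂ v := by
  obtain ⟨δ, hδ, hδc, ε, hε, hwin⟩ := exists_window' h hinj he.continuous hinje hc₀
  have hw : ∀ᶠ k in atTop, Win (fF ι (βk k)) (gc ι) (Rk k) (Flk k) (τ k) δ := by
    filter_upwards [hconv ε hε, hwin] with k hk hwk
    exact ⟨fun i => (h.f i).sm k, fun i => smooth_gc ι i, ⟨(h.fl k).zero, (h.fl k).int⟩,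
      (h.fl k).smooth.continuous, hτ k, hδ,
      fun x s hs => by
        have := (hwk x _ (hk x)).1 s hs
        rwa [← (h.fl k).add] at this,
      fun x => (hwk x _ (hk x)).2⟩
  filter_upwards [hw, closed_of_crit' h hinj he hinje himm hw hconv hmod] with k hwk hclosed
  obtain ⟨x₁, s₁, x₂, s₂, hs₁, hs₂, hc₁, hc₂, heq⟩ := hwk.exists_extrema
  have hm₁ : τ k x₁ + s₁ - τ k x₁ ∈ Icc (-δ) δ := by rw [add_sub_cancel_left]; exact hs₁
  have hm₂ : τ k x₂ + s₂ - τ k x₂ ∈ Icc (-δ) δ := by rw [add_sub_cancel_left]; exact hs₂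
  have e₁ := hclosed x₁ _ hm₁ hc₁
  have e₂ := hclosed x₂ _ hm₂ hc₂
  have p₁ : 0 < τ k x₁ + s₁ := by
    have := hτc k x₁
    linarith [hs₁.1]
  have p₂ : 0 < τ k x₂ + s₂ := by
    have := hτc k x₂
    linarith [hs₂.1]
  by_cases hdis : ∀ u v, Flk k x₁ u ≠ Flk k x₂ v
  · exact ⟨x₁, _, x₂, _, p₁, p₂, e₁, e₂, hdis⟩
  · push Not at hdis
    obtain ⟨u, v, huv⟩ := hdis
    have hr : Flk k x₁ (u + -v) = x₂ := by
      rw [(h.fl k).add, huv, ← (h.fl k).add, add_neg_cancel, (h.fl k).zero]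
    have hT := hwk.same_orbit (h.fl k).add hm₁ hm₂ e₁ e₂ hr
    have hall : ∀ x, Flk k x (τ k x₁ + s₁) = x := fun x =>
      hclosed x _ (heq hT x).1 (heq hT x).2
    obtain ⟨y, hy⟩ := exists_other hdim (h.fl k).smooth x₁
    refine ⟨x₁, _, y, _, p₁, p₁, e₁, hall y, fun a b hab => ?_⟩
    apply hy (a + -b)
    rw [(h.fl k).add, hab, ← (h.fl k).add, add_neg_cancel, (h.fl k).zero]

end Pool.Agent.J4H20.ST
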