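import Mathlib
import Pool.Agent.J4H20.ST.St8

/-! Perturbation of the estimates for return maps. -/

open scoped Topology ContDiff Manifold
open Set Metric Bundle Filter Pool.Agent.Helper186 Pool.Agent.H826R2.Wein Pool.Agent.W671.WU

noncomputable section

namespace Pool.Agent.J4H20.ST

set_option linter.unusedSectionVars false

universe u

variable {E : Type u} [NormedAddCommGroup E] [NormedSpace ℝ E] [FiniteDimensional ℝ E]
  {P : Type*} [TopologicalSpace P] [ChartedSpace E P] [IsManifold 𝓘(ℝ, E) ∞ P]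
  {F : Type*} [NormedAddCommGroup F] [NormedSpace ℝ F] {m : ℕ}

/-- the derivative of a vector valued function along the frame -/
def ev1 (ι : Imm (E := E) P m) (e : P → F) (l : Fin m) (x : P) : F := dv E e x (fr ι l x)

lemma continuous_dv_field {e : P → F} (he : ContMDiff 𝓘(ℝ, E) 𝓘(ℝ, F) ∞ e)
    {V : (x : P) → TangentSpace 𝓘(ℝ, E) x}
    (hV : ContMDiff 𝓘(ℝ, E) 𝓘(ℝ, E).tangent ∞ (fun x => (⟨x, V x⟩ : TangentBundle 𝓘(ℝ, E) P))) :
    Continuous (fun x => dv E e x (V x)) := by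
  have h1 : ContMDiff 𝓘(ℝ, E).tangent 𝓘(ℝ, F).tangent ∞ (tangentMap 𝓘(ℝ, E) 𝓘(ℝ, F) e) :=
    he.contMDiff_tangentMap (by simp)
  have h2 : Continuous (fun x => (tangentMap 𝓘(ℝ, E) 𝓘(ℝ, F) e
      (⟨x, V x⟩ : TangentBundle 𝓘(ℝ, E) P)).2) := by
    have h3 := (contMDiff_snd_tangentBundle_modelSpace F 𝓘(ℝ, F) (n := ∞))
    exact (h3.comp (h1.comp hV)).continuous
  exact h2

lemma continuous_ev1 (ι : Imm (E := E) P m) {e : P → F} (he : ContMDiff 𝓘(ℝ, E) 𝓘(ℝ, F) ∞ e)
    (l : Fin m) : Continuous (ev1 ι e l) := continuous_dv_field he (smooth_fr ι l)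

/-- the norm of a vector measured by the immersion `e` bounds its coordinates -/
lemma exists_kappa [T2Space P] [CompactSpace P] (ι : Imm (E := E) P m) {e : P → F}
    (he : ContMDiff 𝓘(ℝ, E) 𝓘(ℝ, F) ∞ e)
    (himm : ∀ x, Function.Injective (mfderiv 𝓘(ℝ, E) 𝓘(ℝ, F) e x)) :
    ∃ κ > 0, ∀ (x : P) (v : E), ‖(fun i => co ι x (v : TangentSpace 𝓘(ℝ, E) x) i : Fin m → ℝ)‖ ≤
      κ * ‖dv E e x v‖ := by
  have hco : ∀ l i, Continuous (fun x => co ι x (fr ι l x) i) := fun l i =>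
    (smooth_ac ι (smooth_fr ι l) i).continuous
  set Z : Set (P × (Fin m → ℝ)) := {q | ‖q.2‖ = 1 ∧
    ∀ i, (∑ l, q.2 l * co ι q.1 (fr ι l q.1) i) = q.2 i} with hZ
  have hZc : IsCompact Z := by
    have h1 : IsClosed Z := by
      rw [hZ]
      refine IsClosed.and (isClosed_eq (continuous_snd.norm) continuous_const) ?_
      rw [Set.ofPred_forall]
      refine isClosed_iInter fun i => isClosed_eq (continuous_finsetSum _ fun l _ => ?_) ?_
      · exact ((continuous_apply l).comp continuous_snd).mul ((hco l i).comp continuous_fst)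
      · exact (continuous_apply i).comp continuous_snd
    have h2 : Z ⊆ univ ×ˢ closedBall (0 : Fin m → ℝ) 1 := by
      rintro ⟨x, ξ⟩ ⟨h, -⟩
      exact ⟨mem_univ _, by simpa using h.le⟩
    exact (isCompact_univ.prod (isCompact_closedBall (0 : Fin m → ℝ) 1)).of_isClosed_subset h1 h2
  have hφ : Continuous (fun q : P × (Fin m → ℝ) => ‖∑ l, q.2 l • ev1 ι e l q.1‖) := by
    refine (continuous_finsetSum _ fun l _ => ?_).norm
    exact ((continuous_apply l).comp continuous_snd).smul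
      ((continuous_ev1 ι he l).comp continuous_fst)
  have hex : ∃ c > 0, ∀ q ∈ Z, c ≤ ‖∑ l, q.2 l • ev1 ι e l q.1‖ := by
    rcases Z.eq_empty_or_nonempty with hemp | hne
    · exact ⟨1, one_pos, fun q hq => by rw [hemp] at hq; exact hq.elim⟩
    · obtain ⟨q₀, hq₀, hmin⟩ := hZc.exists_isMinOn hne hφ.continuousOn
      refine ⟨‖∑ l, q₀.2 l • ev1 ι e l q₀.1‖, ?_, fun q hq => hmin hq⟩
      rw [gt_iff_lt, norm_pos_iff]
      intro h0
      obtain ⟨h1, h2⟩ := hq₀
      have e1 : dv E e q₀.1 (∑ l, q₀.2 l • (fr ι l q₀.1 : E)) = 0 := by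
        rw [← h0]
        show mfderiv 𝓘(ℝ, E) 𝓘(ℝ, F) e q₀.1 (∑ l, q₀.2 l • fr ι l q₀.1) = _
        rw [map_sum]
        refine Finset.sum_congr rfl fun l _ => ?_
        rw [map_smul]
        rfl
      have e2 : (∑ l, q₀.2 l • (fr ι l q₀.1 : E)) = 0 := by
        apply himm q₀.1
        exact e1.trans (map_zero (mfderiv 𝓘(ℝ, E) 𝓘(ℝ, F) e q₀.1)).symm
      have e3 : q₀.2 = 0 := by
        ext i
        rw [← h2 i]
        have e4 : (∑ l, q₀.2 l * co ι q₀.1 (fr ι l q₀.1) i) =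
            co ι q₀.1 (∑ l, q₀.2 l • (fr ι l q₀.1)) i := by
          unfold co
          rw [map_sum]
          refine Finset.sum_congr rfl fun l _ => ?_
          rw [map_smul]
          rfl
        rw [e4]
        have e5 : ∀ w : E, w = 0 → co ι q₀.1 (w : TangentSpace 𝓘(ℝ, E) q₀.1) i = 0 := by
          rintro _ rfl
          exact map_zero (dForm 𝓘(ℝ, E) (gc ι i) q₀.1)
        exact e5 _ e2
      rw [e3, norm_zero] at h1
      exact zero_ne_one h1
  obtain ⟨c, hc, hcZ⟩ := hex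
  refine ⟨c⁻¹, by positivity, fun x v => ?_⟩
  set ξ : Fin m → ℝ := fun i => co ι x (v : TangentSpace 𝓘(ℝ, E) x) i with hξ
  rcases eq_or_ne ξ 0 with h0 | h0
  · rw [h0, norm_zero]
    positivity
  · have hn : 0 < ‖ξ‖ := norm_pos_iff.2 h0
    have hfr : ∀ i, (∑ l, ξ l * co ι x (fr ι l x) i) = ξ i := by
      intro i
      have h1 := dForm_frame ι (gc ι i) x v
      exact h1.symm
    have h1 := hcZ (x, ‖ξ‖⁻¹ • ξ) ⟨by
      show ‖‖ξ‖⁻¹ • ξ‖ = 1
      rw [norm_smul, norm_inv, norm_norm, inv_mul_cancel₀ hn.ne'], fun i => by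
      simp only [Pi.smul_apply, smul_eq_mul, mul_assoc]
      rw [← Finset.mul_sum, hfr]⟩
    simp only [Pi.smul_apply, smul_assoc] at h1
    rw [← Finset.smul_sum, norm_smul, norm_inv, norm_norm] at h1
    have h2 : dv E e x v = ∑ l, ξ l • ev1 ι e l x := mfderiv_frame ι e x v
    rw [h2, le_inv_mul_iff₀ hc]
    rw [le_inv_mul_iff₀ hn] at h1
    rw [mul_comm]
    exact h1

/-- bounds for vector valued functions -/
lemma exists_boundF [CompactSpace P] {n : ℕ} {u : Fin n → P → F} (hu : ∀ i, Continuous (u i)) :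
    ∃ b > 0, ∀ i x, ‖u i x‖ ≤ b := by
  obtain ⟨b, hb0, hb⟩ := exists_bound (fun i => (hu i).norm)
  refine ⟨b, hb0, fun i x => ?_⟩
  have := hb i x
  rwa [abs_norm] at this

/-- difference of two linear combinations -/
lemma norm_comb_sub_le {a b : Fin m → ℝ} {A B : Fin m → F} {M δ η : ℝ} (hη : 0 ≤ η)
    (hA : ∀ l, ‖A l‖ ≤ M) (hAB : ∀ l, ‖A l - B l‖ ≤ δ) (hab : ‖a - b‖ ≤ η) :
    ‖(∑ l, a l • A l) - ∑ l, b l • B l‖ ≤ m * (η * M + ‖b‖ * δ) := by
  rw [← Finset.sum_sub_distrib]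
  have h1 : ∀ l, a l • A l - b l • B l = (a l - b l) • A l + b l • (A l - B l) := by
    intro l
    rw [sub_smul, smul_sub]
    abel
  calc ‖∑ l, (a l • A l - b l • B l)‖ ≤ ∑ l, ‖a l • A l - b l • B l‖ := norm_sum_le _ _
    _ ≤ ∑ _l : Fin m, (η * M + ‖b‖ * δ) := by
        refine Finset.sum_le_sum fun l _ => ?_
        rw [h1]
        refine (norm_add_le _ _).trans (add_le_add ?_ ?_)
        · rw [norm_smul]
          refine mul_le_mul ?_ (hA l) (norm_nonneg _) hη
          exact (norm_le_pi_norm (a - b) l).trans hab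
        · rw [norm_smul]
          exact mul_le_mul (norm_le_pi_norm b l) (hAB l) (norm_nonneg _) (norm_nonneg _)
    _ = _ := by
        rw [Finset.sum_const, Finset.card_univ, Fintype.card_fin, nsmul_eq_mul]

end Pool.Agent.J4H20.ST
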