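import Mathlib
import Pool.Agent.J4H20.ST.St9

/-! Stability of closed orbits near transversely recurrent Reeb flows. -/

open scoped Topology ContDiff Manifold
open Set Metric Bundle Filter Pool.Agent.Helper186 Pool.Agent.H826R2.Wein Pool.Agent.W671.WU

noncomputable section

namespace Pool.Agent.J4H20.ST

set_option linter.unusedSectionVars false

universe u

variable {E : Type u} [NormedAddCommGroup E] [NormedSpace ℝ E] [FiniteDimensional ℝ E]
  {P : Type*} [TopologicalSpace P] [ChartedSpace E P] [IsManifold 𝓘(ℝ, E) ∞ P]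
  {F : Type*} [NormedAddCommGroup F] [NormedSpace ℝ F] {m : ℕ}

variable {R : (x : P) → TangentSpace 𝓘(ℝ, E) x} {Rj : ℕ → (x : P) → TangentSpace 𝓘(ℝ, E) x}
  {Fl : P → ℝ → P} {Flj : ℕ → P → ℝ → P}

variable (E) in
/-- the estimates for the return map with return times `T` -/
def Mod (e : P → F) (R : (x : P) → TangentSpace 𝓘(ℝ, E) x) (Fl : P → ℝ → P) (T : P → ℝ)
    (C : ℝ) : Prop :=
  ∀ (x : P), ∃ lam : E →L[ℝ] ℝ, ∀ (v : E),
      ‖dv E e (Fl x (T x)) (dm E (fun y => Fl y (T x)) x v) +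
        lam v • dv E e (Fl x (T x)) (R (Fl x (T x)))‖ ≤ C * ‖dv E e x v‖ ∧
      ‖dv E e x v‖ ≤ C * ‖dv E e (Fl x (T x)) (dm E (fun y => Fl y (T x)) x v) +
        lam v • dv E e (Fl x (T x)) (R (Fl x (T x))) + dv E e x v‖

/-- the estimates are stable -/
lemma pert [T2Space P] [CompactSpace P] [Nonempty P] (ι : Imm (E := E) P m)
    (hinj : Function.Injective ι.F)
    {e : P → F} (he : ContMDiff 𝓘(ℝ, E) 𝓘(ℝ, F) ∞ e)
    (himm : ∀ x, Function.Injective (mfderiv 𝓘(ℝ, E) 𝓘(ℝ, F) e x))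
    (hcv : CV ι R Rj) (h : FD R Fl) (hj : ∀ j, FD (Rj j) (Flj j)) (hR0 : ∀ x, (R x : E) ≠ 0)
    {T : P → ℝ} (hT : Continuous T) (hT0 : ∀ x, 0 ≤ T x) {C : ℝ} (hmod : Mod E e R Fl T C)
    {ε : ℝ} (hε : 0 < ε) :
    ∀ᶠ j in atTop, (∀ x, ‖e (Flj j x (T x)) - e (Fl x (T x))‖ < ε) ∧
      Mod E e (Rj j) (Flj j) T (2 * |C| + 1) := by
  -- constants
  obtain ⟨b, hb0, hab, hbb, -, -⟩ := hcv.bound h.sm
  obtain ⟨κ, hκ0, hκ⟩ := exists_kappa ι he himm
  obtain ⟨M, hM0, hM⟩ := exists_boundF (fun l => continuous_ev1 ι he l)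
  obtain ⟨Tb, hTb⟩ : ∃ Tb, ∀ x, T x ≤ Tb := by
    obtain ⟨x₁, -, hx₁⟩ := (isCompact_univ (X := P)).exists_isMaxOn univ_nonempty hT.continuousOn
    exact ⟨T x₁, fun x => hx₁ (mem_univ x)⟩
  obtain ⟨cR, hcR0, hcR⟩ : ∃ cR > 0, ∀ x, cR ≤ ‖dv E e x (R x)‖ := by
    obtain ⟨x₁, -, hx₁⟩ := (isCompact_univ (X := P)).exists_isMinOn univ_nonempty
      (continuous_dv_field he h.sm).norm.continuousOn
    refine ⟨‖dv E e x₁ (R x₁)‖, ?_, fun x => hx₁ (mem_univ x)⟩
    rw [gt_iff_lt, norm_pos_iff]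
    intro h0
    apply hR0 x₁
    apply himm x₁
    exact h0.trans (map_zero (mfderiv 𝓘(ℝ, E) 𝓘(ℝ, F) e x₁)).symm
  set G : ℝ := Real.exp ((m * b + 1) * |Tb|) with hG
  have hG0 : 0 < G := Real.exp_pos _
  set Λ : ℝ := cR⁻¹ * (|C| + m * (G * κ * M)) with hΛ
  have hΛ0 : 0 ≤ Λ := by positivity
  set W : ℝ := m * (κ * M + G * κ) + Λ * (m * (M + b)) + 1 with hW
  have hW0 : 0 < W := by positivity
  set θ : ℝ := 1 / (2 * (|C| + 1)) with hθ
  have hθ0 : 0 < θ := by positivity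
  have hθ1 : θ ≤ 1 := by
    rw [hθ, div_le_one (by positivity)]
    linarith [abs_nonneg C]
  have hθC : |C| * θ ≤ 1 / 2 := by
    rw [hθ, mul_one_div, div_le_div_iff₀ (by positivity) (by positivity)]
    linarith
  set s : ℝ := θ / W with hs
  have hs0 : 0 < s := by positivity
  have hsW : s * W = θ := by rw [hs]; field_simp
  -- uniform continuity
  obtain ⟨δ₁, hδ₁, h1⟩ := unif_of_cont (u := fun x : P => (fun l => ev1 ι e l x : Fin m → F))
    (continuous_pi fun l => continuous_ev1 ι he l) (continuous_gv ι) (gv_inj hinj) hs0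
  obtain ⟨δ₂, hδ₂, h2⟩ := unif_of_cont (u := fun x : P => (fun l => ac ι R l x : Fin m → ℝ))
    (continuous_pi fun l => (smooth_ac ι h.sm l).continuous) (continuous_gv ι) (gv_inj hinj)
    (show 0 < s / 2 by positivity)
  obtain ⟨δ₃, hδ₃, h3⟩ := unif_of_cont (u := e) he.continuous (continuous_gv ι) (gv_inj hinj) hε
  set δ : ℝ := min δ₁ (min δ₂ δ₃) / 2 with hδ
  have hδ0 : 0 < δ := by positivity
  have hδm : δ < min δ₁ (min δ₂ δ₃) := by
    rw [hδ]
    exact half_lt_self (by positivity)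
  filter_upwards [pos_close hinj hcv h hj Tb hδ0, co_close hinj hcv h hj Tb hs0,
    hcv.a' (ε := s / 2) (by positivity)] with j k1 k2 k3
  have hTm : ∀ x, T x ∈ Icc 0 Tb := fun x => ⟨hT0 x, hTb x⟩
  have hd : ∀ x, ‖gv ι (Flj j x (T x)) - gv ι (Fl x (T x))‖ < min δ₁ (min δ₂ δ₃) := fun x =>
    lt_of_le_of_lt (k1 x (T x) (hTm x)) hδm
  have hd1 := fun x => lt_of_lt_of_le (hd x) (min_le_left _ _)
  have hd2 := fun x => lt_of_lt_of_le (hd x) ((min_le_right _ _).trans (min_le_left _ _))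
  have hd3 := fun x => lt_of_lt_of_le (hd x) ((min_le_right _ _).trans (min_le_right _ _))
  refine ⟨fun x => ?_, fun x => ?_⟩
  · have := h3 _ _ (hd3 x)
    rwa [dist_eq_norm] at this
  obtain ⟨lam, hlam⟩ := hmod x
  refine ⟨lam, fun v => ?_⟩
  set y := Fl x (T x) with hy
  set yj := Flj j x (T x) with hyj
  set N := ‖dv E e x v‖ with hN
  have hN0 : 0 ≤ N := norm_nonneg _
  have hE : ∀ l, ‖ev1 ι e l yj - ev1 ι e l y‖ ≤ s := by
    intro l
    have e1 := h1 _ _ (hd1 x)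
    rw [dist_eq_norm] at e1
    exact (norm_le_pi_norm (fun l => ev1 ι e l yj - ev1 ι e l y) l).trans e1.le
  have hu0 : ‖uc ι Fl x v 0‖ ≤ κ * N := by
    rw [uc_zero ι h]
    exact hκ x v
  have huc : ‖uc ι Fl x v (T x)‖ ≤ G * (κ * N) := by
    refine (uc_growth' ι h hb0.le hbb x v (T x)).trans ?_
    have e1 : Real.exp ((m * b + 1) * |T x|) ≤ G := by
      rw [hG, Real.exp_le_exp]
      refine mul_le_mul_of_nonneg_left ?_ (by positivity)
      rw [abs_of_nonneg (hT0 x)]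
      exact (hTb x).trans (le_abs_self _)
    exact mul_le_mul e1 hu0 (norm_nonneg _) hG0.le
  have hucj : ‖uc ι (Flj j) x v (T x) - uc ι Fl x v (T x)‖ ≤ s * (κ * N) :=
    (k2 x v (T x) (hTm x)).trans (mul_le_mul_of_nonneg_left hu0 hs0.le)
  -- the first difference
  have hr1 : dv E e y (dm E (fun z => Fl z (T x)) x v) =
      ∑ l, uc ι Fl x v (T x) l • ev1 ι e l y := mfderiv_frame ι e y _
  have hr2 : dv E e yj (dm E (fun z => Flj j z (T x)) x v) =
      ∑ l, uc ι (Flj j) x v (T x) l • ev1 ι e l yj := mfderiv_frame ι e yj _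
  have hD1 : ‖dv E e yj (dm E (fun z => Flj j z (T x)) x v) -
      dv E e y (dm E (fun z => Fl z (T x)) x v)‖ ≤ m * (s * (κ * N) * M + G * (κ * N) * s) := by
    rw [hr1, hr2]
    refine (norm_comb_sub_le (by positivity) (fun l => hM l yj) hE hucj).trans ?_
    gcongr
  -- the second difference
  have hr3 : dv E e y (R y) = ∑ l, (fun l => ac ι R l y) l • ev1 ι e l y := mfderiv_frame ι e y _
  have hr4 : dv E e yj (Rj j yj) = ∑ l, (fun l => ac ι (Rj j) l yj) l • ev1 ι e l yj :=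
    mfderiv_frame ι e yj _
  have hacj : ‖(fun l => ac ι (Rj j) l yj) - (fun l => ac ι R l y : Fin m → ℝ)‖ ≤ s := by
    rw [pi_norm_le_iff_of_nonneg hs0.le]
    intro l
    rw [Pi.sub_apply, Real.norm_eq_abs]
    have e1 := k3 l yj
    have e2 := h2 _ _ (hd2 x)
    rw [dist_eq_norm] at e2
    have e3 : |ac ι R l yj - ac ι R l y| ≤ s / 2 :=
      (norm_le_pi_norm (fun l => ac ι R l yj - ac ι R l y) l).trans e2.le
    have e4 : ac ι (Rj j) l yj - ac ι R l y =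
      (ac ι (Rj j) l yj - ac ι R l yj) + (ac ι R l yj - ac ι R l y) := by ring
    rw [e4]
    have e5 := abs_add_le (ac ι (Rj j) l yj - ac ι R l yj) (ac ι R l yj - ac ι R l y)
    linarith
  have hac : ‖(fun l => ac ι R l y : Fin m → ℝ)‖ ≤ b := by
    rw [pi_norm_le_iff_of_nonneg hb0.le]
    intro l
    exact hab l y
  have hD2 : ‖dv E e yj (Rj j yj) - dv E e y (R y)‖ ≤ m * (s * M + b * s) := by
    rw [hr3, hr4]
    refine (norm_comb_sub_le hs0.le (fun l => hM l yj) hE hacj).trans ?_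
    gcongr
  -- the size of `lam v`
  have hdm : ‖dv E e y (dm E (fun z => Fl z (T x)) x v)‖ ≤ m * (G * κ * M) * N := by
    rw [hr1]
    calc ‖∑ l, uc ι Fl x v (T x) l • ev1 ι e l y‖
        ≤ ∑ l, ‖uc ι Fl x v (T x) l • ev1 ι e l y‖ := norm_sum_le _ _
      _ ≤ ∑ _l : Fin m, G * (κ * N) * M := by
          refine Finset.sum_le_sum fun l _ => ?_
          rw [norm_smul]
          exact mul_le_mul ((norm_le_pi_norm _ l).trans huc) (hM l y) (norm_nonneg _)
            (by positivity)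
      _ = _ := by
          rw [Finset.sum_const, Finset.card_univ, Fintype.card_fin, nsmul_eq_mul]
          ring
  obtain ⟨hl1, hl2⟩ := hlam v
  have hCN : C * N ≤ |C| * N := mul_le_mul_of_nonneg_right (le_abs_self C) hN0
  have hlv : |lam v| ≤ Λ * N := by
    have e1 : ‖lam v • dv E e y (R y)‖ ≤ |C| * N + m * (G * κ * M) * N := by
      have e2 : lam v • dv E e y (R y) = (dv E e y (dm E (fun z => Fl z (T x)) x v) +
        lam v • dv E e y (R y)) - dv E e y (dm E (fun z => Fl z (T x)) x v) := by abel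
      rw [e2]
      refine (norm_sub_le _ _).trans (add_le_add (hl1.trans hCN) hdm)
    rw [norm_smul, Real.norm_eq_abs] at e1
    have e3 : |lam v| * cR ≤ |lam v| * ‖dv E e y (R y)‖ :=
      mul_le_mul_of_nonneg_left (hcR y) (abs_nonneg _)
    have e4 : cR * |lam v| ≤ (|C| + m * (G * κ * M)) * N := by linarith
    rw [hΛ, mul_assoc, le_inv_mul_iff₀ hcR0]
    exact e4
  -- the total difference
  have hD : ‖(dv E e yj (dm E (fun z => Flj j z (T x)) x v) + lam v • dv E e yj (Rj j yj)) -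
      (dv E e y (dm E (fun z => Fl z (T x)) x v) + lam v • dv E e y (R y))‖ ≤ θ * N := by
    have e1 : (dv E e yj (dm E (fun z => Flj j z (T x)) x v) + lam v • dv E e yj (Rj j yj)) -
      (dv E e y (dm E (fun z => Fl z (T x)) x v) + lam v • dv E e y (R y)) =
      (dv E e yj (dm E (fun z => Flj j z (T x)) x v) -
        dv E e y (dm E (fun z => Fl z (T x)) x v)) +
      lam v • (dv E e yj (Rj j yj) - dv E e y (R y)) := by
      rw [smul_sub]
      abel
    rw [e1]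
    refine (norm_add_le _ _).trans ?_
    rw [norm_smul, Real.norm_eq_abs]
    have e2 : |lam v| * ‖dv E e yj (Rj j yj) - dv E e y (R y)‖ ≤
      (Λ * N) * (m * (s * M + b * s)) :=
      mul_le_mul hlv hD2 (norm_nonneg _) (by positivity)
    have e3 : m * (s * (κ * N) * M + G * (κ * N) * s) + (Λ * N) * (m * (s * M + b * s)) =
      (s * (W - 1)) * N := by
      rw [hW]
      ring
    have e4 : s * (W - 1) ≤ θ := by
      rw [← hsW]
      exact mul_le_mul_of_nonneg_left (by linarith) hs0.le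
    have e5 : (s * (W - 1)) * N ≤ θ * N := mul_le_mul_of_nonneg_right e4 hN0
    linarith
  set old := dv E e y (dm E (fun z => Fl z (T x)) x v) + lam v • dv E e y (R y) with hold
  set new := dv E e yj (dm E (fun z => Flj j z (T x)) x v) + lam v • dv E e yj (Rj j yj)
    with hnew
  constructor
  · have e1 : ‖new‖ ≤ ‖old‖ + ‖new - old‖ := by
      have : new = old + (new - old) := by abel
      nth_rewrite 1 [this]
      exact norm_add_le _ _
    have e2 : θ * N ≤ 1 * N := mul_le_mul_of_nonneg_right hθ1 hN0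
    have e3 : (2 * |C| + 1) * N = 2 * (|C| * N) + N := by ring
    have e4 : 0 ≤ |C| * N := by positivity
    rw [e3]
    linarith
  · have e1 : ‖old + dv E e x v‖ ≤ ‖new + dv E e x v‖ + ‖new - old‖ := by
      have : old + dv E e x v = (new + dv E e x v) - (new - old) := by abel
      rw [this]
      exact norm_sub_le _ _
    have e2 : C * ‖old + dv E e x v‖ ≤ |C| * ‖old + dv E e x v‖ :=
      mul_le_mul_of_nonneg_right (le_abs_self C) (norm_nonneg _)
    have e3 : |C| * ‖old + dv E e x v‖ ≤ |C| * (‖new + dv E e x v‖ + θ * N) :=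
      mul_le_mul_of_nonneg_left (e1.trans (by linarith)) (abs_nonneg _)
    have e4 : |C| * (‖new + dv E e x v‖ + θ * N) = |C| * ‖new + dv E e x v‖ + (|C| * θ) * N := by
      ring
    have e5 : (|C| * θ) * N ≤ 1 / 2 * N := mul_le_mul_of_nonneg_right hθC hN0
    have e6 : N ≤ |C| * ‖new + dv E e x v‖ + 1 / 2 * N := by
      have := hl2
      linarith
    have e7 : 0 ≤ ‖new + dv E e x v‖ := norm_nonneg _
    have e8 : (2 * |C| + 1) * ‖new + dv E e x v‖ =
      2 * (|C| * ‖new + dv E e x v‖) + ‖new + dv E e x v‖ := by ring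
    rw [e8]
    linarith

lemma UC.comp {u : ℕ → P → ℝ} {u₀ : P → ℝ} (h : UC u u₀) {σ : ℕ → ℕ}
    (hσ : Tendsto σ atTop atTop) : UC (fun k => u (σ k)) u₀ :=
  fun ε hε => hσ.eventually (h ε hε)

lemma CV.comp {ι : Imm (E := E) P m} (h : CV ι R Rj) {σ : ℕ → ℕ} (hσ : Tendsto σ atTop atTop) :
    CV ι R (fun k => Rj (σ k)) :=
  ⟨fun i => (h.a i).comp hσ, fun i l => (h.b i l).comp hσ⟩

lemma CF.comp {ι : Imm (E := E) P m} {u : ℕ → P → ℝ} {u₀ : P → ℝ} (h : CF ι u u₀) {σ : ℕ → ℕ}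
    (hσ : Tendsto σ atTop atTop) : CF ι (fun k => u (σ k)) u₀ :=
  ⟨fun k => h.sm (σ k), h.sm₀, h.a.comp hσ, fun l => (h.b l).comp hσ⟩

/-- **Stability of closed orbits.** -/
theorem stable_core [T2Space P] [CompactSpace P] [Nonempty P] (hdim : 1 < Module.finrank ℝ E)
    {ι : Imm (E := E) P m} (hinj : Function.Injective ι.F)
    {β : (x : P) → TangentSpace 𝓘(ℝ, E) x →L[ℝ] ℝ}
    {βj : ℕ → (x : P) → TangentSpace 𝓘(ℝ, E) x →L[ℝ] ℝ}
    (c : CD β R) (hF : RF β R Fl) (cj : ∀ j, CD (βj j) (Rj j))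
    (hFj : ∀ j, RF (βj j) (Rj j) (Flj j))
    (hf : ∀ i, CF ι (fun j => fF ι (βj j) i) (fF ι β i)) (hr : CV ι R Rj)
    {e : P → F} (he : ContMDiff 𝓘(ℝ, E) 𝓘(ℝ, F) ∞ e) (hinje : Function.Injective e)
    (himm : ∀ x, Function.Injective (mfderiv 𝓘(ℝ, E) 𝓘(ℝ, F) e x))
    {τ : ℕ → P → ℝ} (hτ : ∀ k, Continuous (τ k)) {c₀ : ℝ} (hc₀ : 0 < c₀)
    (hτc : ∀ k x, c₀ ≤ τ k x)
    (hconv : ∀ ε > 0, ∀ᶠ k in atTop, ∀ x, ‖e (Fl x (τ k x)) - e x‖ < ε) {C : ℝ}
    (hmod : ∀ᶠ k in atTop, Mod E e R Fl (τ k) C) :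
    ∀ᶠ j in atTop, ∃ (x₁ : P) (T₁ : ℝ) (x₂ : P) (T₂ : ℝ), 0 < T₁ ∧ 0 < T₂ ∧
      Flj j x₁ T₁ = x₁ ∧ Flj j x₂ T₂ = x₂ ∧ ∀ u v, Flj j x₁ u ≠ Flj j x₂ v := by
  by_contra hcon
  rw [Filter.not_eventually] at hcon
  have hFD : FD R Fl := ⟨smooth_reeb c, hF.zero, hF.int⟩
  have hFDj : ∀ j, FD (Rj j) (Flj j) := fun j => ⟨smooth_reeb (cj j), (hFj j).zero, (hFj j).int⟩
  have hR0 : ∀ x, (R x : E) ≠ 0 := by
    intro x h0
    have h1 := c.reeb.unit x
    have h2 : β x (R x) = β x (0 : E) := congrArg (fun w : E => β x w) h0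
    rw [h2] at h1
    have h3 : β x (0 : E) = 0 := map_zero (β x)
    rw [h3] at h1
    exact zero_ne_one h1
  have hsel : ∀ k : ℕ, ∃ j, k ≤ j ∧ (¬ ∃ (x₁ : P) (T₁ : ℝ) (x₂ : P) (T₂ : ℝ), 0 < T₁ ∧ 0 < T₂ ∧
      Flj j x₁ T₁ = x₁ ∧ Flj j x₂ T₂ = x₂ ∧ ∀ u v, Flj j x₁ u ≠ Flj j x₂ v) ∧
      (Mod E e R Fl (τ k) C → (∀ x, ‖e (Flj j x (τ k x)) - e (Fl x (τ k x))‖ < 1 / ((k : ℝ) + 1)) ∧
        Mod E e (Rj j) (Flj j) (τ k) (2 * |C| + 1)) := by
    intro k
    have h1 : ∀ᶠ j in atTop, (Mod E e R Fl (τ k) C →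
        (∀ x, ‖e (Flj j x (τ k x)) - e (Fl x (τ k x))‖ < 1 / ((k : ℝ) + 1)) ∧
        Mod E e (Rj j) (Flj j) (τ k) (2 * |C| + 1)) := by
      by_cases hk : Mod E e R Fl (τ k) C
      · filter_upwards [pert ι hinj he himm hr hFD hFDj hR0 (hτ k)
          (fun x => hc₀.le.trans (hτc k x)) hk (ε := 1 / ((k : ℝ) + 1)) (by positivity)] with j hj _
        exact hj
      · exact Eventually.of_forall fun j h' => absurd h' hk
    obtain ⟨j, hj1, hj2, hj3⟩ := (hcon.and_eventually (h1.and (eventually_ge_atTop k))).exists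
    exact ⟨j, hj3, hj1, hj2⟩
  choose σ hσk hσbad hσ using hsel
  have hσt : Tendsto σ atTop atTop := tendsto_atTop_mono hσk tendsto_id
  have hSQ : SQ ι β R (fun k => βj (σ k)) (fun k => Rj (σ k)) (fun k => Flj (σ k)) :=
    ⟨c, fun k => cj (σ k), fun k => hFj (σ k), fun i => (hf i).comp hσt, hr.comp hσt⟩
  have hfin := reeb_core' hdim hSQ hinj he hinje himm hτ hc₀ hτc (C := 2 * |C| + 1)
    (fun ε hε => by
      have h1 : ∀ᶠ k : ℕ in atTop, 1 / ((k : ℝ) + 1) < ε / 2 := by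
        have := tendsto_one_div_add_atTop_nhds_zero_nat (𝕜 := ℝ)
        exact this.eventually (gt_mem_nhds (by positivity))
      filter_upwards [h1, hconv (ε / 2) (by positivity), hmod] with k k1 k2 k3 x
      have k4 := (hσ k k3).1 x
      have k5 : e (Flj (σ k) x (τ k x)) - e x = (e (Flj (σ k) x (τ k x)) - e (Fl x (τ k x))) +
        (e (Fl x (τ k x)) - e x) := by abel
      rw [k5]
      refine lt_of_le_of_lt (norm_add_le _ _) ?_
      linarith [k2 x])
    (by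
      filter_upwards [hmod] with k k1
      exact (hσ k k1).2)
  obtain ⟨k, hk⟩ := hfin.exists
  exact hσbad k hk

end Pool.Agent.J4H20.ST
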