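import Mathlib
import Pool.Agent.J4H20.ST.St10

/-! The Reeb fields converge in `C¹` if the contact forms converge in `C²`. -/

open scoped Topology ContDiff Manifold
open Set Metric Bundle Filter Pool.Agent.Helper186 Pool.Agent.H826R2.Wein Pool.Agent.W671.WU

noncomputable section

namespace Pool.Agent.J4H20.ST

set_option linter.unusedSectionVars false

universe u

variable {E : Type u} [NormedAddCommGroup E] [NormedSpace ℝ E] [FiniteDimensional ℝ E]
  {P : Type*} [TopologicalSpace P] [ChartedSpace E P] [IsManifold 𝓘(ℝ, E) ∞ P] {m : ℕ}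

/-- uniform convergence from convergence along sequences -/
lemma UC.of_seq [CompactSpace P] {u : ℕ → P → ℝ} {u₀ : P → ℝ} (hc : Continuous u₀)
    (h : ∀ (l : Ultrafilter ℕ), (l : Filter ℕ) ≤ atTop → ∀ (q : ℕ → P) (q₀ : P),
      Tendsto q l (𝓝 q₀) → Tendsto (fun k => u k (q k)) l (𝓝 (u₀ q₀))) : UC u u₀ :=
  fun _ hε => unif_of_seq hc h hε

lemma dl_eq (ι : Imm (E := E) P m) (q : Fin m) {u : P → ℝ}
    (hu : ContMDiff 𝓘(ℝ, E) 𝓘(ℝ, ℝ) ∞ u) (x : P) :
    dl ι q u x = fderiv ℝ (cf x u) (extChartAt 𝓘(ℝ, E) x x) (fr ι q x) :=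
  (fderiv_cf_self x hu (fr ι q x)).symm

/-- product rule -/
lemma dl_sum_mul (ι : Imm (E := E) P m) (q : Fin m) {I : Type*} [Fintype I] {A r : I → P → ℝ}
    (hA : ∀ i, ContMDiff 𝓘(ℝ, E) 𝓘(ℝ, ℝ) ∞ (A i)) (hr : ∀ i, ContMDiff 𝓘(ℝ, E) 𝓘(ℝ, ℝ) ∞ (r i))
    (x : P) : dl ι q (fun y => ∑ i, A i y * r i y) x =
      ∑ i, (dl ι q (A i) x * r i x + A i x * dl ι q (r i) x) := by
  have hs : ContMDiff 𝓘(ℝ, E) 𝓘(ℝ, ℝ) ∞ (fun y => ∑ i, A i y * r i y) :=
    contMDiff_finsetSum fun i _ => (hA i).mul (hr i)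
  have hx := mem_extChartAt_target (I := 𝓘(ℝ, E)) x
  have h1 : HasFDerivAt (fun p => ∑ i, cf x (A i) p * cf x (r i) p)
      (∑ i, (cf x (A i) (extChartAt 𝓘(ℝ, E) x x) • fderiv ℝ (cf x (r i)) (extChartAt 𝓘(ℝ, E) x x) +
        cf x (r i) (extChartAt 𝓘(ℝ, E) x x) • fderiv ℝ (cf x (A i)) (extChartAt 𝓘(ℝ, E) x x)))
      (extChartAt 𝓘(ℝ, E) x x) := by
    refine HasFDerivAt.fun_sum fun i _ => ?_
    exact ((cf_smooth x (hA i) hx).differentiableAt (by simp)).hasFDerivAt.mul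
      ((cf_smooth x (hr i) hx).differentiableAt (by simp)).hasFDerivAt
  have h2 : cf (E := E) x (fun y => ∑ i, A i y * r i y) =
      fun p => ∑ i, cf x (A i) p * cf x (r i) p := rfl
  rw [dl_eq ι q hs, h2, h1.fderiv, sum_apply]
  refine Finset.sum_congr rfl fun i _ => ?_
  rw [dl_eq ι q (hA i), dl_eq ι q (hr i)]
  have e1 : ∀ u : P → ℝ, cf x u (extChartAt 𝓘(ℝ, E) x x) = u x := by
    intro u
    unfold cf
    rw [extChartAt_to_inv]
  simp only [add_apply, smul_apply, smul_eq_mul, e1]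
  ring

lemma dl_sub (ι : Imm (E := E) P m) (q : Fin m) {A r : P → ℝ}
    (hA : ContMDiff 𝓘(ℝ, E) 𝓘(ℝ, ℝ) ∞ A) (hr : ContMDiff 𝓘(ℝ, E) 𝓘(ℝ, ℝ) ∞ r)
    (x : P) : dl ι q (fun y => A y - r y) x = dl ι q A x - dl ι q r x := by
  have hs : ContMDiff 𝓘(ℝ, E) 𝓘(ℝ, ℝ) ∞ (fun y => A y - r y) := hA.sub hr
  have hx := mem_extChartAt_target (I := 𝓘(ℝ, E)) x
  have h1 : HasFDerivAt (fun p => cf x A p - cf x r p)
      (fderiv ℝ (cf x A) (extChartAt 𝓘(ℝ, E) x x) - fderiv ℝ (cf x r) (extChartAt 𝓘(ℝ, E) x x))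
      (extChartAt 𝓘(ℝ, E) x x) :=
    ((cf_smooth x hA hx).differentiableAt (by simp)).hasFDerivAt.sub
      ((cf_smooth x hr hx).differentiableAt (by simp)).hasFDerivAt
  have h2 : cf (E := E) x (fun y => A y - r y) = fun p => cf x A p - cf x r p := rfl
  rw [dl_eq ι q hs, h2, h1.fderiv, dl_eq ι q hA, dl_eq ι q hr]
  rfl

lemma dl_const (ι : Imm (E := E) P m) (q : Fin m) (b : ℝ) (x : P) :
    dl ι q (fun _ => b) x = 0 := by
  rw [dl_eq ι q contMDiff_const]
  have : cf (E := E) x (fun _ : P => b) = fun _ => b := rfl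
  rw [this]
  simp

variable {ι : Imm (E := E) P m}

lemma UC.sumMul [CompactSpace P] {I : Type*} [Fintype I] {a b : ℕ → I → P → ℝ}
    {a₀ b₀ : I → P → ℝ} (ha : ∀ i, UC (fun j => a j i) (a₀ i)) (hb : ∀ i, UC (fun j => b j i) (b₀ i))
    (hac : ∀ i, Continuous (a₀ i)) (hbc : ∀ i, Continuous (b₀ i)) :
    UC (fun j y => ∑ i, a j i y * b j i y) (fun y => ∑ i, a₀ i y * b₀ i y) := by
  refine UC.of_seq (continuous_finsetSum _ fun i _ => (hac i).mul (hbc i)) fun l hl q q₀ hq => ?_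
  exact tendsto_finsetSum _ fun i _ =>
    ((ha i).tendsto (hac i) hl hq).mul ((hb i).tendsto (hbc i) hl hq)

lemma UC.sumAdd [CompactSpace P] {I : Type*} [Fintype I] {a b a' b' : ℕ → I → P → ℝ}
    {a₀ b₀ a₀' b₀' : I → P → ℝ} (ha : ∀ i, UC (fun j => a j i) (a₀ i))
    (hb : ∀ i, UC (fun j => b j i) (b₀ i)) (ha' : ∀ i, UC (fun j => a' j i) (a₀' i))
    (hb' : ∀ i, UC (fun j => b' j i) (b₀' i))
    (hac : ∀ i, Continuous (a₀ i)) (hbc : ∀ i, Continuous (b₀ i))
    (hac' : ∀ i, Continuous (a₀' i)) (hbc' : ∀ i, Continuous (b₀' i)) :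
    UC (fun j y => ∑ i, (a' j i y * b j i y + a j i y * b' j i y))
      (fun y => ∑ i, (a₀' i y * b₀ i y + a₀ i y * b₀' i y)) := by
  refine UC.of_seq (continuous_finsetSum _ fun i _ =>
    ((hac' i).mul (hbc i)).add ((hac i).mul (hbc' i))) fun l hl q q₀ hq => ?_
  exact tendsto_finsetSum _ fun i _ =>
    (((ha' i).tendsto (hac' i) hl hq).mul ((hb i).tendsto (hbc i) hl hq)).add
      (((ha i).tendsto (hac i) hl hq).mul ((hb' i).tendsto (hbc' i) hl hq))

lemma CF.sumMul [CompactSpace P] {I : Type*} [Fintype I] {a b : ℕ → I → P → ℝ}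
    {a₀ b₀ : I → P → ℝ} (ha : ∀ i, CF ι (fun j => a j i) (a₀ i))
    (hb : ∀ i, CF ι (fun j => b j i) (b₀ i)) :
    CF ι (fun j y => ∑ i, a j i y * b j i y) (fun y => ∑ i, a₀ i y * b₀ i y) where
  sm j := contMDiff_finsetSum fun i _ => ((ha i).sm j).mul ((hb i).sm j)
  sm₀ := contMDiff_finsetSum fun i _ => ((ha i).sm₀).mul ((hb i).sm₀)
  a := UC.sumMul (fun i => (ha i).a) (fun i => (hb i).a) (fun i => (ha i).sm₀.continuous)
    (fun i => (hb i).sm₀.continuous)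
  b q := by
    have h1 := UC.sumAdd (fun i => (ha i).a) (fun i => (hb i).a) (fun i => (ha i).b q)
      (fun i => (hb i).b q) (fun i => (ha i).sm₀.continuous)
      (fun i => (hb i).sm₀.continuous) (fun i => (smooth_dl ι q (ha i).sm₀).continuous)
      (fun i => (smooth_dl ι q (hb i).sm₀).continuous)
    have e1 : (fun j => dl ι q (fun y => ∑ i, a j i y * b j i y)) =
        fun j y => ∑ i, (dl ι q (a j i) y * b j i y + a j i y * dl ι q (b j i) y) := by
      ext j y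
      exact dl_sum_mul ι q (fun i => (ha i).sm j) (fun i => (hb i).sm j) y
    have e2 : dl ι q (fun y => ∑ i, a₀ i y * b₀ i y) =
        fun y => ∑ i, (dl ι q (a₀ i) y * b₀ i y + a₀ i y * dl ι q (b₀ i) y) := by
      ext y
      exact dl_sum_mul ι q (fun i => (ha i).sm₀) (fun i => (hb i).sm₀) y
    rw [e1, e2]
    exact h1

lemma CF.sub {a b : ℕ → P → ℝ} {a₀ b₀ : P → ℝ} (ha : CF ι a a₀) (hb : CF ι b b₀) :
    CF ι (fun j y => a j y - b j y) (fun y => a₀ y - b₀ y) where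
  sm j := (ha.sm j).sub (hb.sm j)
  sm₀ := ha.sm₀.sub hb.sm₀
  a := by
    intro ε hε
    filter_upwards [ha.a (ε / 2) (by positivity), hb.a (ε / 2) (by positivity)] with j h1 h2 x
    have e1 : a j x - b j x - (a₀ x - b₀ x) = (a j x - a₀ x) - (b j x - b₀ x) := by ring
    rw [e1]
    have := abs_sub (a j x - a₀ x) (b j x - b₀ x)
    linarith [h1 x, h2 x]
  b q := by
    have e1 : (fun j => dl ι q (fun y => a j y - b j y)) =
        fun j y => dl ι q (a j) y - dl ι q (b j) y := by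
      ext j y
      exact dl_sub ι q (ha.sm j) (hb.sm j) y
    have e2 : dl ι q (fun y => a₀ y - b₀ y) = fun y => dl ι q a₀ y - dl ι q b₀ y := by
      ext y
      exact dl_sub ι q ha.sm₀ hb.sm₀ y
    rw [e1, e2]
    intro ε hε
    filter_upwards [ha.b q (ε / 2) (by positivity), hb.b q (ε / 2) (by positivity)] with j h1 h2 x
    have e1 : dl ι q (a j) x - dl ι q (b j) x - (dl ι q a₀ x - dl ι q b₀ x) =
      (dl ι q (a j) x - dl ι q a₀ x) - (dl ι q (b j) x - dl ι q b₀ x) := by ring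
    rw [e1]
    have := abs_sub (dl ι q (a j) x - dl ι q a₀ x) (dl ι q (b j) x - dl ι q b₀ x)
    linarith [h1 x, h2 x]

/-- the linear map of a matrix -/
def ml {J : Type*} [Fintype J] [DecidableEq J] (A : J → Fin m → ℝ) :
    (Fin m → ℝ) →L[ℝ] (J → ℝ) :=
  ∑ a, ∑ l, A a l • (ContinuousLinearMap.proj (R := ℝ) (φ := fun _ : Fin m => ℝ) l).smulRight
    (Pi.single a (1:ℝ) : J → ℝ)

lemma ml_apply {J : Type*} [Fintype J] [DecidableEq J] (A : J → Fin m → ℝ) (w : Fin m → ℝ)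
    (b : J) : ml A w b = ∑ l, A b l * w l := by
  unfold ml
  simp only [sum_apply, smul_apply, ContinuousLinearMap.smulRight_apply,
    ContinuousLinearMap.proj_apply, Finset.sum_apply, Pi.smul_apply, smul_eq_mul]
  rw [Finset.sum_eq_single b]
  · refine Finset.sum_congr rfl fun l _ => ?_
    rw [Pi.single_eq_same, mul_one]
  · intro a _ hab
    refine Finset.sum_eq_zero fun l _ => ?_
    rw [Pi.single_eq_of_ne (Ne.symm hab)]
    ring
  · intro h
    exact absurd (Finset.mem_univ b) h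

/-- convergence of the solutions of a system of equations with convergent coefficients -/
lemma CF.solve [CompactSpace P] {J : Type*} [Fintype J] [DecidableEq J]
    {A : ℕ → J → Fin m → P → ℝ} {A₀ : J → Fin m → P → ℝ}
    (hA : ∀ a l, CF ι (fun j => A j a l) (A₀ a l)) {r : ℕ → Fin m → P → ℝ} {r₀ : Fin m → P → ℝ}
    (hr : ∀ j l, ContMDiff 𝓘(ℝ, E) 𝓘(ℝ, ℝ) ∞ (r j l))
    (hr₀ : ∀ l, ContMDiff 𝓘(ℝ, E) 𝓘(ℝ, ℝ) ∞ (r₀ l)) {b : J → ℝ}
    (h : ∀ j a x, ∑ l, A j a l x * r j l x = b a) (h₀ : ∀ a x, ∑ l, A₀ a l x * r₀ l x = b a)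
    (hinj : ∀ x (w : Fin m → ℝ), (∀ a, ∑ l, A₀ a l x * w l = 0) → w = 0) (l : Fin m) :
    CF ι (fun j => r j l) (r₀ l) := by
  have hml : ∀ (F : Filter ℕ), F ≤ atTop → ∀ (q : ℕ → P) (q₀ : P), Tendsto q F (𝓝 q₀) →
      Tendsto (fun k => ml (fun a l => A k a l (q k))) F (𝓝 (ml (fun a l => A₀ a l q₀))) := by
    intro F hF q q₀ hq
    unfold ml
    refine tendsto_finsetSum _ fun a _ => tendsto_finsetSum _ fun l _ => ?_
    exact ((hA a l).a.tendsto (hA a l).sm₀.continuous hF hq).smul_const _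
  have hmi : ∀ q₀, Function.Injective (ml (fun a l => A₀ a l q₀)) := by
    intro q₀ v w hvw
    have h1 : ml (fun a l => A₀ a l q₀) (v - w) = 0 := by rw [map_sub, hvw, sub_self]
    have h2 := hinj q₀ (v - w) (fun a => by
      have := congrFun h1 a
      rw [ml_apply] at this
      exact this)
    exact sub_eq_zero.1 h2
  have hmr : ∀ k x, ml (fun a l => A k a l x) (fun l => r k l x) = b := by
    intro k x
    ext a
    rw [ml_apply]
    exact h k a x
  have hmr₀ : ∀ x, ml (fun a l => A₀ a l x) (fun l => r₀ l x) = b := by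
    intro x
    ext a
    rw [ml_apply]
    exact h₀ a x
  have hR : ∀ (F : Filter ℕ), F ≤ atTop → ∀ (q : ℕ → P) (q₀ : P), Tendsto q F (𝓝 q₀) →
      Tendsto (fun k => (fun l => r k l (q k) : Fin m → ℝ)) F (𝓝 (fun l => r₀ l q₀)) := by
    intro F hF q q₀ hq
    refine inj_limit (hmi q₀) (hml F hF q q₀ hq) ?_
    simp only [hmr, hmr₀]
    exact tendsto_const_nhds
  have hRl : ∀ (F : Filter ℕ), F ≤ atTop → ∀ (q : ℕ → P) (q₀ : P), Tendsto q F (𝓝 q₀) → ∀ l,
      Tendsto (fun k => r k l (q k)) F (𝓝 (r₀ l q₀)) := fun F hF q q₀ hq l =>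
    (tendsto_pi_nhds.1 (hR F hF q q₀ hq)) l
  -- the differentiated system
  have hd : ∀ k s x, ml (fun a l => A k a l x) (fun l => dl ι s (r k l) x) =
      fun a => - ∑ l, dl ι s (A k a l) x * r k l x := by
    intro k s x
    ext a
    rw [ml_apply, eq_neg_iff_add_eq_zero, ← Finset.sum_add_distrib]
    have h1 := dl_sum_mul ι s (fun l => (hA a l).sm k) (fun l => hr k l) x
    have h2 : (fun y => ∑ l, A k a l y * r k l y) = fun _ => b a := by
      ext y
      exact h k a y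
    rw [h2, dl_const] at h1
    rw [h1]
    exact Finset.sum_congr rfl fun l _ => by ring
  have hd₀ : ∀ s x, ml (fun a l => A₀ a l x) (fun l => dl ι s (r₀ l) x) =
      fun a => - ∑ l, dl ι s (A₀ a l) x * r₀ l x := by
    intro s x
    ext a
    rw [ml_apply, eq_neg_iff_add_eq_zero, ← Finset.sum_add_distrib]
    have h1 := dl_sum_mul ι s (fun l => (hA a l).sm₀) (fun l => hr₀ l) x
    have h2 : (fun y => ∑ l, A₀ a l y * r₀ l y) = fun _ => b a := by
      ext y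
      exact h₀ a y
    rw [h2, dl_const] at h1
    rw [h1]
    exact Finset.sum_congr rfl fun l _ => by ring
  refine ⟨fun k => hr k l, hr₀ l, UC.of_seq (hr₀ l).continuous fun F hF q q₀ hq =>
    hRl F hF q q₀ hq l, fun s => UC.of_seq (smooth_dl ι s (hr₀ l)).continuous
      fun F hF q q₀ hq => ?_⟩
  have h3 : Tendsto (fun k => (fun l => dl ι s (r k l) (q k) : Fin m → ℝ)) F
      (𝓝 (fun l => dl ι s (r₀ l) q₀)) := by
    refine inj_limit (hmi q₀) (hml F hF q q₀ hq) ?_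
    simp only [hd, hd₀]
    refine tendsto_pi_nhds.2 fun a => ?_
    refine (tendsto_finsetSum _ fun l _ => ?_).neg
    exact (((hA a l).b s).tendsto (smooth_dl ι s (hA a l).sm₀).continuous hF hq).mul
      (hRl F hF q q₀ hq l)
  exact (tendsto_pi_nhds.1 h3) l

end Pool.Agent.J4H20.ST
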