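import Mathlib
import Pool.Agent.J4H20.ST.St11

/-! The Reeb fields converge in `C¹` if the contact forms converge in `C²`. -/

open scoped Topology ContDiff Manifold
open Set Metric Bundle Filter Pool.Agent.Helper186 Pool.Agent.H826R2.Wein Pool.Agent.W671.WU

noncomputable section

namespace Pool.Agent.J4H20.ST

set_option linter.unusedSectionVars false

universe u

variable {E : Type u} [NormedAddCommGroup E] [NormedSpace ℝ E] [FiniteDimensional ℝ E]
  {P : Type*} [TopologicalSpace P] [ChartedSpace E P] [IsManifold 𝓘(ℝ, E) ∞ P] {m : ℕ}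

/-- the equations of the Reeb field -/
def sysA (ι : Imm (E := E) P m) (f : Fin m → P → ℝ) : Fin m ⊕ (Unit ⊕ Fin m) → Fin m → P → ℝ
  | Sum.inl k, l => fun x =>
      (∑ i, dl ι k (f i) x * dl ι l (gc ι i) x) - ∑ i, dl ι l (f i) x * dl ι k (gc ι i) x
  | Sum.inr (Sum.inl _), l => f l
  | Sum.inr (Sum.inr i), l => fun x => dl ι l (gc ι i) x - if i = l then 1 else 0

lemma co_comb (ι : Imm (E := E) P m) (x : P) (w : Fin m → ℝ) (i : Fin m) :
    co ι x (∑ l, w l • fr ι l x) i = ∑ l, dl ι l (gc ι i) x * w l := by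
  unfold co
  rw [map_sum]
  refine Finset.sum_congr rfl fun l _ => ?_
  rw [map_smul, smul_eq_mul, mul_comm]
  rfl

lemma extDer_fr (ι : Imm (E := E) P m) {β : (x : P) → TangentSpace 𝓘(ℝ, E) x →L[ℝ] ℝ}
    (hβ : SmoothForm β) (x : P) (u v : TangentSpace 𝓘(ℝ, E) x) :
    extDer 𝓘(ℝ, E) β x u v = (∑ i, dForm 𝓘(ℝ, E) (fF ι β i) x u * dForm 𝓘(ℝ, E) (gc ι i) x v) -
      ∑ i, dForm 𝓘(ℝ, E) (fF ι β i) x v * dForm 𝓘(ℝ, E) (gc ι i) x u := by
  rw [extDer_rep (smooth_fF ι hβ) (fun i => smooth_gc ι i) (rep_fF ι β) x u v,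
    Finset.sum_sub_distrib]
  have e1 : ∀ {h : P → ℝ} (_ : ContMDiff 𝓘(ℝ, E) 𝓘(ℝ, ℝ) ∞ h) (u : TangentSpace 𝓘(ℝ, E) x),
      fderiv ℝ (cf x h) (extChartAt 𝓘(ℝ, E) x x) u = dForm 𝓘(ℝ, E) h x u := fun hh u =>
    fderiv_cf_self x hh u
  congr 1
  · refine Finset.sum_congr rfl fun i _ => ?_
    rw [e1 (smooth_fF ι hβ i), e1 (smooth_gc ι i)]
  · refine Finset.sum_congr rfl fun i _ => ?_
    rw [e1 (smooth_fF ι hβ i), e1 (smooth_gc ι i)]

lemma sys_co (ι : Imm (E := E) P m) {β : (x : P) → TangentSpace 𝓘(ℝ, E) x →L[ℝ] ℝ}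
    (hβ : SmoothForm β) (x : P) (v : TangentSpace 𝓘(ℝ, E) x) (k : Fin m) :
    ∑ l, sysA ι (fF ι β) (Sum.inl k) l x * co ι x v l = extDer 𝓘(ℝ, E) β x (fr ι k x) v := by
  rw [extDer_fr ι hβ]
  have e1 : ∀ i, dForm 𝓘(ℝ, E) (gc ι i) x v = ∑ l, dl ι l (gc ι i) x * co ι x v l := by
    intro i
    rw [dForm_frame ι (gc ι i) x v]
    exact Finset.sum_congr rfl fun l _ => by rw [mul_comm]; rfl
  have e2 : ∀ i, dForm 𝓘(ℝ, E) (fF ι β i) x v = ∑ l, dl ι l (fF ι β i) x * co ι x v l := by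
    intro i
    rw [dForm_frame ι (fF ι β i) x v]
    exact Finset.sum_congr rfl fun l _ => by rw [mul_comm]; rfl
  simp only [e1, e2, sysA, sub_mul, Finset.sum_sub_distrib]
  congr 1
  · simp only [Finset.sum_mul, Finset.mul_sum]
    rw [Finset.sum_comm]
    refine Finset.sum_congr rfl fun i _ => Finset.sum_congr rfl fun l _ => ?_
    rw [mul_assoc]
    rfl
  · simp only [Finset.sum_mul]
    rw [Finset.sum_comm]
    refine Finset.sum_congr rfl fun i _ => Finset.sum_congr rfl fun l _ => ?_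
    have : dForm 𝓘(ℝ, E) (gc ι i) x (fr ι k x) = dl ι k (gc ι i) x := rfl
    rw [this]
    ring

lemma sys_two (ι : Imm (E := E) P m) (β : (x : P) → TangentSpace 𝓘(ℝ, E) x →L[ℝ] ℝ) (x : P)
    (v : TangentSpace 𝓘(ℝ, E) x) (a : Unit) :
    ∑ l, sysA ι (fF ι β) (Sum.inr (Sum.inl a)) l x * co ι x v l = β x v := by
  rw [rep_fF ι β x v]
  rfl

lemma sys_three (ι : Imm (E := E) P m) (f : Fin m → P → ℝ) (x : P) (w : Fin m → ℝ) (i : Fin m) :
    ∑ l, sysA ι f (Sum.inr (Sum.inr i)) l x * w l = co ι x (∑ l, w l • fr ι l x) i - w i := by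
  rw [co_comb]
  simp only [sysA, sub_mul, Finset.sum_sub_distrib, ite_mul, one_mul, zero_mul,
    Finset.sum_ite_eq, Finset.mem_univ, if_true]

/-- `C²` convergence of contact forms gives `C¹` convergence of the Reeb fields -/
theorem cv_of_forms [T2Space P] [CompactSpace P] (ι : Imm (E := E) P m)
    {β : (x : P) → TangentSpace 𝓘(ℝ, E) x →L[ℝ] ℝ} {R : (x : P) → TangentSpace 𝓘(ℝ, E) x}
    {βj : ℕ → (x : P) → TangentSpace 𝓘(ℝ, E) x →L[ℝ] ℝ}
    {Rj : ℕ → (x : P) → TangentSpace 𝓘(ℝ, E) x}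
    (c : CD β R) (cj : ∀ j, CD (βj j) (Rj j))
    (hf : ∀ i, CF ι (fun j => fF ι (βj j) i) (fF ι β i))
    (hf2 : ∀ i l, CF ι (fun j => dl ι l (fF ι (βj j) i)) (dl ι l (fF ι β i))) : CV ι R Rj := by
  have hg : ∀ i l, CF ι (fun _ => dl ι l (gc ι i)) (dl ι l (gc ι i)) := fun i l =>
    CF.const _ (smooth_dl ι l (smooth_gc ι i))
  have hA : ∀ a l, CF ι (fun j => sysA ι (fF ι (βj j)) a l) (sysA ι (fF ι β) a l) := by
    rintro (k | a | i) l
    · exact (CF.sumMul (fun i => hf2 i k) (fun i => hg i l)).sub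
        (CF.sumMul (fun i => hf2 i l) (fun i => hg i k))
    · exact hf l
    · exact (hg i l).sub (CF.const _ contMDiff_const)
  let b : Fin m ⊕ (Unit ⊕ Fin m) → ℝ
    | Sum.inl _ => 0
    | Sum.inr (Sum.inl _) => 1
    | Sum.inr (Sum.inr _) => 0
  have hsys : ∀ {β : (x : P) → TangentSpace 𝓘(ℝ, E) x →L[ℝ] ℝ}
      {R : (x : P) → TangentSpace 𝓘(ℝ, E) x} (_ : CD β R) (a : Fin m ⊕ (Unit ⊕ Fin m)) (x : P),
      ∑ l, sysA ι (fF ι β) a l x * ac ι R l x = b a := by
    intro β R c a x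
    rcases a with k | a | i
    · have h1 := sys_co ι c.contact.smooth x (R x) k
      rw [extDer_antisymm, c.reeb.kernel, neg_zero] at h1
      exact h1
    · have h1 := sys_two ι β x (R x) a
      rw [c.reeb.unit] at h1
      exact h1
    · have h1 := sys_three ι (fF ι β) x (fun l => ac ι R l x) i
      rw [h1]
      have h2 : (∑ l, ac ι R l x • fr ι l x) = R x := frame ι x (R x)
      rw [h2]
      exact sub_self _
  have hsol := CF.solve (J := Fin m ⊕ (Unit ⊕ Fin m)) (b := b) hA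
    (r := fun j l => ac ι (Rj j) l) (r₀ := fun l => ac ι R l)
    (fun j l => smooth_ac ι (smooth_reeb (cj j)) l) (fun l => smooth_ac ι (smooth_reeb c) l)
    (fun j a x => hsys (cj j) a x) (fun a x => hsys c a x) (fun x w hw => by
      set v : TangentSpace 𝓘(ℝ, E) x := ∑ l, w l • fr ι l x with hv
      have h1 : ∀ i, co ι x v i = w i := by
        intro i
        have := hw (Sum.inr (Sum.inr i))
        rw [sys_three] at this
        exact sub_eq_zero.1 this
      have h2 : β x v = 0 := by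
        have := hw (Sum.inr (Sum.inl ()))
        rw [← sys_two ι β x v ()]
        simpa only [h1] using this
      have h3 : ∀ k, extDer 𝓘(ℝ, E) β x (fr ι k x) v = 0 := by
        intro k
        have := hw (Sum.inl k)
        rw [← sys_co ι c.contact.smooth x v k]
        simpa only [h1] using this
      have h4 : ∀ u, extDer 𝓘(ℝ, E) β x v u = 0 := by
        intro u
        rw [extDer_antisymm]
        have h5 : extDer 𝓘(ℝ, E) β x u v = ∑ k, co ι x u k * extDer 𝓘(ℝ, E) β x (fr ι k x) v := by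
          rw [extDer_fr ι c.contact.smooth]
          simp only [extDer_fr ι c.contact.smooth, mul_sub, Finset.sum_sub_distrib]
          congr 1
          · simp only [Finset.mul_sum]
            rw [Finset.sum_comm]
            refine Finset.sum_congr rfl fun i _ => ?_
            rw [dForm_frame ι (fF ι β i) x u, Finset.sum_mul]
            exact Finset.sum_congr rfl fun k _ => by ring
          · simp only [Finset.mul_sum]
            rw [Finset.sum_comm]
            refine Finset.sum_congr rfl fun i _ => ?_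
            rw [dForm_frame ι (gc ι i) x u, Finset.mul_sum]
            exact Finset.sum_congr rfl fun k _ => by ring
        rw [h5]
        simp [h3]
      have h5 : v = 0 := c.contact.nondeg x v h2 fun u _ => h4 u
      ext i
      rw [← h1 i, h5]
      show co ι x 0 i = 0
      exact map_zero (dForm 𝓘(ℝ, E) (gc ι i) x))
  exact ⟨fun i => (hsol i).a, fun i l => (hsol i).b l⟩

end Pool.Agent.J4H20.ST
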