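import Mathlib
import Pool.Agent.J4H20.ST.Defs
import Pool.Agent.J4H20.ST.St10

/-! Stability of closed orbits near transversely recurrent flows of contact type: the statement in
terms of the elementary definitions. -/

open scoped Topology ContDiff Manifold
open Set Filter MeasureTheory Pool.Agent.Helper186 Pool.Agent.H826R2 Pool.Agent.H826R2.WStmt
  Pool.Agent.W671.RStmt Pool.Agent.J4H20.ST

noncomputable section

set_option linter.unusedSectionVars false

namespace Pool.Agent.J4H20.STStmt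

universe u

variable {E : Type u} [NormedAddCommGroup E] [NormedSpace ℝ E] [FiniteDimensional ℝ E]
  {M : Type*} [TopologicalSpace M] [ChartedSpace E M] [IsManifold 𝓘(ℝ, E) ∞ M]
  {F : Type*} [NormedAddCommGroup F] [NormedSpace ℝ F]

lemma uc_of {u : ℕ → M → ℝ} {v : M → ℝ} (h : TendstoUniformly u v atTop) : UC u v := by
  intro ε hε
  filter_upwards [Metric.tendstoUniformly_iff.1 h ε hε] with j hj x
  have := hj x
  rwa [dist_comm, Real.dist_eq] at this

lemma cf_of {m : ℕ} (ι : Wein.Imm (E := E) M m) {u : ℕ → M → ℝ} {v : M → ℝ} (h : TendsToC1 E u v)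
    (hu : ∀ j, ContMDiff 𝓘(ℝ, E) 𝓘(ℝ, ℝ) ∞ (u j)) (hv : ContMDiff 𝓘(ℝ, E) 𝓘(ℝ, ℝ) ∞ v) :
    CF ι u v :=
  ⟨hu, hv, uc_of h.unif, fun l => uc_of (h.deriv (fun x => fr ι l x) (smooth_fr ι l))⟩

lemma cf_form {m : ℕ} (ι : Wein.Imm (E := E) M m) {α : M → Cov E} (hα : IsContact α)
    {α' : ℕ → M → Cov E} (hα' : ∀ j, IsContact (α' j)) (h : FormsTendToC1 α' α) (i : Fin m) :
    CF ι (fun j => fF ι (toForm (α' j)) i) (fF ι (toForm α) i) :=
  cf_of ι (h (fun x => fr ι i x) (smooth_fr ι i))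
    (fun j => smooth_fF ι (hα' j).toWein.smooth i) (smooth_fF ι hα.toWein.smooth i)

lemma cv_field {m : ℕ} (ι : Wein.Imm (E := E) M m) {R : M → E} {R' : ℕ → M → E}
    (h : FieldsTendToC1 R' R) :
    CV ι (fun x => (R x : TangentSpace 𝓘(ℝ, E) x))
      (fun j x => (R' j x : TangentSpace 𝓘(ℝ, E) x)) :=
  ⟨fun i => uc_of (h (gc ι i) (smooth_gc ι i)).unif,
    fun i l => uc_of ((h (gc ι i) (smooth_gc ι i)).deriv (fun x => fr ι l x) (smooth_fr ι l))⟩

/-- **Stability of closed orbits.** -/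
theorem stable [T2Space M] [CompactSpace M] [Nonempty M]
    (hdim : 1 < Module.finrank ℝ E)
    (α : M → Cov E) (hα : IsContact α) (R : M → E) (hR : IsReeb α R)
    (h : M → ℝ) (hh : ContMDiff 𝓘(ℝ, E) 𝓘(ℝ, ℝ) ∞ h) (hpos : ∀ x, 0 < h x)
    (Φ : M → ℝ → M) (hΦ : IsFlow (fun x => h x • R x) Φ)
    (e : M → F) (he : IsInjImmersion (E := E) e) (τ : ℕ → M → ℝ)
    (hτ : Recurrent e (fun x => h x • R x) Φ τ)
    (α' : ℕ → M → Cov E) (hα' : ∀ j, IsContact (α' j)) (R' : ℕ → M → E)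
    (hR' : ∀ j, IsReeb (α' j) (R' j)) (hf : FormsTendToC1 α' α)
    (hr : ∀ (m : ℕ) (ι : Wein.Imm (E := E) M m), CV ι (fun x => (R x : TangentSpace 𝓘(ℝ, E) x))
      (fun j x => (R' j x : TangentSpace 𝓘(ℝ, E) x))) :
    ∀ᶠ j in atTop, ∃ (c₁ c₂ : ℝ → M) (T₁ T₂ : ℝ), IsPeriodicOrbit (R' j) c₁ T₁ ∧
      IsPeriodicOrbit (R' j) c₂ T₂ ∧ Disjoint (range c₁) (range c₂) := by
  have : IsManifold 𝓘(ℝ, E) 1 M := IsManifold.of_le (n := ∞) (by simp)
  have c : Wein.CD (toForm α) (fun x => (R x : TangentSpace 𝓘(ℝ, E) x)) := ⟨hα.toWein, hR.toWein⟩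
  have cj : ∀ j, Wein.CD (toForm (α' j)) (fun x => (R' j x : TangentSpace 𝓘(ℝ, E) x)) :=
    fun j => ⟨(hα' j).toWein, (hR' j).toWein⟩
  have hRs := Pool.Agent.W671.WU.smooth_reeb c
  have hRjs := fun j => Pool.Agent.W671.WU.smooth_reeb (cj j)
  have hXs := Pool.Agent.W671.WU.smooth_smul hh hRs
  have hΦs := contMDiff_flow hXs hΦ.zero hΦ.integral
  -- the minimum of `h`
  obtain ⟨x₁, -, hx₁⟩ := (isCompact_univ (X := M)).exists_isMinOn univ_nonempty
    hh.continuous.continuousOn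
  have hhm : ∀ x, h x₁ ≤ h x := fun x => hx₁ (mem_univ x)
  -- the Reeb flows
  choose Fl hF0 hF using fun x : M => Wein.complete_of_compact hRs isCompact_univ
    (fun y hy => absurd (mem_univ y) hy) x
  choose Flj hFj0 hFj using fun (j : ℕ) (x : M) => Wein.complete_of_compact (hRjs j) isCompact_univ
    (fun y hy => absurd (mem_univ y) hy) x
  have hRF := Pool.Agent.W671.WU.RF.of c hF0 hF
  have hRFj := fun j => Pool.Agent.W671.WU.RF.of (cj j) (hFj0 j) (hFj j)
  have htc := fun x => Pool.Agent.W671.WU.time_change hRs hh (hpos x₁) hhm hΦ.zero hΦ.integral hF0 hF x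
  have hk : ContMDiff (𝓘(ℝ, ℝ).prod 𝓘(ℝ, E)) 𝓘(ℝ, ℝ) ∞ (fun p : ℝ × M => h (Φ p.2 p.1)) :=
    hh.comp (hΦs.comp (contMDiff_snd.prodMk contMDiff_fst))
  have hTs : ∀ s, ContMDiff 𝓘(ℝ, E) 𝓘(ℝ, ℝ) ∞ (fun x => ∫ r in (0:ℝ)..s, h (Φ x r)) := fun s =>
    contMDiff_paramInt hk s
  obtain ⟨c₀, hc₀, hc₀'⟩ := hτ.lower
  obtain ⟨C, hC⟩ := hτ.deriv
  -- the embedding
  obtain ⟨m, e₀, he₀, hemb₀, hinj₀⟩ :=
    exists_embedding_euclidean_of_compact (I := 𝓘(ℝ, E)) (M := M)
  let ι : Wein.Imm (E := E) M m := ⟨e₀, he₀, hinj₀⟩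
  have hinj : Function.Injective ι.F := hemb₀.injective
  have hst := stable_core (F := F) hdim (ι := ι) hinj c hRF cj hRFj
    (fun i => cf_form ι hα hα' hf i) (hr m ι) he.smooth he.injective he.immersion
    (τ := fun k x => ∫ r in (0:ℝ)..(τ k x), h (Φ x r)) (c₀ := c₀ * h x₁) (C := C)
    (fun k => by
      refine intervalIntegral.continuous_parametric_intervalIntegral_of_continuous
        (f := fun x r => h (Φ x r)) ?_ (hτ.cont k)
      exact hh.continuous.comp hΦs.continuous)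
    (mul_pos hc₀ (hpos x₁))
    (fun k x => by
      have h1 : ∀ r ∈ Icc 0 (τ k x), h x₁ ≤ h (Φ x r) := fun r _ => hhm _
      have h0 : 0 ≤ τ k x := hc₀.le.trans (hc₀' k x)
      have h2 := intervalIntegral.integral_mono_on (μ := volume) h0
        (f := fun _ => h x₁) (g := fun r => h (Φ x r))
        intervalIntegrable_const
        ((hh.continuous.comp (hΦ.integral x).continuous).intervalIntegrable _ _) h1
      rw [intervalIntegral.integral_const, smul_eq_mul, sub_zero] at h2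
      refine le_trans ?_ h2
      exact mul_le_mul_of_nonneg_right (hc₀' k x) (hpos x₁).le)
    (fun ε hε => by
      filter_upwards [hτ.uniform ε hε] with k hk x
      have := hk x
      rw [(htc x).1] at this
      exact this)
    (by
      filter_upwards [hC] with k hk x
      obtain ⟨lam, hlam⟩ := hk x
      obtain ⟨b, hb⟩ := Pool.Agent.W671.WU.deriv_time_change
        (R := fun x => (R x : TangentSpace 𝓘(ℝ, E) x))
        hRF.smooth hF (hTs (τ k x)) (s := τ k x) (Φ := Φ) (fun y => (htc y).1 _) x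
      refine ⟨b + h (Φ x (τ k x)) • lam, fun v => ?_⟩
      have ha := hlam v
      have e1 : D (E := E) (E' := E) (fun y => Φ y (τ k x)) x v =
          Pool.Agent.W671.WU.dm E (fun y => Φ y (τ k x)) x v := rfl
      rw [e1, hb v] at ha
      have e2 : Fl x (∫ r in (0:ℝ)..(τ k x), h (Φ x r)) = Φ x (τ k x) := ((htc x).1 _).symm
      rw [e2] at ha ⊢
      have e3 : D (E := E) (E' := F) e (Φ x (τ k x))
          (Pool.Agent.W671.WU.dm E (fun y => Fl y (∫ r in (0:ℝ)..(τ k x), h (Φ x r))) x v +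
            b v • R (Φ x (τ k x)) + lam v • h (Φ x (τ k x)) • R (Φ x (τ k x))) =
          Pool.Agent.W671.WU.dv E e (Φ x (τ k x))
            (Pool.Agent.W671.WU.dm E (fun y => Fl y (∫ r in (0:ℝ)..(τ k x), h (Φ x r))) x v) +
            (b + h (Φ x (τ k x)) • lam) v •
              Pool.Agent.W671.WU.dv E e (Φ x (τ k x)) (R (Φ x (τ k x))) := by
        have e4 : (b + h (Φ x (τ k x)) • lam) v = b v + lam v * h (Φ x (τ k x)) := by
          rw [add_apply, smul_apply, smul_eq_mul]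
          ring
        rw [smul_smul, add_assoc, ← add_smul, map_add, map_smul, e4]
        rfl
      exact ⟨by rw [← e3]; exact ha.1, by rw [← e3]; exact ha.2⟩)
  filter_upwards [hst] with j hj
  obtain ⟨y₁, T₁, y₂, T₂, hT₁, hT₂, e₁, e₂, hdis⟩ := hj
  have hmk : ∀ y T, 0 < T → Flj j y T = y → IsPeriodicOrbit (R' j) (Flj j y) T := by
    intro y T hT hy
    refine ⟨hT, hFj j y, fun t => ?_⟩
    rw [add_comm, flow_add (hRjs j) (hFj0 j) (hFj j), hy]
  refine ⟨Flj j y₁, Flj j y₂, T₁, T₂, hmk _ _ hT₁ e₁, hmk _ _ hT₂ e₂, ?_⟩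
  rw [Set.disjoint_left]
  rintro _ ⟨u, rfl⟩ ⟨v, hv⟩
  exact hdis _ _ hv.symm

end Pool.Agent.J4H20.STStmt
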