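import Mathlib
import Pool.Agent.J4H20.ST.St11b
import Pool.Agent.J4H20.ST.St12

/-! Stability of closed orbits near transversely recurrent flows of contact type. -/

open scoped Topology ContDiff Manifold
open Set Filter MeasureTheory Pool.Agent.Helper186 Pool.Agent.H826R2 Pool.Agent.H826R2.WStmt
  Pool.Agent.W671.RStmt Pool.Agent.J4H20.ST

noncomputable section

set_option linter.unusedSectionVars false

namespace Pool.Agent.J4H20.STStmt

universe u

variable {E : Type u} [NormedAddCommGroup E] [NormedSpace ℝ E] [FiniteDimensional ℝ E]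
  {M : Type*} [TopologicalSpace M] [ChartedSpace E M] [IsManifold 𝓘(ℝ, E) ∞ M]
  {F : Type*} [NormedAddCommGroup F] [NormedSpace ℝ F]

lemma cv_of_C2 [T2Space M] [CompactSpace M] {m : ℕ} (ι : Wein.Imm (E := E) M m)
    {α : M → Cov E} (hα : IsContact α) {R : M → E} (hR : IsReeb α R)
    {α' : ℕ → M → Cov E} (hα' : ∀ j, IsContact (α' j)) {R' : ℕ → M → E}
    (hR' : ∀ j, IsReeb (α' j) (R' j)) (h : FormsTendToC2 α' α) :
    CV ι (fun x => (R x : TangentSpace 𝓘(ℝ, E) x))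
      (fun j x => (R' j x : TangentSpace 𝓘(ℝ, E) x)) := by
  refine cv_of_forms ι (β := toForm α) (βj := fun j => toForm (α' j)) ⟨hα.toWein, hR.toWein⟩
    (fun j => ⟨(hα' j).toWein, (hR' j).toWein⟩) (fun i => cf_form ι hα hα' h.1 i) fun i l => ?_
  exact cf_of ι (h.2 (fun x => fr ι i x) (smooth_fr ι i) (fun x => fr ι l x) (smooth_fr ι l))
    (fun j => smooth_dl ι l (smooth_fF ι (hα' j).toWein.smooth i))
    (smooth_dl ι l (smooth_fF ι hα.toWein.smooth i))

/-- **Stability of closed orbits.** -/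
theorem stable' [T2Space M] [CompactSpace M] [Nonempty M]
    (hdim : 1 < Module.finrank ℝ E)
    (α : M → Cov E) (hα : IsContact α) (R : M → E) (hR : IsReeb α R)
    (h : M → ℝ) (hh : ContMDiff 𝓘(ℝ, E) 𝓘(ℝ, ℝ) ∞ h) (hpos : ∀ x, 0 < h x)
    (Φ : M → ℝ → M) (hΦ : IsFlow (fun x => h x • R x) Φ)
    (e : M → F) (he : IsInjImmersion (E := E) e) (τ : ℕ → M → ℝ)
    (hτ : Recurrent e (fun x => h x • R x) Φ τ)
    (α' : ℕ → M → Cov E) (hα' : ∀ j, IsContact (α' j)) (R' : ℕ → M → E)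
    (hR' : ∀ j, IsReeb (α' j) (R' j))
    (hconv : FormsTendToC2 α' α ∨ (FormsTendToC1 α' α ∧ FieldsTendToC1 R' R)) :
    ∀ᶠ j in atTop, ∃ (c₁ c₂ : ℝ → M) (T₁ T₂ : ℝ), IsPeriodicOrbit (R' j) c₁ T₁ ∧
      IsPeriodicOrbit (R' j) c₂ T₂ ∧ Disjoint (range c₁) (range c₂) := by
  rcases hconv with h2 | ⟨h1, h3⟩
  · exact stable hdim α hα R hR h hh hpos Φ hΦ e he τ hτ α' hα' R' hR' h2.1
      (fun m ι => cv_of_C2 ι hα hR hα' hR' h2)
  · exact stable hdim α hα R hR h hh hpos Φ hΦ e he τ hτ α' hα' R' hR' h1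
      (fun m ι => cv_field ι h3)

end Pool.Agent.J4H20.STStmt
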