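import Mathlib
import Pool.Agent.J4H20.ST.St13

/-! Closed orbits from one approximate return, uniformly for convergent sequences of contact
forms. -/

open scoped Topology ContDiff Manifold
open Set Filter MeasureTheory Pool.Agent.Helper186 Pool.Agent.H826R2 Pool.Agent.H826R2.WStmt
  Pool.Agent.W671.RStmt Pool.Agent.J4H20.ST

noncomputable section

set_option linter.unusedSectionVars false

namespace Pool.Agent.J4H20.STStmt

universe u

section

variable {E : Type*} [NormedAddCommGroup E] [NormedSpace ℝ E]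
  {M : Type*} [TopologicalSpace M] [ChartedSpace E M]
  {F : Type*} [NormedAddCommGroup F] [NormedSpace ℝ F]

/-- The flows `Φ j` of the vector fields `X j` return to the identity transversely: there are return
times, which are continuous functions `τ j` on `M` bounded from below by a positive constant, such
that the return maps `x ↦ Φ j x (τ j x)` converge uniformly to the identity and such that, for large
`j` and every `x`, with `t = τ j x` and `y = Φ j x t`, the derivative of the time `t` map of `X j` at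
`x` is, after the addition of a multiple `v ↦ lam v • X j y` of `X j` (with a linear form `lam`),
bounded by a constant `C` and bounded away from `-1` by `1 / C`; lengths are measured by means of
`e`. -/
structure Returning (e : M → F) (X : ℕ → M → E) (Φ : ℕ → M → ℝ → M) (τ : ℕ → M → ℝ) : Prop where
  cont : ∀ j, Continuous (τ j)
  lower : ∃ c > 0, ∀ j x, c ≤ τ j x
  uniform : ∀ ε > 0, ∀ᶠ j in atTop, ∀ x, ‖e (Φ j x (τ j x)) - e x‖ < ε
  deriv : ∃ C : ℝ, ∀ᶠ j in atTop, ∀ x : M, ∃ lam : E →L[ℝ] ℝ, ∀ v : E,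
    ‖D (E := E) (E' := F) e (Φ j x (τ j x))
        (D (E := E) (E' := E) (fun y => Φ j y (τ j x)) x v + lam v • X j (Φ j x (τ j x)))‖ ≤
      C * ‖D (E := E) (E' := F) e x v‖ ∧
    ‖D (E := E) (E' := F) e x v‖ ≤ C * ‖D (E := E) (E' := F) e (Φ j x (τ j x))
        (D (E := E) (E' := E) (fun y => Φ j y (τ j x)) x v + lam v • X j (Φ j x (τ j x))) +
      D (E := E) (E' := F) e x v‖

end

variable {E : Type u} [NormedAddCommGroup E] [NormedSpace ℝ E] [FiniteDimensional ℝ E]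
  {M : Type*} [TopologicalSpace M] [ChartedSpace E M] [IsManifold 𝓘(ℝ, E) ∞ M]
  {F : Type*} [NormedAddCommGroup F] [NormedSpace ℝ F]

/-- from the flow of `h R` to the flow of `R` -/
lemma time_change_all [T2Space M] [CompactSpace M]
    {α : M → Cov E} (hα : IsContact α) {R : M → E} (hR : IsReeb α R)
    {h : M → ℝ} (hh : ContMDiff 𝓘(ℝ, E) 𝓘(ℝ, ℝ) ∞ h) {c₁ : ℝ} (hc₁ : 0 < c₁)
    (hpos : ∀ x, c₁ ≤ h x) {Φ : M → ℝ → M} (hΦ : IsFlow (fun x => h x • R x) Φ)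
    {Fl : M → ℝ → M} (hF0 : ∀ x, Fl x 0 = x)
    (hF : ∀ x, IsMIntegralCurve (I := 𝓘(ℝ, E)) (Fl x)
      (fun y => (R y : TangentSpace 𝓘(ℝ, E) y)))
    {e : M → F} {τ : M → ℝ} (hτ : Continuous τ) {c₀ : ℝ} (hc₀ : 0 < c₀) (hτc : ∀ x, c₀ ≤ τ x) :
    Continuous (fun x => ∫ r in (0:ℝ)..(τ x), h (Φ x r)) ∧
    (∀ x, c₀ * c₁ ≤ ∫ r in (0:ℝ)..(τ x), h (Φ x r)) ∧
    (∀ x, Φ x (τ x) = Fl x (∫ r in (0:ℝ)..(τ x), h (Φ x r))) ∧
    (∀ C : ℝ, (∀ x : M, ∃ lam : E →L[ℝ] ℝ, ∀ v : E,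
      ‖D (E := E) (E' := F) e (Φ x (τ x))
        (D (E := E) (E' := E) (fun y => Φ y (τ x)) x v + lam v • h (Φ x (τ x)) • R (Φ x (τ x)))‖ ≤
        C * ‖D (E := E) (E' := F) e x v‖ ∧
      ‖D (E := E) (E' := F) e x v‖ ≤ C * ‖D (E := E) (E' := F) e (Φ x (τ x))
        (D (E := E) (E' := E) (fun y => Φ y (τ x)) x v + lam v • h (Φ x (τ x)) • R (Φ x (τ x))) +
        D (E := E) (E' := F) e x v‖) →
      Mod E e (fun x => (R x : TangentSpace 𝓘(ℝ, E) x)) Fl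
        (fun x => ∫ r in (0:ℝ)..(τ x), h (Φ x r)) C) ∧
    (∀ y T, 0 < T → Fl y T = y → ∃ s, IsPeriodicOrbit (fun x => h x • R x) (Φ y) s) ∧
    (∀ x s, ∃ t, Φ x s = Fl x t) := by
  have : IsManifold 𝓘(ℝ, E) 1 M := IsManifold.of_le (n := ∞) (by simp)
  have c : Wein.CD (toForm α) (fun x => (R x : TangentSpace 𝓘(ℝ, E) x)) := ⟨hα.toWein, hR.toWein⟩
  have hRs := Pool.Agent.W671.WU.smooth_reeb c
  have hXs := Pool.Agent.W671.WU.smooth_smul hh hRs
  have hΦs := contMDiff_flow hXs hΦ.zero hΦ.integral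
  have hRF := Pool.Agent.W671.WU.RF.of c hF0 hF
  have htc := fun x => Pool.Agent.W671.WU.time_change hRs hh hc₁ hpos hΦ.zero hΦ.integral hF0 hF x
  have hk : ContMDiff (𝓘(ℝ, ℝ).prod 𝓘(ℝ, E)) 𝓘(ℝ, ℝ) ∞ (fun p : ℝ × M => h (Φ p.2 p.1)) :=
    hh.comp (hΦs.comp (contMDiff_snd.prodMk contMDiff_fst))
  have hTs : ∀ s, ContMDiff 𝓘(ℝ, E) 𝓘(ℝ, ℝ) ∞ (fun x => ∫ r in (0:ℝ)..s, h (Φ x r)) := fun s =>
    contMDiff_paramInt hk s
  refine ⟨?_, fun x => ?_, fun x => (htc x).1 _, fun C hC x => ?_, fun y T hT hy => ?_,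
    fun x s => ⟨_, (htc x).1 s⟩⟩
  · refine intervalIntegral.continuous_parametric_intervalIntegral_of_continuous
      (f := fun x r => h (Φ x r)) ?_ hτ
    exact hh.continuous.comp hΦs.continuous
  · have h1 : ∀ r ∈ Icc 0 (τ x), c₁ ≤ h (Φ x r) := fun r _ => hpos _
    have h0 : 0 ≤ τ x := hc₀.le.trans (hτc x)
    have h2 := intervalIntegral.integral_mono_on (μ := volume) h0
      (f := fun _ => c₁) (g := fun r => h (Φ x r))
      intervalIntegrable_const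
      ((hh.continuous.comp (hΦ.integral x).continuous).intervalIntegrable _ _) h1
    rw [intervalIntegral.integral_const, smul_eq_mul, sub_zero] at h2
    refine le_trans ?_ h2
    exact mul_le_mul_of_nonneg_right (hτc x) hc₁.le
  · obtain ⟨lam, hlam⟩ := hC x
    obtain ⟨b, hb⟩ := Pool.Agent.W671.WU.deriv_time_change
      (R := fun x => (R x : TangentSpace 𝓘(ℝ, E) x))
      hRF.smooth hF (hTs (τ x)) (s := τ x) (Φ := Φ) (fun y => (htc y).1 _) x
    refine ⟨b + h (Φ x (τ x)) • lam, fun v => ?_⟩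
    have ha := hlam v
    have e1 : D (E := E) (E' := E) (fun y => Φ y (τ x)) x v =
        Pool.Agent.W671.WU.dm E (fun y => Φ y (τ x)) x v := rfl
    rw [e1, hb v] at ha
    have e2 : Fl x (∫ r in (0:ℝ)..(τ x), h (Φ x r)) = Φ x (τ x) := ((htc x).1 _).symm
    rw [e2] at ha ⊢
    have e3 : D (E := E) (E' := F) e (Φ x (τ x))
        (Pool.Agent.W671.WU.dm E (fun y => Fl y (∫ r in (0:ℝ)..(τ x), h (Φ x r))) x v +
          b v • R (Φ x (τ x)) + lam v • h (Φ x (τ x)) • R (Φ x (τ x))) =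
        Pool.Agent.W671.WU.dv E e (Φ x (τ x))
          (Pool.Agent.W671.WU.dm E (fun y => Fl y (∫ r in (0:ℝ)..(τ x), h (Φ x r))) x v) +
          (b + h (Φ x (τ x)) • lam) v •
            Pool.Agent.W671.WU.dv E e (Φ x (τ x)) (R (Φ x (τ x))) := by
      have e4 : (b + h (Φ x (τ x)) • lam) v = b v + lam v * h (Φ x (τ x)) := by
        rw [add_apply, smul_apply, smul_eq_mul]
        ring
      rw [smul_smul, add_assoc, ← add_smul, map_add, map_smul, e4]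
      rfl
    exact ⟨by rw [← e3]; exact ha.1, by rw [← e3]; exact ha.2⟩
  · obtain ⟨s, hs, hs'⟩ := (htc y).2 T hT
    have hxs : Φ y s = y := by rw [(htc y).1, hs', hy]
    refine ⟨s, hs, hΦ.integral y, fun t => ?_⟩
    rw [add_comm, flow_add hXs hΦ.zero hΦ.integral, hxs]

/-- **One approximate return.** -/
theorem approx [T2Space M] [CompactSpace M] [Nonempty M]
    (hdim : 1 < Module.finrank ℝ E)
    (α : M → Cov E) (hα : IsContact α) (R : M → E) (hR : IsReeb α R)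
    (α' : ℕ → M → Cov E) (hα' : ∀ j, IsContact (α' j)) (R' : ℕ → M → E)
    (hR' : ∀ j, IsReeb (α' j) (R' j))
    (hconv : FormsTendToC2 α' α ∨ (FormsTendToC1 α' α ∧ FieldsTendToC1 R' R))
    (h : ℕ → M → ℝ) (hh : ∀ j, ContMDiff 𝓘(ℝ, E) 𝓘(ℝ, ℝ) ∞ (h j))
    (hpos : ∃ c > 0, ∀ j x, c ≤ h j x)
    (Φ : ℕ → M → ℝ → M) (hΦ : ∀ j, IsFlow (fun x => h j x • R' j x) (Φ j))
    (e : M → F) (he : IsInjImmersion (E := E) e) (τ : ℕ → M → ℝ)
    (hτ : Returning e (fun j x => h j x • R' j x) Φ τ) :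
    ∀ᶠ j in atTop, ∃ (c₁ c₂ : ℝ → M) (T₁ T₂ : ℝ),
      IsPeriodicOrbit (fun x => h j x • R' j x) c₁ T₁ ∧
      IsPeriodicOrbit (fun x => h j x • R' j x) c₂ T₂ ∧ Disjoint (range c₁) (range c₂) := by
  have : IsManifold 𝓘(ℝ, E) 1 M := IsManifold.of_le (n := ∞) (by simp)
  have c : Wein.CD (toForm α) (fun x => (R x : TangentSpace 𝓘(ℝ, E) x)) := ⟨hα.toWein, hR.toWein⟩
  have cj : ∀ j, Wein.CD (toForm (α' j)) (fun x => (R' j x : TangentSpace 𝓘(ℝ, E) x)) :=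
    fun j => ⟨(hα' j).toWein, (hR' j).toWein⟩
  have hRjs := fun j => Pool.Agent.W671.WU.smooth_reeb (cj j)
  obtain ⟨c₁, hc₁, hpos⟩ := hpos
  choose Flj hFj0 hFj using fun (j : ℕ) (x : M) => Wein.complete_of_compact (hRjs j) isCompact_univ
    (fun y hy => absurd (mem_univ y) hy) x
  have hRFj := fun j => Pool.Agent.W671.WU.RF.of (cj j) (hFj0 j) (hFj j)
  obtain ⟨c₀, hc₀, hc₀'⟩ := hτ.lower
  obtain ⟨C, hC⟩ := hτ.deriv
  have htca := fun j => time_change_all (hα' j) (hR' j) (hh j) hc₁ (hpos j) (hΦ j) (hFj0 j) (hFj j)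
    (e := e) (hτ.cont j) hc₀ (hc₀' j)
  -- the embedding
  obtain ⟨m, e₀, he₀, hemb₀, hinj₀⟩ :=
    exists_embedding_euclidean_of_compact (I := 𝓘(ℝ, E)) (M := M)
  let ι : Wein.Imm (E := E) M m := ⟨e₀, he₀, hinj₀⟩
  have hinj : Function.Injective ι.F := hemb₀.injective
  have hCV : CV ι (fun x => (R x : TangentSpace 𝓘(ℝ, E) x))
      (fun j x => (R' j x : TangentSpace 𝓘(ℝ, E) x)) := by
    rcases hconv with h2 | ⟨h1, h3⟩
    · exact cv_of_C2 ι hα hR hα' hR' h2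
    · exact cv_field ι h3
  have hC1 : FormsTendToC1 α' α := hconv.elim (fun h => h.1) fun h => h.1
  have hSQ : SQ ι (toForm α) (fun x => (R x : TangentSpace 𝓘(ℝ, E) x)) (fun j => toForm (α' j))
      (fun j x => (R' j x : TangentSpace 𝓘(ℝ, E) x)) Flj :=
    ⟨c, cj, hRFj, fun i => cf_form ι hα hα' hC1 i, hCV⟩
  have hst := reeb_core' (F := F) hdim hSQ hinj he.smooth he.injective he.immersion
    (τ := fun j x => ∫ r in (0:ℝ)..(τ j x), h j (Φ j x r)) (c₀ := c₀ * c₁) (C := C)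
    (fun j => (htca j).1) (mul_pos hc₀ hc₁) (fun j => (htca j).2.1)
    (fun ε hε => by
      filter_upwards [hτ.uniform ε hε] with j hj x
      have := hj x
      rw [(htca j).2.2.1 x] at this
      exact this)
    (by
      filter_upwards [hC] with j hj
      exact (htca j).2.2.2.1 C hj)
  filter_upwards [hst] with j hj
  obtain ⟨y₁, T₁, y₂, T₂, hT₁, hT₂, e₁, e₂, hdis⟩ := hj
  obtain ⟨s₁, h₁⟩ := (htca j).2.2.2.2.1 y₁ T₁ hT₁ e₁
  obtain ⟨s₂, h₂⟩ := (htca j).2.2.2.2.1 y₂ T₂ hT₂ e₂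
  refine ⟨Φ j y₁, Φ j y₂, s₁, s₂, h₁, h₂, ?_⟩
  rw [Set.disjoint_left]
  rintro _ ⟨u, rfl⟩ ⟨v, hv⟩
  obtain ⟨a, ha⟩ := (htca j).2.2.2.2.2 y₁ u
  obtain ⟨b, hb⟩ := (htca j).2.2.2.2.2 y₂ v
  rw [ha, hb] at hv
  exact hdis _ _ hv.symm

end Pool.Agent.J4H20.STStmt
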