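import Mathlib
import Pool.Agent.J4H20.ST.St14

/-! Closed orbits from one approximate return, or from a recurrent flow of the limit form. -/

open scoped Topology ContDiff Manifold
open Set Filter MeasureTheory Pool.Agent.Helper186 Pool.Agent.H826R2 Pool.Agent.H826R2.WStmt
  Pool.Agent.W671.RStmt Pool.Agent.J4H20.ST

noncomputable section

set_option linter.unusedSectionVars false

namespace Pool.Agent.J4H20.STStmt

universe u

variable {E : Type u} [NormedAddCommGroup E] [NormedSpace ℝ E] [FiniteDimensional ℝ E]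
  {M : Type*} [TopologicalSpace M] [ChartedSpace E M] [IsManifold 𝓘(ℝ, E) ∞ M]
  {F : Type*} [NormedAddCommGroup F] [NormedSpace ℝ F]

/-- a periodic orbit is an orbit of the flow -/
lemma periodic_eq_flow [T2Space M] {X : (x : M) → TangentSpace 𝓘(ℝ, E) x}
    (hX : ContMDiff 𝓘(ℝ, E) 𝓘(ℝ, E).tangent 1
      (fun x => (⟨x, X x⟩ : TangentBundle 𝓘(ℝ, E) M)))
    {Fl : M → ℝ → M} (hF0 : ∀ x, Fl x 0 = x)
    (hF : ∀ x, IsMIntegralCurve (I := 𝓘(ℝ, E)) (Fl x) X)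
    {c : ℝ → M} (hc : IsMIntegralCurve (I := 𝓘(ℝ, E)) c X) : c = Fl (c 0) := by
  have : IsManifold 𝓘(ℝ, E) 1 M := IsManifold.of_le (n := ∞) (by simp)
  exact isMIntegralCurve_Ioo_eq_of_contMDiff_boundaryless (t₀ := 0) hX hc (hF (c 0)) (hF0 _).symm

/-- **One approximate return, or a recurrent limit.** -/
theorem approx_or [T2Space M] [CompactSpace M] [Nonempty M]
    (hdim : 1 < Module.finrank ℝ E)
    (α : M → Cov E) (hα : IsContact α) (R : M → E) (hR : IsReeb α R)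
    (α' : ℕ → M → Cov E) (hα' : ∀ j, IsContact (α' j)) (R' : ℕ → M → E)
    (hR' : ∀ j, IsReeb (α' j) (R' j))
    (hconv : FormsTendToC2 α' α ∨ (FormsTendToC1 α' α ∧ FieldsTendToC1 R' R))
    (h : ℕ → M → ℝ) (hh : ∀ j, ContMDiff 𝓘(ℝ, E) 𝓘(ℝ, ℝ) ∞ (h j))
    (hpos : ∃ c > 0, ∀ j x, c ≤ h j x)
    (Φ : ℕ → M → ℝ → M) (hΦ : ∀ j, IsFlow (fun x => h j x • R' j x) (Φ j))
    (e : M → F) (he : IsInjImmersion (E := E) e)
    (hret : (∃ τ : ℕ → M → ℝ, Returning e (fun j x => h j x • R' j x) Φ τ) ∨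
      ∃ (g : M → ℝ) (Ψ : M → ℝ → M) (σ : ℕ → M → ℝ), ContMDiff 𝓘(ℝ, E) 𝓘(ℝ, ℝ) ∞ g ∧
        (∀ x, 0 < g x) ∧ IsFlow (fun x => g x • R x) Ψ ∧ Recurrent e (fun x => g x • R x) Ψ σ) :
    ∀ᶠ j in atTop, ∃ (c₁ c₂ : ℝ → M) (T₁ T₂ : ℝ),
      IsPeriodicOrbit (fun x => h j x • R' j x) c₁ T₁ ∧
      IsPeriodicOrbit (fun x => h j x • R' j x) c₂ T₂ ∧ Disjoint (range c₁) (range c₂) := by
  rcases hret with ⟨τ, hτ⟩ | ⟨g, Ψ, σ, hg, hg0, hΨ, hσ⟩
  · exact approx hdim α hα R hR α' hα' R' hR' hconv h hh hpos Φ hΦ e he τ hτ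
  have : IsManifold 𝓘(ℝ, E) 1 M := IsManifold.of_le (n := ∞) (by simp)
  have cj : ∀ j, Wein.CD (toForm (α' j)) (fun x => (R' j x : TangentSpace 𝓘(ℝ, E) x)) :=
    fun j => ⟨(hα' j).toWein, (hR' j).toWein⟩
  have hRjs := fun j => Pool.Agent.W671.WU.smooth_reeb (cj j)
  obtain ⟨c₁, hc₁, hpos⟩ := hpos
  filter_upwards [stable' hdim α hα R hR g hg hg0 Ψ hΨ e he σ hσ α' hα' R' hR' hconv] with j hj
  obtain ⟨a, b, T₁, T₂, ha, hb, hdis⟩ := hj
  choose Fl hF0 hF using fun (x : M) => Wein.complete_of_compact (hRjs j) isCompact_univ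
    (fun y hy => absurd (mem_univ y) hy) x
  have ea := periodic_eq_flow ((hRjs j).of_le (by simp)) hF0 hF ha.integral
  have eb := periodic_eq_flow ((hRjs j).of_le (by simp)) hF0 hF hb.integral
  obtain ⟨-, -, -, -, h5, h6⟩ := time_change_all (hα' j) (hR' j) (hh j) hc₁ (hpos j) (hΦ j) hF0 hF
    (e := e) (τ := fun _ => 1) continuous_const one_pos (fun _ => le_rfl)
  have pa : Fl (a 0) T₁ = a 0 := by
    have h1 := ha.period 0
    rw [zero_add] at h1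
    conv_lhs => rw [← ea]
    exact h1
  have pb : Fl (b 0) T₂ = b 0 := by
    have h1 := hb.period 0
    rw [zero_add] at h1
    conv_lhs => rw [← eb]
    exact h1
  obtain ⟨s₁, h₁⟩ := h5 (a 0) T₁ ha.pos pa
  obtain ⟨s₂, h₂⟩ := h5 (b 0) T₂ hb.pos pb
  refine ⟨Φ j (a 0), Φ j (b 0), s₁, s₂, h₁, h₂, ?_⟩
  rw [Set.disjoint_left]
  rintro _ ⟨u, rfl⟩ ⟨v, hv⟩
  obtain ⟨p, hp⟩ := h6 (a 0) u
  obtain ⟨q, hq⟩ := h6 (b 0) v
  rw [hp, hq] at hv
  have m1 : Fl (a 0) p ∈ range a := ⟨p, congrFun ea p⟩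
  have m2 : Fl (a 0) p ∈ range b := by
    rw [← hv]
    exact ⟨q, congrFun eb q⟩
  exact (Set.disjoint_left.1 hdis) m1 m2

end Pool.Agent.J4H20.STStmt
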